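import Pool.Agent.H7.KSAT.WalkFin
import Pool.Agent.H9.KA.Defs

/-!
# Saturation for families of lines with a random time
-/

set_option autoImplicit false

namespace Pool.KSAT

open Finset Real
open Pool.Agent.H49.Ent Pool.Agent.H32.Dense Pool.STK Pool.KA

variable {m J : ℕ}

/-- The cell in space-time. -/
noncomputable def scell (F : Fam m J) (g : ℕ) (ω : F.Ω) : Fin (m + 1) → ℤ :=
  Fin.cons (F.T1 g ω : ℤ) (F.X g ω)

/-- The velocity in space-time. -/
noncomputable def svel (F : Fam m J) (K : ℕ) (ω : F.Ω) : Fin (m + 1) → ℤ :=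
  Fin.cons (2 ^ K) (F.D K ω)

/-- The line with its window and side information. -/
def slam (F : Fam m J) (w : ℕ) (ω : F.Ω) : ((Fin m → ℝ) × (Fin m → ℝ)) × F.ζ × ℕ :=
  (F.l ω, F.Z ω, F.T1 w ω)

open Classical in
/-- **Saturation in class SL**: window `(w, w + K]`, label `b`. -/
def SLSatStmt : Prop :=
  ∀ m n k : ℕ, k + 1 < n → ∃ C : ℝ, 0 ≤ C ∧ ∀ (J : ℕ) (F : Fam m J) (β : Type) (b : F.Ω → β)
    (w K a : ℕ) (e ρ : ℝ), w + K ≤ J → a + 2 ≤ K → F.Tm e →
    (∀ ω ω', 0 < F.p ω → 0 < F.p ω' → slam F w ω = slam F w ω' → b ω = b ω') →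
    0 < ρ → (n : ℝ) ^ (k + 1) * ρ ^ (n - (k + 1)) < 1 →
    (∀ ω, 0 < F.p ω → ∀ (v : Fin m → ℝ) (B : Fin k → Fin m → ℝ),
      (∑ ω', if ∃ c : Fin k → ℝ, ∀ j, |F.d ω' j - v j - ∑ i, c i * B i j| ≤ 4 * 2 ^ a / 2 ^ K
        then cond F.p b (b ω) ω' else 0) ≤ ρ) →
    (k + 2) * (a * Real.log 2) * (1 - (n * (CH F.p (F.D K) b -
      CH F.p (F.D K) (fun ω => (b ω, F.T1 (w + K) ω, F.X (w + K) ω))) + Real.log 2) /
      Real.log (1 / ((n : ℝ) ^ (k + 1) * ρ ^ (n - (k + 1))))) - a * Real.log 2 -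
      n * (e + (CH F.p (F.D K) b -
        CH F.p (F.D K) (fun ω => (b ω, F.T1 (w + K) ω, F.X (w + K) ω)))) - C ≤
      CH F.p (F.X (w + K)) (fun ω => (F.T1 (w + K) ω, F.X (w + K - a) ω, b ω))

/-! ### Time digits -/

lemma T1_div (F : Fam m J) {w K : ℕ} (h : w + K ≤ J) (ω : F.Ω) :
    F.T1 w ω = F.T1 (w + K) ω / 2 ^ K := by
  unfold Fam.T1
  rw [Nat.div_div_eq_div_mul, ← pow_add]
  congr 2
  omega

/-- Time digits given the line. -/
lemma time_digits (F : Fam m J) {w K : ℕ} (h : w + K ≤ J) {e : ℝ} (he : F.Tm e) :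
    K * Real.log 2 - e ≤ CH F.p (fun ω => (F.T1 (w + K) ω : ℤ)) (slam F w) := by
  have h0 := F.isLaw.nonneg
  have c1 := CH_le_add h0 F.T (F.T1 w) (fun ω => (F.l ω, F.Z ω))
  have c2 := CH_le_add h0 F.T (F.T1 (w + K)) (fun ω => (F.T1 w ω, (F.l ω, F.Z ω)))
  have d1 : CH F.p (F.T1 w) (fun ω => (F.l ω, F.Z ω)) ≤ w * Real.log 2 := by
    refine (CH_le_card h0 F.isLaw.sum_one (F.T1 w) _ (fun _ => Finset.range (2 ^ w)) ?_).trans ?_
    · intro ω _
      rw [Finset.mem_range]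
      unfold Fam.T1
      rw [Nat.div_lt_iff_lt_mul (by positivity), ← pow_add]
      have h1 := F.tim ω
      have e1 : w + (J - w) = J := by omega
      rwa [e1]
    · rw [Finset.card_range]
      push_cast
      rw [Ex_const F.isLaw.sum_one, Real.log_pow]
  have d2 : CH F.p F.T (fun ω => (F.T1 (w + K) ω, (F.T1 w ω, (F.l ω, F.Z ω)))) ≤
      ((J - (w + K) : ℕ) : ℝ) * Real.log 2 := by
    refine (CH_le_card h0 F.isLaw.sum_one F.T _
      (fun v => Finset.Ico (v.1 * 2 ^ (J - (w + K))) ((v.1 + 1) * 2 ^ (J - (w + K)))) ?_).trans ?_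
    · intro ω _
      rw [Finset.mem_Ico]
      unfold Fam.T1
      constructor
      · exact Nat.div_mul_le_self _ _
      · rw [← Nat.div_lt_iff_lt_mul (by positivity)]
        exact Nat.lt_succ_self _
    · refine le_of_eq ?_
      have : ∀ v : ℕ, (Finset.Ico (v * 2 ^ (J - (w + K))) ((v + 1) * 2 ^ (J - (w + K)))).card =
          2 ^ (J - (w + K)) := by
        intro v
        rw [Nat.card_Ico, add_mul, one_mul, Nat.add_sub_cancel_left]
      simp only [this]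
      push_cast
      rw [Ex_const F.isLaw.sum_one, Real.log_pow]
  have d3 : CH F.p (F.T1 (w + K)) (fun ω => (F.T1 w ω, (F.l ω, F.Z ω))) =
      CH F.p (fun ω => (F.T1 (w + K) ω : ℤ)) (slam F w) := by
    refine CH_congr h0 ?_ ?_ ?_ ?_
    · intro ω ω' _ _ hh
      have := (Prod.ext_iff.mp hh).1
      simp only at this ⊢
      rw [this]
    · intro ω ω' _ _ hh
      have := (Prod.ext_iff.mp hh).1
      simp only at this ⊢
      exact_mod_cast this
    · intro ω ω' _ _ hh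
      simp only [slam, Prod.mk.injEq] at hh ⊢
      tauto
    · intro ω ω' _ _ hh
      simp only [slam, Prod.mk.injEq] at hh ⊢
      tauto
  have d4 : (J : ℝ) * Real.log 2 = w * Real.log 2 + K * Real.log 2 +
      ((J - (w + K) : ℕ) : ℝ) * Real.log 2 := by
    rw [Nat.cast_sub h]
    push_cast
    ring
  unfold Fam.Tm at he
  rw [d3] at c2
  linarith only [he, c1, c2, d1, d2, d4]

/-! ### Rounding -/

lemma T1_real (F : Fam m J) {g : ℕ} (h : g ≤ J) (ω : F.Ω) :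
    0 ≤ 2 ^ g * F.t ω - F.T1 g ω ∧ 2 ^ g * F.t ω - F.T1 g ω < 1 := by
  unfold Fam.t Fam.T1
  have h2 : (2 : ℝ) ^ J = 2 ^ g * 2 ^ (J - g) := by
    rw [← pow_add]
    congr 1
    omega
  have h3 : (0 : ℝ) < 2 ^ (J - g) := by positivity
  have h4 : (0 : ℝ) < 2 ^ g := by positivity
  have e1 : 2 ^ g * ((F.T ω : ℝ) / 2 ^ J) = (F.T ω : ℝ) / 2 ^ (J - g) := by
    rw [h2]
    field_simp
  rw [e1]
  have h5 : ((F.T ω / 2 ^ (J - g) : ℕ) : ℝ) * 2 ^ (J - g) ≤ F.T ω := by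
    exact_mod_cast Nat.div_mul_le_self _ _
  have h6 : (F.T ω : ℝ) < (((F.T ω / 2 ^ (J - g) : ℕ) : ℝ) + 1) * 2 ^ (J - g) := by
    have := Nat.lt_mul_of_div_lt (a := F.T ω) (b := F.T ω / 2 ^ (J - g) + 1)
      (c := 2 ^ (J - g)) (Nat.lt_succ_self _) (by positivity)
    exact_mod_cast this
  constructor
  · have : ((F.T ω / 2 ^ (J - g) : ℕ) : ℝ) ≤ (F.T ω : ℝ) / 2 ^ (J - g) := by
      rw [le_div_iff₀ h3]; exact h5
    linarith only [this]
  · have : (F.T ω : ℝ) / 2 ^ (J - g) < ((F.T ω / 2 ^ (J - g) : ℕ) : ℝ) + 1 := by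
      rw [div_lt_iff₀ h3]; exact h6
    linarith only [this]

lemma rd_le {r : ℕ} {x : Fin m → ℝ} (i : Fin m) :
    ((fl r x i : ℤ) : ℝ) ≤ 2 ^ r * x i ∧ 2 ^ r * x i < ((fl r x i : ℤ) : ℝ) + 1 := by
  unfold fl rd
  exact ⟨Int.floor_le _, Int.lt_floor_add_one _⟩

/-- The motion of the cell. -/
lemma cell_move (F : Fam m J) {w K : ℕ} (h : w + K ≤ J) {ω ω' : F.Ω}
    (hs : slam F w ω = slam F w ω') :
    |(((F.T1 (w + K) ω' : ℤ) : ℝ) - ((F.T1 (w + K) ω : ℤ) : ℝ))| ≤ 2 ^ K ∧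
    ∀ i, |2 ^ K * ((scell F (w + K) ω' i : ℝ) - scell F (w + K) ω i) -
      (((F.T1 (w + K) ω' : ℤ) : ℝ) - ((F.T1 (w + K) ω : ℤ) : ℝ)) * svel F K ω i| ≤
      4 * 2 ^ K := by
  simp only [slam, Prod.mk.injEq, Fam.l] at hs
  obtain ⟨⟨hu, hd⟩, _, hT⟩ := hs
  have hK : (0 : ℝ) < 2 ^ K := by positivity
  have hw1 := T1_div F h ω
  have hw2 := T1_div F h ω'
  have hdiff : |(((F.T1 (w + K) ω' : ℤ) : ℝ) - ((F.T1 (w + K) ω : ℤ) : ℝ))| ≤ 2 ^ K := by
    have a1 := Nat.div_add_mod (F.T1 (w + K) ω) (2 ^ K)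
    have a2 := Nat.div_add_mod (F.T1 (w + K) ω') (2 ^ K)
    have a3 := Nat.mod_lt (F.T1 (w + K) ω) (show 0 < 2 ^ K by positivity)
    have a4 := Nat.mod_lt (F.T1 (w + K) ω') (show 0 < 2 ^ K by positivity)
    rw [← hw1] at a1
    rw [← hw2, ← hT] at a2
    have b1 : ((2 ^ K * F.T1 w ω + F.T1 (w + K) ω % 2 ^ K : ℕ) : ℝ) = F.T1 (w + K) ω := by
      exact_mod_cast a1
    have b2 : ((2 ^ K * F.T1 w ω + F.T1 (w + K) ω' % 2 ^ K : ℕ) : ℝ) = F.T1 (w + K) ω' := by
      exact_mod_cast a2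
    have b3 : ((F.T1 (w + K) ω % 2 ^ K : ℕ) : ℝ) < 2 ^ K := by exact_mod_cast a3
    have b4 : ((F.T1 (w + K) ω' % 2 ^ K : ℕ) : ℝ) < 2 ^ K := by exact_mod_cast a4
    have b5 : (0 : ℝ) ≤ ((F.T1 (w + K) ω % 2 ^ K : ℕ) : ℝ) := by positivity
    have b6 : (0 : ℝ) ≤ ((F.T1 (w + K) ω' % 2 ^ K : ℕ) : ℝ) := by positivity
    push_cast at b1 b2 b3 b4 b5 b6 ⊢
    rw [abs_le]
    constructor <;> linarith
  refine ⟨hdiff, fun i => ?_⟩
  induction i using Fin.cases with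
  | zero =>
    simp only [scell, svel, Fin.cons_zero]
    push_cast
    have : 2 ^ K * (((F.T1 (w + K) ω' : ℕ) : ℝ) - ((F.T1 (w + K) ω : ℕ) : ℝ)) -
        (((F.T1 (w + K) ω' : ℕ) : ℝ) - ((F.T1 (w + K) ω : ℕ) : ℝ)) * 2 ^ K = 0 := by ring
    rw [this, abs_zero]
    positivity
  | succ i =>
    simp only [scell, svel, Fin.cons_succ]
    have t1 := T1_real F h ω
    have t2 := T1_real F h ω'
    have x1 := rd_le (r := w + K) (x := F.x ω) i
    have x2 := rd_le (r := w + K) (x := F.x ω') i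
    have x3 := rd_le (r := K) (x := F.d ω) i
    have hd1 := F.dir ω i
    have hx1 : F.x ω i = F.u ω i + F.t ω * F.d ω i := rfl
    have hx2 : F.x ω' i = F.u ω i + F.t ω' * F.d ω i := by
      unfold Fam.x
      rw [hu, hd]
    rw [hx1] at x1
    rw [hx2] at x2
    have hX1 : F.X (w + K) ω i = fl (w + K) (F.x ω) i := rfl
    have hX2 : F.X (w + K) ω' i = fl (w + K) (F.x ω') i := rfl
    have hD1 : F.D K ω i = fl K (F.d ω) i := rfl
    rw [hX1, hX2, hD1]
    push_cast at hdiff ⊢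
    set a1 : ℝ := ((fl (w + K) (F.x ω) i : ℤ) : ℝ)
    set a2 : ℝ := ((fl (w + K) (F.x ω') i : ℤ) : ℝ)
    set a3 : ℝ := ((fl K (F.d ω) i : ℤ) : ℝ)
    set s1 : ℝ := ((F.T1 (w + K) ω : ℕ) : ℝ)
    set s2 : ℝ := ((F.T1 (w + K) ω' : ℕ) : ℝ)
    set q : ℝ := (2 : ℝ) ^ (w + K)
    set dd : ℝ := F.d ω i
    -- |a2 - a1 - (s2 - s1) dd| <= 2
    have g1 : |(a2 - a1) - (s2 - s1) * dd| ≤ 2 := by
      have e1 : q * (F.u ω i + F.t ω' * dd) - q * (F.u ω i + F.t ω * dd) =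
          (s2 - s1) * dd + ((q * F.t ω' - s2) - (q * F.t ω - s1)) * dd := by ring
      have e2 : |((q * F.t ω' - s2) - (q * F.t ω - s1)) * dd| ≤ 1 := by
        rw [abs_mul]
        have : |(q * F.t ω' - s2) - (q * F.t ω - s1)| ≤ 1 := by
          rw [abs_le]
          constructor <;> linarith only [t1, t2, t1.1, t1.2, t2.1, t2.2]
        calc |(q * F.t ω' - s2) - (q * F.t ω - s1)| * |dd| ≤ 1 * 1 :=
              mul_le_mul this hd1 (abs_nonneg _) (by norm_num)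
          _ = 1 := by norm_num
      rw [abs_le] at e2 ⊢
      constructor <;> linarith only [x1, x2, e2, x1.1, x1.2, x2.1, x2.2, e2.1, e2.2]
    -- |2^K dd - a3| <= 1
    have g2 : |2 ^ K * dd - a3| ≤ 1 := by
      rw [abs_le]
      constructor <;> linarith only [x3, x3.1, x3.2]
    have g3 : 2 ^ K * (a2 - a1) - (s2 - s1) * a3 =
        2 ^ K * ((a2 - a1) - (s2 - s1) * dd) + (s2 - s1) * (2 ^ K * dd - a3) := by ring
    rw [g3]
    have g4 : |2 ^ K * ((a2 - a1) - (s2 - s1) * dd)| ≤ 2 * 2 ^ K := by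
      rw [abs_mul, abs_of_pos hK]
      nlinarith only [hK, g1]
    have g5 : |(s2 - s1) * (2 ^ K * dd - a3)| ≤ 2 ^ K := by
      rw [abs_mul]
      calc |s2 - s1| * |2 ^ K * dd - a3| ≤ 2 ^ K * 1 :=
            mul_le_mul hdiff g2 (abs_nonneg _) hK.le
        _ = 2 ^ K := by ring
    calc |2 ^ K * ((a2 - a1) - (s2 - s1) * dd) + (s2 - s1) * (2 ^ K * dd - a3)| ≤
          |2 ^ K * ((a2 - a1) - (s2 - s1) * dd)| + |(s2 - s1) * (2 ^ K * dd - a3)| :=
          abs_add_le _ _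
      _ ≤ 4 * 2 ^ K := by linarith only [hK, g4, g5]

lemma svel_le (F : Fam m J) (K : ℕ) (ω : F.Ω) (i : Fin (m + 1)) :
    |(svel F K ω i : ℝ)| ≤ 3 * 2 ^ K := by
  have hK : (1 : ℝ) ≤ 2 ^ K := one_le_pow₀ (by norm_num)
  induction i using Fin.cases with
  | zero =>
    simp only [svel, Fin.cons_zero]
    push_cast
    rw [abs_of_pos (by positivity)]
    linarith only [hK]
  | succ i =>
    simp only [svel, Fin.cons_succ]
    have x3 := rd_le (r := K) (x := F.d ω) i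
    have hd1 := F.dir ω i
    have hD1 : F.D K ω i = fl K (F.d ω) i := rfl
    rw [hD1]
    rw [abs_le] at hd1 ⊢
    have g1 : 2 ^ K * F.d ω i ≤ 2 ^ K := by nlinarith only [hd1, hK, hd1.2]
    have g2 : -2 ^ K ≤ 2 ^ K * F.d ω i := by nlinarith only [hd1, hK, hd1.1]
    constructor <;> linarith [x3.1, x3.2]

/-- Linear subspaces of space-time and affine subspaces of directions. -/
lemma conc_aff {k K a : ℕ} (haK : a + 2 ≤ K) (B' : Fin (k + 1) → Fin (m + 1) → ℝ) :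
    ∃ (v : Fin m → ℝ) (B : Fin k → Fin m → ℝ), ∀ (F : Fam m J) (ω : F.Ω),
      (∃ c : Fin (k + 1) → ℝ, ∀ j, |(svel F K ω j : ℝ) - ∑ i, c i * B' i j| ≤ 2 ^ a) →
      ∃ c : Fin k → ℝ, ∀ j, |F.d ω j - v j - ∑ i, c i * B i j| ≤ 4 * 2 ^ a / 2 ^ K := by
  have hK : (0 : ℝ) < 2 ^ K := by positivity
  have ha : (0 : ℝ) < 2 ^ a := by positivity
  have ha1 : (1 : ℝ) ≤ 2 ^ a := one_le_pow₀ (by norm_num)
  have h4 : 4 * (2 : ℝ) ^ a ≤ 2 ^ K := by
    calc 4 * (2 : ℝ) ^ a = 2 ^ (a + 2) := by rw [pow_add]; ring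
      _ ≤ 2 ^ K := pow_le_pow_right₀ (by norm_num) haK
  by_cases hz : ∀ i, B' i 0 = 0
  · refine ⟨0, 0, fun F ω h => ?_⟩
    obtain ⟨c, hc⟩ := h
    have h0 := hc 0
    simp only [hz, mul_zero, Finset.sum_const_zero, sub_zero, svel, Fin.cons_zero] at h0
    push_cast at h0
    rw [abs_of_pos hK] at h0
    linarith only [ha, h4, h0]
  · push Not at hz
    obtain ⟨i0, hi0⟩ := hz
    refine ⟨fun j => B' i0 j.succ / B' i0 0,
      fun i j => B' (i0.succAbove i) j.succ -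
        (B' (i0.succAbove i) 0 / B' i0 0) * B' i0 j.succ, fun F ω h => ?_⟩
    obtain ⟨c, hc⟩ := h
    set P0 : ℝ := ∑ i, c i * B' i 0 with hP0
    have h0 := hc 0
    simp only [svel, Fin.cons_zero] at h0
    push_cast at h0
    rw [← hP0] at h0
    have hP1 : 3 / 4 * (2 : ℝ) ^ K ≤ P0 := by
      rw [abs_le] at h0
      linarith only [h4, h0, h0.2]
    have hP2 : 0 < P0 := by linarith only [ha, h4, hP1]
    refine ⟨fun i => c (i0.succAbove i) / P0, fun j => ?_⟩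
    have hj := hc j.succ
    simp only [svel, Fin.cons_succ] at hj
    set P1 : ℝ := ∑ i, c i * B' i j.succ with hP1'
    have s0 : P0 = c i0 * B' i0 0 + ∑ i, c (i0.succAbove i) * B' (i0.succAbove i) 0 := by
      rw [hP0, Fin.sum_univ_succAbove _ i0]
    have s1 : P1 = c i0 * B' i0 j.succ +
        ∑ i, c (i0.succAbove i) * B' (i0.succAbove i) j.succ := by
      rw [hP1', Fin.sum_univ_succAbove _ i0]
    have key : B' i0 j.succ / B' i0 0 + ∑ i, c (i0.succAbove i) / P0 *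
        (B' (i0.succAbove i) j.succ - (B' (i0.succAbove i) 0 / B' i0 0) * B' i0 j.succ) =
        P1 / P0 := by
      have e1 : ∑ i, c (i0.succAbove i) / P0 *
          (B' (i0.succAbove i) j.succ - (B' (i0.succAbove i) 0 / B' i0 0) * B' i0 j.succ) =
          (∑ i, c (i0.succAbove i) * B' (i0.succAbove i) j.succ) / P0 -
          (∑ i, c (i0.succAbove i) * B' (i0.succAbove i) 0) * (B' i0 j.succ / B' i0 0) / P0 := by
        rw [Finset.sum_div, Finset.sum_mul, Finset.sum_div, ← Finset.sum_sub_distrib]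
        refine Finset.sum_congr rfl fun i _ => ?_
        field_simp
      rw [e1]
      have e2 : ∑ i, c (i0.succAbove i) * B' (i0.succAbove i) j.succ =
          P1 - c i0 * B' i0 j.succ := by linarith only [s1]
      have e3 : ∑ i, c (i0.succAbove i) * B' (i0.succAbove i) 0 =
          P0 - c i0 * B' i0 0 := by linarith only [s0]
      rw [e2, e3]
      field_simp
      ring
    have hd1 := F.dir ω j
    have x3 := rd_le (r := K) (x := F.d ω) j
    have hD1 : F.D K ω j = fl K (F.d ω) j := rfl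
    rw [hD1] at hj
    have e4 : F.d ω j - B' i0 j.succ / B' i0 0 - ∑ i, c (i0.succAbove i) / P0 *
        (B' (i0.succAbove i) j.succ - (B' (i0.succAbove i) 0 / B' i0 0) * B' i0 j.succ) =
        (F.d ω j * P0 - P1) / P0 := by
      have : F.d ω j - B' i0 j.succ / B' i0 0 - ∑ i, c (i0.succAbove i) / P0 *
        (B' (i0.succAbove i) j.succ - (B' (i0.succAbove i) 0 / B' i0 0) * B' i0 j.succ) =
        F.d ω j - P1 / P0 := by rw [← key]; ring
      rw [this]
      field_simp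
    rw [e4, abs_div, abs_of_pos hP2, div_le_div_iff₀ hP2 hK]
    have e5 : F.d ω j * P0 - P1 = F.d ω j * (P0 - 2 ^ K) +
        (2 ^ K * F.d ω j - ((fl K (F.d ω) j : ℤ) : ℝ)) +
        (((fl K (F.d ω) j : ℤ) : ℝ) - P1) := by ring
    have e6 : |F.d ω j * (P0 - 2 ^ K)| ≤ 2 ^ a := by
      rw [abs_mul]
      have : |P0 - 2 ^ K| ≤ 2 ^ a := by rw [abs_sub_comm]; exact h0
      calc |F.d ω j| * |P0 - 2 ^ K| ≤ 1 * 2 ^ a :=
            mul_le_mul hd1 this (abs_nonneg _) (by norm_num)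
        _ = 2 ^ a := one_mul _
    have e7 : |F.d ω j * P0 - P1| ≤ 3 * 2 ^ a := by
      rw [e5]
      rw [abs_le] at e6 hj ⊢
      constructor <;> linarith [e6.1, e6.2, hj.1, hj.2, x3.1, x3.2]
    calc |F.d ω j * P0 - P1| * 2 ^ K ≤ 3 * 2 ^ a * 2 ^ K :=
          mul_le_mul_of_nonneg_right e7 hK.le
      _ ≤ 4 * 2 ^ a * P0 := by nlinarith only [ha, hP1]

lemma X_div (F : Fam m J) {g a : ℕ} (h : a ≤ g) (ω : F.Ω) (i : Fin m) :
    F.X (g - a) ω i = F.X g ω i / 2 ^ a := by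
  have e1 : F.X (g - a) ω i = ⌊2 ^ (g - a) * F.x ω i⌋ := rfl
  have e2 : F.X g ω i = ⌊2 ^ g * F.x ω i⌋ := rfl
  rw [e1, e2]
  have h1 : (2 : ℝ) ^ (g - a) * F.x ω i = (2 ^ g * F.x ω i) / ((2 ^ a : ℕ) : ℝ) := by
    have h2 : (2 : ℝ) ^ g = 2 ^ (g - a) * 2 ^ a := by
      rw [← pow_add]
      congr 1
      omega
    rw [h2]
    push_cast
    field_simp
  rw [h1, Int.floor_div_natCast]
  push_cast
  rfl

/-- The entropy of the cell given the coarse cell. -/
lemma scell_le (F : Fam m J) {β : Type} (b : F.Ω → β) {g a : ℕ} (h : a ≤ g) :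
    CH F.p (scell F g) (fun ω => ((fun j => scell F g ω j / 2 ^ a), b ω)) ≤
      a * Real.log 2 + CH F.p (F.X g) (fun ω => (F.T1 g ω, F.X (g - a) ω, b ω)) := by
  have h0 := F.isLaw.nonneg
  have c1 := CH_le_add h0 (scell F g) (F.T1 g)
    (fun ω => ((fun j => scell F g ω j / 2 ^ a), b ω))
  have c2 : CH F.p (F.T1 g) (fun ω => ((fun j => scell F g ω j / 2 ^ a), b ω)) ≤
      a * Real.log 2 := by
    refine (CH_le_card h0 F.isLaw.sum_one (F.T1 g) _
      (fun v => Finset.Ico ((v.1 0).toNat * 2 ^ a) (((v.1 0).toNat + 1) * 2 ^ a)) ?_).trans ?_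
    · intro ω _
      simp only [scell, Fin.cons_zero]
      have e1 : (((F.T1 g ω : ℤ) / 2 ^ a).toNat) = F.T1 g ω / 2 ^ a := by
        have : ((F.T1 g ω : ℤ) / 2 ^ a) = ((F.T1 g ω / 2 ^ a : ℕ) : ℤ) := by push_cast; rfl
        rw [this, Int.toNat_natCast]
      rw [e1, Finset.mem_Ico]
      constructor
      · exact Nat.div_mul_le_self _ _
      · rw [← Nat.div_lt_iff_lt_mul (by positivity)]
        exact Nat.lt_succ_self _
    · refine le_of_eq ?_
      have : ∀ v : ℕ, (Finset.Ico (v * 2 ^ a) ((v + 1) * 2 ^ a)).card = 2 ^ a := by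
        intro v
        rw [Nat.card_Ico, add_mul, one_mul, Nat.add_sub_cancel_left]
      simp only [this]
      push_cast
      rw [Ex_const F.isLaw.sum_one, Real.log_pow]
  have c3 : CH F.p (scell F g) (fun ω => (F.T1 g ω,
      ((fun j => scell F g ω j / 2 ^ a), b ω))) ≤
      CH F.p (F.X g) (fun ω => (F.T1 g ω, F.X (g - a) ω, b ω)) := by
    refine (CH_mono_left h0 (X' := F.X g) ?_).trans (CH_mono_cond h0 ?_)
    · intro ω ω' _ _ hh
      simp only [Prod.mk.injEq] at hh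
      unfold scell
      rw [hh.1, hh.2.1]
    · intro ω ω' _ _ hh
      simp only [Prod.mk.injEq] at hh ⊢
      refine ⟨hh.1, ?_, hh.2.2⟩
      funext i
      rw [X_div F h, X_div F h]
      have := congrFun hh.2.1 i.succ
      simpa only [scell, Fin.cons_succ] using this
  linarith only [c1, c2, c3]

theorem slSat_thm (hW : WalkSaturationStmt) : SLSatStmt := by
  classical
  intro m n k hkn
  obtain ⟨C, hC, hw⟩ := hW (m + 1) n (k + 1) hkn
  refine ⟨C, hC, ?_⟩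
  intro J F β b w K a e ρ hwK haK he hb hρ hρ1 hconc
  have h0 := F.isLaw.nonneg
  have key := hw F.Ω _ β F.p (slam F w) b (fun ω => (F.T1 (w + K) ω : ℤ))
    (scell F (w + K)) (svel F K) K a ρ F.isLaw (svel_le F K)
    (fun ω ω' _ _ hs => cell_move F hwK hs) hb hρ hρ1 (by
      intro ω hω B'
      obtain ⟨v, B, hB⟩ := conc_aff (m := m) (J := J) haK B'
      refine le_trans (Finset.sum_le_sum fun ω' _ => ?_) (hconc ω hω v B)
      have hc0 := cond_nonneg h0 b (b ω) ω'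
      by_cases h1 : ∃ c : Fin (k + 1) → ℝ, ∀ j,
          |(svel F K ω' j : ℝ) - ∑ i, c i * B' i j| ≤ 2 ^ a
      · rw [if_pos h1, if_pos (hB F ω' h1)]
      · rw [if_neg h1]
        split_ifs
        · exact hc0
        · exact le_rfl)
  have hT := time_digits F hwK he
  have hx := scell_le F b (g := w + K) (a := a) (by omega)
  have e1 : CH F.p (svel F K) b = CH F.p (F.D K) b := by
    refine CH_congr h0 ?_ ?_ (fun _ _ _ _ h => h) (fun _ _ _ _ h => h)
    · intro ω ω' _ _ hh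
      have := (Prod.ext_iff.mp hh).1
      simp only [svel] at this
      exact (Fin.cons_injective2 this).2
    · intro ω ω' _ _ hh
      have := (Prod.ext_iff.mp hh).1
      simp only at this
      unfold svel
      rw [this]
  have e2 : CH F.p (svel F K) (fun ω => (b ω, scell F (w + K) ω)) =
      CH F.p (F.D K) (fun ω => (b ω, F.T1 (w + K) ω, F.X (w + K) ω)) := by
    refine CH_congr h0 ?_ ?_ ?_ ?_
    · intro ω ω' _ _ hh
      have := (Prod.ext_iff.mp hh).1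
      simp only [svel] at this
      exact (Fin.cons_injective2 this).2
    · intro ω ω' _ _ hh
      have := (Prod.ext_iff.mp hh).1
      simp only at this
      unfold svel
      rw [this]
    · intro ω ω' _ _ hh
      simp only [Prod.mk.injEq] at hh ⊢
      have h2 := Fin.cons_injective2 hh.2
      exact ⟨hh.1, by exact_mod_cast h2.1, h2.2⟩
    · intro ω ω' _ _ hh
      simp only [Prod.mk.injEq] at hh ⊢
      refine ⟨hh.1, ?_⟩
      unfold scell
      rw [hh.2.1, hh.2.2]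
  rw [e1, e2] at key
  push_cast at key ⊢
  set I : ℝ := CH F.p (F.D K) b - CH F.p (F.D K) (fun ω => (b ω, F.T1 (w + K) ω,
    F.X (w + K) ω)) with hI
  have hn : (0 : ℝ) ≤ n := by positivity
  have h5 : (n : ℝ) * (K * Real.log 2 - CH F.p (fun ω => (F.T1 (w + K) ω : ℤ)) (slam F w) +
      CH F.p (F.D K) b - CH F.p (F.D K) (fun ω => (b ω, F.T1 (w + K) ω, F.X (w + K) ω))) ≤
      n * (e + I) := by
    refine mul_le_mul_of_nonneg_left ?_ hn
    linarith only [hT]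
  have h6 : ((k : ℝ) + 1 + 1) = k + 2 := by ring
  rw [h6] at key
  linarith only [hx, key, h5]

end Pool.KSAT
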