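import Pool.Agent.H7.KSAT.SL2
import Pool.Agent.H9.KA.Stmts

/-!
# Section S1: greedy labels, exclusion of large dimensions, saturation along planes. Statements
-/

set_option autoImplicit false

namespace Pool.KSAT

open Finset Real
open Pool.Agent.H49.Ent Pool.Agent.H32.Dense Pool.STK Pool.KA

/-- The point `x` is `r`-near to the affine subspace through `v` spanned by `B`. -/
def Near {m : ℕ} (k : ℕ) (r : ℝ) (v : Fin m → ℝ) (B : Fin k → Fin m → ℝ) (x : Fin m → ℝ) :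
    Prop :=
  ∃ c : Fin k → ℝ, ∀ j, |x j - v j - ∑ i, c i * B i j| ≤ r

open Classical in
/-- Greedy decomposition, one level: disjoint parts of mass at least `θ` contained in sets of the
class `𝒩`, such that the rest has small mass in every set of the class. -/
def GRD0Stmt : Prop :=
  ∀ (X : Type) [Fintype X] (μ : X → ℝ) (𝒩 : (X → Prop) → Prop) (θ : ℝ), (∀ x, 0 ≤ μ x) →
    0 < θ → ∀ S : X → Prop, ∃ (N : ℕ) (c : X → ℕ), (∀ x, c x ≤ N) ∧ (∀ x, c x ≠ 0 → S x) ∧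
      N * θ ≤ (∑ x, if S x then μ x else 0) ∧
      (∀ i, 0 < i → i ≤ N → ∃ A, 𝒩 A ∧ (∀ x, c x = i → A x) ∧
        θ ≤ ∑ x, if c x = i then μ x else 0) ∧
      ∀ A, 𝒩 A → (∑ x, if S x ∧ c x = 0 ∧ A x then μ x else 0) < θ

open Classical in
/-- Greedy labels for affine subspaces of dimensions `0, ..., k0`, for the law of `D` given `b`. -/
def GRDStmt : Prop :=
  ∀ (m k0 : ℕ) (Ω β : Type) [Fintype Ω] (p : Ω → ℝ) (D : Ω → Fin m → ℝ) (b : Ω → β) (r : ℝ)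
    (θ : ℕ → ℝ), IsLaw p → (∀ j, 0 < θ j) →
    ∃ (z : Ω → Option (ℕ × ℕ)) (v : β → ℕ × ℕ → Fin m → ℝ)
      (B : β → (y : ℕ × ℕ) → Fin y.1 → Fin m → ℝ),
      (∀ ω ω', b ω = b ω' → D ω = D ω' → z ω = z ω') ∧
      CH p z b ≤ Real.log (1 + ∑ j ∈ Finset.range (k0 + 1), 1 / θ j) ∧
      (∀ ω y, z ω = some y → y.1 ≤ k0 ∧ Near y.1 r (v (b ω) y) (B (b ω) y) (D ω)) ∧
      (∀ ω y, 0 < p ω → z ω = some y → ∀ j' < y.1, ∀ (v' : Fin m → ℝ) (B' : Fin j' → Fin m → ℝ),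
        (∑ ω', if Near j' r v' B' (D ω') then
          cond p (fun ω => (b ω, z ω)) (b ω, z ω) ω' else 0) ≤ θ j' / θ y.1) ∧
      (∀ ω, 0 < p ω → ∀ j' ≤ k0, ∀ (v' : Fin m → ℝ) (B' : Fin j' → Fin m → ℝ),
        (∑ ω', if Near j' r v' B' (D ω') ∧ z ω' = none then cond p b (b ω) ω' else 0) ≤ θ j')

/-- Information inside an event which is determined by `V` and `W`. -/
def RES2Stmt : Prop :=
  ∀ (Ω S T U κ : Type) [Fintype Ω] (p : Ω → ℝ) (V : Ω → S) (W : Ω → T) (Y : Ω → U) (A : Ω → κ)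
    (a : κ), IsLaw p → Det p (fun ω => (V ω, W ω)) A →
    law p A a * (CH (cond p A a) V W - CH (cond p A a) V (fun ω => (W ω, Y ω))) ≤
      CH p V W - CH p V (fun ω => (W ω, Y ω))

open Classical in
/-- Exclusion: saturation inside an event `A = true` determined by the label and the direction
digits, where the directions are nonconcentrated. -/
def EXCStmt : Prop :=
  ∀ m n k : ℕ, k + 1 < n → ∃ C : ℝ, 0 ≤ C ∧ ∀ (J : ℕ) (F : Fam m J) (β : Type) (b : F.Ω → β)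
    (w K a : ℕ) (e ρ I pr : ℝ) (A : F.Ω → Bool) (hA : IsLaw (cond F.p A true)), w + K ≤ J →
    a + 2 ≤ K → F.Tm e →
    (∀ ω ω', 0 < F.p ω → 0 < F.p ω' → slam F w ω = slam F w ω' → b ω = b ω') →
    Det F.p (fun ω => (F.D K ω, b ω)) A → 0 < pr → pr ≤ law F.p A true →
    CH F.p (F.D K) b - CH F.p (F.D K) (fun ω => (b ω, F.T1 (w + K) ω, F.X (w + K) ω)) ≤ I →
    0 < ρ → (n : ℝ) ^ (k + 1) * ρ ^ (n - (k + 1)) < 1 →
    (∀ ω, 0 < F.p ω → A ω = true → ∀ (v : Fin m → ℝ) (B : Fin k → Fin m → ℝ),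
      (∑ ω', if Near k (4 * 2 ^ a / 2 ^ K) v B (F.d ω')
        then cond (cond F.p A true) b (b ω) ω' else 0) ≤ ρ) →
    (k + 2) * (a * Real.log 2) * (1 - (n * (I / pr) + Real.log 2) /
      Real.log (1 / ((n : ℝ) ^ (k + 1) * ρ ^ (n - (k + 1))))) - a * Real.log 2 -
      n * ((e + Real.log 2) / pr + I / pr) - C ≤
      CH (F.res A true hA).p (F.X (w + K)) (fun ω => (F.T1 (w + K) ω, F.X (w + K - a) ω, b ω))

/-- The label of the flat: coordinates, transversal to the directions of the context, of the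
position at the beginning of the window. -/
noncomputable def qlab {m J : ℕ} (F : Fam m J) {β : Type} (b : F.Ω → β) (w h : ℕ) {k' : ℕ}
    (Q : β → Fin k' → Fin m → ℝ) (ω : F.Ω) (i : Fin k') : ℤ :=
  ⌊2 ^ (w + h) * ∑ j, Q (b ω) i j * F.x1 w ω j⌋

open Classical in
/-- Saturation along a plane: `Q` are equations of the plane of directions of the context. -/
def QUOStmt : Prop :=
  ∀ m n k k' : ℕ, k + 1 < n → ∃ C : ℝ, 0 ≤ C ∧ ∀ (J : ℕ) (F : Fam m J) (β : Type) (b : F.Ω → β)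
    (w K a h : ℕ) (e ρ : ℝ) (Q : β → Fin k' → Fin m → ℝ) (q : β → Fin k' → ℝ), w + K ≤ J →
    a + 2 ≤ K → h ≤ K → F.Tm e →
    (∀ ω ω', 0 < F.p ω → 0 < F.p ω' → slam F w ω = slam F w ω' → b ω = b ω') →
    (∀ β' i j, |Q β' i j| ≤ 1) →
    (∀ ω, 0 < F.p ω → ∀ i, |∑ j, Q (b ω) i j * F.d ω j - q (b ω) i| ≤ 1 / 2 ^ h) →
    0 < ρ → (n : ℝ) ^ (k + 1) * ρ ^ (n - (k + 1)) < 1 →
    (∀ ω, 0 < F.p ω → ∀ (v : Fin m → ℝ) (B : Fin k → Fin m → ℝ),
      (∑ ω', if Near k (4 * 2 ^ a / 2 ^ K) v B (F.d ω') then cond F.p b (b ω) ω' else 0) ≤ ρ) →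
    CH F.p (qlab F b w h Q) (fun ω => (b ω, F.T1 (w + K) ω, F.X (w + h) ω)) ≤ C ∧
    (k + 2) * (a * Real.log 2) * (1 - (n * (CH F.p (F.D K) b -
      CH F.p (F.D K) (fun ω => (b ω, F.T1 (w + K) ω, F.X (w + K) ω)) + C) + Real.log 2) /
      Real.log (1 / ((n : ℝ) ^ (k + 1) * ρ ^ (n - (k + 1))))) - a * Real.log 2 -
      n * (e + (CH F.p (F.D K) b -
        CH F.p (F.D K) (fun ω => (b ω, F.T1 (w + K) ω, F.X (w + K) ω)))) - C ≤
      CH F.p (F.X (w + K))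
        (fun ω => (F.T1 (w + K) ω, F.X (w + K - a) ω, (b ω, qlab F b w h Q ω)))

end Pool.KSAT
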