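import Pool.Agent.H7.KSAT.Count

/-!
# Saturation: the entropy of the end point given its coarse position
-/

set_option autoImplicit false

namespace Pool.KSAT

open Finset Real
open Pool.Agent.H49.Ent Pool.Agent.H32.Dense Pool.STK

lemma Ex_lin {W : Type} [Fintype W] {q : W → ℝ} (hq : IsLaw q) (A B C : ℝ) (f g : W → ℝ) :
    Ex q (fun w => A + B * f w + C * g w) = A + B * Ex q f + C * Ex q g := by
  rw [Ex_add q (fun w => A + B * f w) (fun w => C * g w), Ex_add q (fun _ => A),
    Ex_const hq.sum_one, Ex_smul, Ex_smul]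

lemma card_off {n k N : ℕ} (hN : 0 < N) {I : Fin k → Fin n} (hI : Function.Injective I) :
    Real.log ((Fintype.piFinset fun i : Fin n => (open Classical in
      if i ∈ Set.range I then ({⟨0, hN⟩} : Finset (Fin N)) else Finset.univ)).card : ℝ) =
      n * Real.log N - k * Real.log N := by
  classical
  rw [Fintype.card_piFinset]
  push_cast
  have hN' : (N : ℝ) ≠ 0 := by positivity
  rw [Real.log_prod (fun i _ => by
    split_ifs
    · simp
    · simpa using hN.ne')]
  have h1 := sum_split hI (fun _ => Real.log N)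
  have h2 : ∀ i : Fin n, Real.log (((if i ∈ Set.range I then ({⟨0, hN⟩} : Finset (Fin N))
      else Finset.univ).card : ℕ) : ℝ) = if i ∈ Set.range I then 0 else Real.log N := by
    intro i
    split_ifs
    · simp
    · simp
  simp only [h2]
  rw [Finset.sum_const, Finset.sum_const, Finset.card_univ, Finset.card_univ, Fintype.card_fin,
    Fintype.card_fin, nsmul_eq_mul, nsmul_eq_mul] at h1
  linarith

theorem cnt_thm (hRk : RkStmt) (hLin : LinStmt) (hFib : FibStmt) (hImg : ImgStmt) :
    CntStmt := by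
  classical
  intro m n
  set C1 : ℝ := m * Real.log (2 * (4 * n + 3 * m) + 1) with hC1
  set CA : ℝ := Real.log ((2 * ((m * (1 + 8 * n) + 8 * n + 1 : ℕ) : ℝ) + 1) ^ m) with hCA
  set CB : ℝ := Real.log ((2 * (1 + (m : ℝ) * (4 * n + 2))) ^ m) with hCB
  have hC1' : 0 ≤ C1 := by
    refine mul_nonneg (by positivity) (Real.log_nonneg ?_)
    have : (0 : ℝ) ≤ 2 * (4 * n + 3 * m) := by positivity
    linarith
  have hCA' : 0 ≤ CA := by
    refine Real.log_nonneg (one_le_pow₀ ?_)
    have : (0 : ℝ) ≤ 2 * ((m * (1 + 8 * n) + 8 * n + 1 : ℕ) : ℝ) := by positivity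
    linarith
  have hCB' : 0 ≤ CB := by
    refine Real.log_nonneg (one_le_pow₀ ?_)
    have : (0 : ℝ) ≤ (m : ℝ) * (4 * n + 2) := by positivity
    linarith
  refine ⟨C1 + CA + CB, by positivity, ?_⟩
  intro W β _ q Δ K a js j0 x0 x1 b0 δ hq haK hΔ hend hent
  have h0 := hq.nonneg
  have hN : 0 < 2 ^ K := by positivity
  have hlogN : Real.log ((2 ^ K : ℕ) : ℝ) = K * Real.log 2 := by
    push_cast
    rw [Real.log_pow]
  have ha0 : (0 : ℝ) < 2 ^ a := by positivity
  have hR := fun Dv : Fin n → Fin m → ℤ => hRk n m (2 ^ a) (rv Dv) (by positivity)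
  choose II KK hmax using fun Dv : Fin n → Fin m → ℤ => (hR Dv).2.2
  have hL := fun Dv : Fin n → Fin m → ℤ => hLin n m _ (2 ^ a) (rv Dv) (II Dv) (KK Dv)
    (by positivity) (hmax Dv)
  -- the variables
  set off : (Fin n → Fin m → ℤ) → (Fin n → Fin (2 ^ K)) → (Fin n → Fin (2 ^ K)) :=
    fun Dv j i => if i ∈ Set.range (II Dv) then ⟨0, hN⟩ else j i with hoff
  set U : W → (Fin n → Fin m → ℤ) × β × Fin (2 ^ K) × (Fin m → ℤ) :=
    fun w => (Δ w, b0 w, j0 w, x0 w) with hU
  set O : W → (Fin n → Fin (2 ^ K)) := fun w => off (Δ w) (js w) with hO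
  set xa : W → (Fin m → ℤ) := fun w i => x1 w i / 2 ^ a with hxa
  set kk : W → ℝ := fun w => (rk (2 ^ a) (rv (Δ w)) : ℝ) with hkk
  set dd : W → ℝ := fun w => Real.log |(mn (rv (Δ w)) (II (Δ w)) (KK (Δ w))).det| with hdd
  -- first estimate
  have s1 := CH_le_add h0 js O U
  have s1' : CH q O U ≤ Ex q (fun w => n * (K * Real.log 2) + (-(K * Real.log 2)) * kk w +
      0 * dd w) := by
    refine (CH_le_card h0 hq.sum_one O U (fun u => Fintype.piFinset fun i : Fin n =>
      if i ∈ Set.range (II u.1) then ({⟨0, hN⟩} : Finset (Fin (2 ^ K))) else Finset.univ)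
      ?_).trans ?_
    · intro w _
      rw [Fintype.mem_piFinset]
      intro i
      simp only [hO, hoff]
      split_ifs <;> simp
    · refine Ex_mono h0 fun w _ => ?_
      have e := card_off (n := n) hN (hL (Δ w)).2.1
      rw [hlogN] at e
      have e' : Real.log ((Fintype.piFinset fun i : Fin n =>
          if i ∈ Set.range (II (U w).1) then ({⟨0, hN⟩} : Finset (Fin (2 ^ K)))
          else Finset.univ).card : ℝ) = n * (K * Real.log 2) -
          (rk (2 ^ a) (rv (Δ w)) : ℝ) * (K * Real.log 2) := e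
      rw [e']
      simp only [hkk]
      linarith
  rw [Ex_lin hq] at s1'
  -- second estimate
  have s2 := CH_le_add h0 js x1 (fun w => (O w, U w))
  have s2' : CH q js (fun w => (x1 w, (O w, U w))) ≤
      Ex q (fun w => C1 + (K * Real.log 2) * kk w + (-1) * dd w) := by
    refine (CH_le_card h0 hq.sum_one js (fun w => (x1 w, (O w, U w)))
      (fun v => (Finset.univ.filter (fun w => 0 < q w ∧ (x1 w, (O w, U w)) = v)).image js)
      ?_).trans ?_
    · intro w hw
      exact Finset.mem_image_of_mem _ (Finset.mem_filter.mpr ⟨Finset.mem_univ _, hw, rfl⟩)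
    · refine Ex_mono h0 fun w hw => ?_
      set S := (Finset.univ.filter
        (fun w' => 0 < q w' ∧ (x1 w', (O w', U w')) = (x1 w, (O w, U w)))).image js with hS
      have hSpos : (0 : ℝ) < S.card := by
        have : js w ∈ S :=
          Finset.mem_image_of_mem _ (Finset.mem_filter.mpr ⟨Finset.mem_univ _, hw, rfl⟩)
        exact_mod_cast Finset.card_pos.mpr ⟨_, this⟩
      obtain ⟨l1, l2, l3, l4, l5, l6⟩ := hL (Δ w)
      have hmem : ∀ j ∈ S, ∃ w', 0 < q w' ∧ x1 w' = x1 w ∧ O w' = O w ∧ Δ w' = Δ w ∧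
          j0 w' = j0 w ∧ x0 w' = x0 w ∧ js w' = j := by
        intro j hj
        obtain ⟨w', hw', rfl⟩ := Finset.mem_image.mp hj
        obtain ⟨_, hq', he⟩ := Finset.mem_filter.mp hw'
        simp only [hU, Prod.mk.injEq] at he
        exact ⟨w', hq', he.1, he.2.1, he.2.2.1, he.2.2.2.2.1, he.2.2.2.2.2, rfl⟩
      have key := fib_count (K := K) hFib l2 l1 (hΔ w) S (((j0 w : ℕ) : ℝ))
        (fun i => 2 ^ K * ((x1 w i : ℝ) - x0 w i)) (by
          intro j hj i
          obtain ⟨w', hq', e1, e2, e3, e4, e5, e6⟩ := hmem j hj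
          have := hend w' hq' i
          rw [e1, e3, e4, e5, e6] at this
          exact this) (by
          intro j hj j' hj' i hi
          obtain ⟨w', hq', e1, e2, e3, e4, e5, e6⟩ := hmem j hj
          obtain ⟨v', hqv, f1, f2, f3, f4, f5, f6⟩ := hmem j' hj'
          have g1 := congrFun (e2.trans f2.symm) i
          have hi1 : i ∉ Set.range (II (Δ w')) := by rw [e3]; exact hi
          have hi2 : i ∉ Set.range (II (Δ v')) := by rw [f3]; exact hi
          simp only [hO, hoff, if_neg hi1, if_neg hi2] at g1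
          rw [← e6, ← f6]
          exact g1)
      have hd : 0 < |(mn (rv (Δ w)) (II (Δ w)) (KK (Δ w))).det| := abs_pos.mpr l1
      have hkm : rk (2 ^ a) (rv (Δ w)) ≤ m := (hR (Δ w)).2.1
      have b1 : (2 * (4 * (n : ℝ) + 3 * (rk (2 ^ a) (rv (Δ w)) : ℝ))) ^ (rk (2 ^ a) (rv (Δ w))) ≤
          (2 * (4 * n + 3 * m) + 1) ^ m := by
        have hkm' : ((rk (2 ^ a) (rv (Δ w)) : ℕ) : ℝ) ≤ m := by exact_mod_cast hkm
        have g1 : (1 : ℝ) ≤ 2 * (4 * n + 3 * m) + 1 := by
          have : (0 : ℝ) ≤ 2 * (4 * n + 3 * m) := by positivity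
          linarith
        calc (2 * (4 * (n : ℝ) + 3 * (rk (2 ^ a) (rv (Δ w)) : ℝ))) ^ (rk (2 ^ a) (rv (Δ w)))
            ≤ (2 * (4 * n + 3 * m) + 1) ^ (rk (2 ^ a) (rv (Δ w))) :=
              pow_le_pow_left₀ (by positivity) (by linarith) _
          _ ≤ _ := pow_le_pow_right₀ g1 hkm
      have key2 : (S.card : ℝ) * |(mn (rv (Δ w)) (II (Δ w)) (KK (Δ w))).det| ≤
          (2 ^ K) ^ (rk (2 ^ a) (rv (Δ w))) * (2 * (4 * n + 3 * m) + 1) ^ m :=
        key.trans (mul_le_mul_of_nonneg_left b1 (by positivity))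
      have g2 : (0 : ℝ) < 2 * (4 * n + 3 * m) + 1 := by positivity
      have key3 := Real.log_le_log (by positivity) key2
      rw [Real.log_mul hSpos.ne' hd.ne', Real.log_mul (by positivity) (by positivity),
        Real.log_pow, Real.log_pow, Real.log_pow] at key3
      have goal : Real.log S.card ≤ C1 + (K * Real.log 2) * kk w + (-1) * dd w := by
        simp only [hkk, hdd, hC1]
        linarith
      exact goal
  rw [Ex_lin hq] at s2'
  -- third estimate
  have s3 := CH_le_add h0 x1 xa (fun w => (O w, U w))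
  have s3' : CH q xa (fun w => (O w, U w)) ≤
      Ex q (fun w => (CA + CB) + (-(a * Real.log 2)) * kk w + 1 * dd w) := by
    refine (CH_le_card h0 hq.sum_one xa (fun w => (O w, U w))
      (fun v => (Finset.univ.filter (fun w => 0 < q w ∧ (O w, U w) = v)).image xa)
      ?_).trans ?_
    · intro w hw
      exact Finset.mem_image_of_mem _ (Finset.mem_filter.mpr ⟨Finset.mem_univ _, hw, rfl⟩)
    · refine Ex_mono h0 fun w hw => ?_
      set S := (Finset.univ.filter
        (fun w' => 0 < q w' ∧ (O w', U w') = (O w, U w))).image xa with hS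
      have hSpos : (0 : ℝ) < S.card := by
        have : xa w ∈ S :=
          Finset.mem_image_of_mem _ (Finset.mem_filter.mpr ⟨Finset.mem_univ _, hw, rfl⟩)
        exact_mod_cast Finset.card_pos.mpr ⟨_, this⟩
      obtain ⟨l1, l2, l3, l4, l5, l6⟩ := hL (Δ w)
      have key := img_count (K := K) (a := a) hImg l2 l1 l4 (hR (Δ w)).2.1 l5 S (x0 w) (j0 w)
        (js w) (by
          intro z hz
          obtain ⟨w', hw', rfl⟩ := Finset.mem_image.mp hz
          obtain ⟨_, hq', he⟩ := Finset.mem_filter.mp hw'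
          simp only [hU, Prod.mk.injEq] at he
          obtain ⟨e1, e2, e3, e4, e5⟩ := he
          refine ⟨js w', x1 w', rfl, ?_, ?_⟩
          · intro i hi
            have g1 := congrFun e1 i
            have hi1 : i ∉ Set.range (II (Δ w')) := by rw [e2]; exact hi
            simp only [hO, hoff, if_neg hi, if_neg hi1] at g1
            exact g1
          · intro i
            have := hend w' hq' i
            rw [e2, e4, e5] at this
            exact this)
      have hd : 0 < |(mn (rv (Δ w)) (II (Δ w)) (KK (Δ w))).det| := abs_pos.mpr l1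
      have key3 := Real.log_le_log (by positivity) key
      rw [Real.log_mul hSpos.ne' (by positivity), Real.log_mul (by positivity) (by positivity),
        Real.log_mul (by positivity) hd.ne', Real.log_pow (n := rk (2 ^ a) (rv (Δ w))),
        Real.log_pow (n := a)] at key3
      have goal : Real.log S.card ≤ (CA + CB) + (-(a * Real.log 2)) * kk w + 1 * dd w := by
        simp only [hkk, hdd, hCA, hCB]
        linarith
      exact goal
  rw [Ex_lin hq] at s3'
  -- conclusion
  have s4 : CH q x1 (fun w => (xa w, (O w, U w))) ≤ CH q x1 (fun w => (xa w, b0 w, j0 w)) := by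
    refine CH_mono_cond h0 ?_
    intro w w' _ _ h
    simp only [hU, Prod.mk.injEq] at h ⊢
    tauto
  have hU' : n * (K * Real.log 2) - δ ≤ CH q js U := hent
  have goal : a * Real.log 2 * Ex q kk - δ - (C1 + CA + CB) ≤
      CH q x1 (fun w => (xa w, b0 w, j0 w)) := by
    linarith
  exact goal

end Pool.KSAT
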