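import Pool.Agent.H7.KSAT.Count2
import Pool.Agent.H7.KSAT.CNT

/-!
# Saturation: the entropy of the end point of a walk given its coarse position
-/

set_option autoImplicit false

namespace Pool.KSAT

open Finset Real
open Pool.Agent.H49.Ent Pool.Agent.H32.Dense Pool.STK

/-- The entropy of the end point given its coarse position, from the entropy of the increments
of time. -/
def Cnt2Stmt : Prop :=
  ∀ m n : ℕ, ∃ C : ℝ, 0 ≤ C ∧ ∀ (W β : Type) [Fintype W] (q : W → ℝ)
    (Δ : W → Fin n → Fin m → ℤ) (K a : ℕ) (js : W → Fin n → ℤ)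
    (x0 x1 : W → Fin m → ℤ) (b0 : W → β) (δ : ℝ),
    IsLaw q → (∀ w i j, |(Δ w i j : ℝ)| ≤ 3 * 2 ^ K) →
    (∀ w, 0 < q w → ∀ i, |(js w i : ℝ)| ≤ 2 ^ K) →
    (∀ w, 0 < q w → ∀ j, |2 ^ K * ((x1 w j : ℝ) - x0 w j) -
      ∑ i, (js w i : ℝ) * Δ w i j| ≤ 4 * n * 2 ^ K) →
    n * (K * Real.log 2) - δ ≤ CH q js (fun w => (Δ w, b0 w, x0 w)) →
    a * Real.log 2 * Ex q (fun w => (rk (2 ^ a) (fun i j => (Δ w i j : ℝ)) : ℝ)) - δ - C ≤
      CH q x1 (fun w => ((fun j => x1 w j / 2 ^ a), b0 w))

lemma card_off2 {n k K : ℕ} {I : Fin k → Fin n} (hI : Function.Injective I) (hk : k ≤ n) :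
    Real.log ((Fintype.piFinset fun i : Fin n => (open Classical in
      if i ∈ Set.range I then ({0} : Finset ℤ) else Finset.Icc (-2 ^ K) (2 ^ K))).card : ℝ) ≤
      n * (K * Real.log 2) - k * (K * Real.log 2) + n * Real.log 3 := by
  classical
  rw [Fintype.card_piFinset]
  push_cast
  have hc : ∀ i : Fin n, (((if i ∈ Set.range I then ({0} : Finset ℤ)
      else Finset.Icc (-2 ^ K) (2 ^ K)).card : ℕ) : ℝ) ≤
      if i ∈ Set.range I then 1 else 3 * 2 ^ K := by
    intro i
    split_ifs
    · simp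
    · rw [Int.card_Icc]
      have : (2 : ℤ) ^ K + 1 - -2 ^ K = ((2 * 2 ^ K + 1 : ℕ) : ℤ) := by push_cast; ring
      rw [this, Int.toNat_natCast]
      push_cast
      have : (1 : ℝ) ≤ 2 ^ K := one_le_pow₀ (by norm_num)
      linarith
  have h0 : ∀ i : Fin n, 0 < (((if i ∈ Set.range I then ({0} : Finset ℤ)
      else Finset.Icc (-2 ^ K) (2 ^ K)).card : ℕ) : ℝ) := by
    intro i
    split_ifs
    · simp
    · have : (Finset.Icc (-2 ^ K : ℤ) (2 ^ K)).Nonempty := by
        rw [Finset.nonempty_Icc]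
        have : (0 : ℤ) < 2 ^ K := by positivity
        linarith
      exact_mod_cast Finset.card_pos.mpr this
  rw [Real.log_prod (fun i _ => (h0 i).ne')]
  have h1 := sum_split hI (fun _ => Real.log 3 + K * Real.log 2)
  have h2 : ∀ i : Fin n, Real.log (((if i ∈ Set.range I then ({0} : Finset ℤ)
      else Finset.Icc (-2 ^ K) (2 ^ K)).card : ℕ) : ℝ) ≤
      if i ∈ Set.range I then 0 else Real.log 3 + K * Real.log 2 := by
    intro i
    refine (Real.log_le_log (h0 i) (hc i)).trans (le_of_eq ?_)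
    split_ifs
    · simp
    · rw [Real.log_mul (by norm_num) (by positivity), Real.log_pow]
  refine (Finset.sum_le_sum fun i _ => h2 i).trans ?_
  rw [Finset.sum_const, Finset.sum_const, Finset.card_univ, Finset.card_univ, Fintype.card_fin,
    Fintype.card_fin, nsmul_eq_mul, nsmul_eq_mul] at h1
  have h3 : (0 : ℝ) ≤ Real.log 3 := Real.log_nonneg (by norm_num)
  have h4 : (0 : ℝ) ≤ k * Real.log 3 := by positivity
  linarith

theorem cnt2_thm (hRk : RkStmt) (hLin : LinStmt) (hFib : FibStmt) (hImg : ImgStmt) :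
    Cnt2Stmt := by
  classical
  intro m n
  set C0 : ℝ := n * Real.log 3 with hC0
  set C1 : ℝ := m * Real.log (2 * (4 * n + 3 * m) + 1) with hC1
  set CA : ℝ := Real.log ((2 * ((m * (1 + 8 * n) + 8 * n + 1 : ℕ) : ℝ) + 1) ^ m) with hCA
  set CB : ℝ := Real.log ((2 * (1 + (m : ℝ) * (4 * n + 2))) ^ m) with hCB
  have hC0' : 0 ≤ C0 := mul_nonneg (by positivity) (Real.log_nonneg (by norm_num))
  have hC1' : 0 ≤ C1 := by
    refine mul_nonneg (by positivity) (Real.log_nonneg ?_)
    have : (0 : ℝ) ≤ 2 * (4 * n + 3 * m) := by positivity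
    linarith
  have hCA' : 0 ≤ CA := by
    refine Real.log_nonneg (one_le_pow₀ ?_)
    have : (0 : ℝ) ≤ 2 * ((m * (1 + 8 * n) + 8 * n + 1 : ℕ) : ℝ) := by positivity
    linarith
  have hCB' : 0 ≤ CB := by
    refine Real.log_nonneg (one_le_pow₀ ?_)
    have : (0 : ℝ) ≤ (m : ℝ) * (4 * n + 2) := by positivity
    linarith
  refine ⟨C0 + C1 + CA + CB, by positivity, ?_⟩
  intro W β _ q Δ K a js x0 x1 b0 δ hq hΔ hjs hend hent
  have h0 := hq.nonneg
  have hN : 0 < 2 ^ K := by positivity
  have ha0 : (0 : ℝ) < 2 ^ a := by positivity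
  have hR := fun Dv : Fin n → Fin m → ℤ => hRk n m (2 ^ a) (rv Dv) (by positivity)
  choose II KK hmax using fun Dv : Fin n → Fin m → ℤ => (hR Dv).2.2
  have hL := fun Dv : Fin n → Fin m → ℤ => hLin n m _ (2 ^ a) (rv Dv) (II Dv) (KK Dv)
    (by positivity) (hmax Dv)
  -- the variables
  set off : (Fin n → Fin m → ℤ) → (Fin n → ℤ) → (Fin n → ℤ) :=
    fun Dv j i => if i ∈ Set.range (II Dv) then 0 else j i with hoff
  set U : W → (Fin n → Fin m → ℤ) × β × (Fin m → ℤ) :=
    fun w => (Δ w, b0 w, x0 w) with hU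
  set O : W → (Fin n → ℤ) := fun w => off (Δ w) (js w) with hO
  set xa : W → (Fin m → ℤ) := fun w i => x1 w i / 2 ^ a with hxa
  set kk : W → ℝ := fun w => (rk (2 ^ a) (rv (Δ w)) : ℝ) with hkk
  set dd : W → ℝ := fun w => Real.log |(mn (rv (Δ w)) (II (Δ w)) (KK (Δ w))).det| with hdd
  -- first estimate
  have s1 := CH_le_add h0 js O U
  have s1' : CH q O U ≤ Ex q (fun w => (n * (K * Real.log 2) + C0) +
      (-(K * Real.log 2)) * kk w + 0 * dd w) := by
    refine (CH_le_card h0 hq.sum_one O U (fun u => Fintype.piFinset fun i : Fin n =>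
      if i ∈ Set.range (II u.1) then ({0} : Finset ℤ) else Finset.Icc (-2 ^ K) (2 ^ K))
      ?_).trans ?_
    · intro w hw
      rw [Fintype.mem_piFinset]
      intro i
      simp only [hO, hoff]
      split_ifs with h
      · simp
      · have := hjs w hw i
        rw [abs_le] at this
        rw [Finset.mem_Icc]
        constructor
        · exact_mod_cast this.1
        · exact_mod_cast this.2
    · refine Ex_mono h0 fun w _ => ?_
      have e := card_off2 (n := n) (K := K) (hL (Δ w)).2.1 (hR (Δ w)).1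
      have e' : Real.log ((Fintype.piFinset fun i : Fin n =>
          if i ∈ Set.range (II (U w).1) then ({0} : Finset ℤ)
          else Finset.Icc (-2 ^ K) (2 ^ K)).card : ℝ) ≤ n * (K * Real.log 2) -
          (rk (2 ^ a) (rv (Δ w)) : ℝ) * (K * Real.log 2) + n * Real.log 3 := e
      refine e'.trans ?_
      simp only [hkk, hC0]
      linarith
  rw [Ex_lin hq] at s1'
  -- second estimate
  have s2 := CH_le_add h0 js x1 (fun w => (O w, U w))
  have s2' : CH q js (fun w => (x1 w, (O w, U w))) ≤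
      Ex q (fun w => C1 + (K * Real.log 2) * kk w + (-1) * dd w) := by
    refine (CH_le_card h0 hq.sum_one js (fun w => (x1 w, (O w, U w)))
      (fun v => (Finset.univ.filter (fun w => 0 < q w ∧ (x1 w, (O w, U w)) = v)).image js)
      ?_).trans ?_
    · intro w hw
      exact Finset.mem_image_of_mem _ (Finset.mem_filter.mpr ⟨Finset.mem_univ _, hw, rfl⟩)
    · refine Ex_mono h0 fun w hw => ?_
      set S := (Finset.univ.filter
        (fun w' => 0 < q w' ∧ (x1 w', (O w', U w')) = (x1 w, (O w, U w)))).image js with hS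
      have hSpos : (0 : ℝ) < S.card := by
        have : js w ∈ S :=
          Finset.mem_image_of_mem _ (Finset.mem_filter.mpr ⟨Finset.mem_univ _, hw, rfl⟩)
        exact_mod_cast Finset.card_pos.mpr ⟨_, this⟩
      obtain ⟨l1, l2, l3, l4, l5, l6⟩ := hL (Δ w)
      have hmem : ∀ j ∈ S, ∃ w', 0 < q w' ∧ x1 w' = x1 w ∧ O w' = O w ∧ Δ w' = Δ w ∧
          x0 w' = x0 w ∧ js w' = j := by
        intro j hj
        obtain ⟨w', hw', rfl⟩ := Finset.mem_image.mp hj
        obtain ⟨_, hq', he⟩ := Finset.mem_filter.mp hw'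
        simp only [hU, Prod.mk.injEq] at he
        exact ⟨w', hq', he.1, he.2.1, he.2.2.1, he.2.2.2.2, rfl⟩
      have key := fib_count2 (K := K) hFib l2 l1 (hΔ w) S
        (fun i => 2 ^ K * ((x1 w i : ℝ) - x0 w i)) (by
          intro j hj i
          obtain ⟨w', hq', e1, e2, e3, e5, e6⟩ := hmem j hj
          have := hend w' hq' i
          rw [e1, e3, e5, e6] at this
          exact this) (by
          intro j hj j' hj' i hi
          obtain ⟨w', hq', e1, e2, e3, e5, e6⟩ := hmem j hj
          obtain ⟨v', hqv, f1, f2, f3, f5, f6⟩ := hmem j' hj'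
          have g1 := congrFun (e2.trans f2.symm) i
          have hi1 : i ∉ Set.range (II (Δ w')) := by rw [e3]; exact hi
          have hi2 : i ∉ Set.range (II (Δ v')) := by rw [f3]; exact hi
          simp only [hO, hoff, if_neg hi1, if_neg hi2] at g1
          rw [← e6, ← f6]
          exact g1)
      have hd : 0 < |(mn (rv (Δ w)) (II (Δ w)) (KK (Δ w))).det| := abs_pos.mpr l1
      have hkm : rk (2 ^ a) (rv (Δ w)) ≤ m := (hR (Δ w)).2.1
      have b1 : (2 * (4 * (n : ℝ) + 3 * (rk (2 ^ a) (rv (Δ w)) : ℝ))) ^ (rk (2 ^ a) (rv (Δ w))) ≤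
          (2 * (4 * n + 3 * m) + 1) ^ m := by
        have hkm' : ((rk (2 ^ a) (rv (Δ w)) : ℕ) : ℝ) ≤ m := by exact_mod_cast hkm
        have g1 : (1 : ℝ) ≤ 2 * (4 * n + 3 * m) + 1 := by
          have : (0 : ℝ) ≤ 2 * (4 * n + 3 * m) := by positivity
          linarith
        calc (2 * (4 * (n : ℝ) + 3 * (rk (2 ^ a) (rv (Δ w)) : ℝ))) ^ (rk (2 ^ a) (rv (Δ w)))
            ≤ (2 * (4 * n + 3 * m) + 1) ^ (rk (2 ^ a) (rv (Δ w))) :=
              pow_le_pow_left₀ (by positivity) (by linarith) _
          _ ≤ _ := pow_le_pow_right₀ g1 hkm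
      have key2 : (S.card : ℝ) * |(mn (rv (Δ w)) (II (Δ w)) (KK (Δ w))).det| ≤
          (2 ^ K) ^ (rk (2 ^ a) (rv (Δ w))) * (2 * (4 * n + 3 * m) + 1) ^ m :=
        key.trans (mul_le_mul_of_nonneg_left b1 (by positivity))
      have g2 : (0 : ℝ) < 2 * (4 * n + 3 * m) + 1 := by positivity
      have key3 := Real.log_le_log (by positivity) key2
      rw [Real.log_mul hSpos.ne' hd.ne', Real.log_mul (by positivity) (by positivity),
        Real.log_pow, Real.log_pow, Real.log_pow] at key3
      have goal : Real.log S.card ≤ C1 + (K * Real.log 2) * kk w + (-1) * dd w := by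
        simp only [hkk, hdd, hC1]
        linarith
      exact goal
  rw [Ex_lin hq] at s2'
  -- third estimate
  have s3 := CH_le_add h0 x1 xa (fun w => (O w, U w))
  have s3' : CH q xa (fun w => (O w, U w)) ≤
      Ex q (fun w => (CA + CB) + (-(a * Real.log 2)) * kk w + 1 * dd w) := by
    refine (CH_le_card h0 hq.sum_one xa (fun w => (O w, U w))
      (fun v => (Finset.univ.filter (fun w => 0 < q w ∧ (O w, U w) = v)).image xa)
      ?_).trans ?_
    · intro w hw
      exact Finset.mem_image_of_mem _ (Finset.mem_filter.mpr ⟨Finset.mem_univ _, hw, rfl⟩)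
    · refine Ex_mono h0 fun w hw => ?_
      set S := (Finset.univ.filter
        (fun w' => 0 < q w' ∧ (O w', U w') = (O w, U w))).image xa with hS
      have hSpos : (0 : ℝ) < S.card := by
        have : xa w ∈ S :=
          Finset.mem_image_of_mem _ (Finset.mem_filter.mpr ⟨Finset.mem_univ _, hw, rfl⟩)
        exact_mod_cast Finset.card_pos.mpr ⟨_, this⟩
      obtain ⟨l1, l2, l3, l4, l5, l6⟩ := hL (Δ w)
      have key := img_count2 (K := K) (a := a) hImg l2 l1 l4 (hR (Δ w)).2.1 l5 S (x0 w)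
        (js w) (by
          intro z hz
          obtain ⟨w', hw', rfl⟩ := Finset.mem_image.mp hz
          obtain ⟨_, hq', he⟩ := Finset.mem_filter.mp hw'
          simp only [hU, Prod.mk.injEq] at he
          obtain ⟨e1, e2, e3, e5⟩ := he
          refine ⟨js w', x1 w', hjs w' hq', rfl, ?_, ?_⟩
          · intro i hi
            have g1 := congrFun e1 i
            have hi1 : i ∉ Set.range (II (Δ w')) := by rw [e2]; exact hi
            simp only [hO, hoff, if_neg hi, if_neg hi1] at g1
            exact g1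
          · intro i
            have := hend w' hq' i
            rw [e2, e5] at this
            exact this)
      have hd : 0 < |(mn (rv (Δ w)) (II (Δ w)) (KK (Δ w))).det| := abs_pos.mpr l1
      have key3 := Real.log_le_log (by positivity) key
      rw [Real.log_mul hSpos.ne' (by positivity), Real.log_mul (by positivity) (by positivity),
        Real.log_mul (by positivity) hd.ne', Real.log_pow (n := rk (2 ^ a) (rv (Δ w))),
        Real.log_pow (n := a)] at key3
      have goal : Real.log S.card ≤ (CA + CB) + (-(a * Real.log 2)) * kk w + 1 * dd w := by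
        simp only [hkk, hdd, hCA, hCB]
        linarith
      exact goal
  rw [Ex_lin hq] at s3'
  -- conclusion
  have s4 : CH q x1 (fun w => (xa w, (O w, U w))) ≤ CH q x1 (fun w => (xa w, b0 w)) := by
    refine CH_mono_cond h0 ?_
    intro w w' _ _ h
    simp only [hU, Prod.mk.injEq] at h ⊢
    tauto
  have hU' : n * (K * Real.log 2) - δ ≤ CH q js U := hent
  have goal : a * Real.log 2 * Ex q kk - δ - (C0 + C1 + CA + CB) ≤
      CH q x1 (fun w => (xa w, b0 w)) := by
    linarith
  exact goal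

end Pool.KSAT
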