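import Pool.Agent.H7.KSAT.Step

/-!
# Saturation: the chain of crossing lines
-/

set_option autoImplicit false

namespace Pool.KSAT

open Finset Real
open Pool.Agent.H49.Ent Pool.Agent.H32.Dense Pool.STK

lemma law_congr {Ω : Type} [Fintype Ω] {S : Type} {p : Ω → ℝ} (hp : ∀ w, 0 ≤ p w) {X Y : Ω → S}
    (h : ∀ w, 0 < p w → X w = Y w) (z : S) : law p X z = law p Y z := by
  classical
  unfold law
  refine Finset.sum_congr rfl fun w _ => ?_
  rcases (hp w).eq_or_lt with h0 | h0
  · simp [← h0]
  · rw [h w h0]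

section Chain

variable {Ω τ β E G : Type} [Fintype Ω] [Fintype τ] [Nonempty τ] {p : Ω → ℝ} {X : τ → Ω → G}
  {D : Ω → E} {b : Ω → β} {c : ℝ}

/-- The start variable of the step. -/
def zs (X : τ → Ω → G) (b : Ω → β) (v : τ × ((Ω × τ) × (Ω × τ))) : β × τ × G :=
  (b v.2.1.1, v.1, X v.1 v.2.1.1)

/-- The end variable of the step. -/
def ze (X : τ → Ω → G) (b : Ω → β) (v : τ × ((Ω × τ) × (Ω × τ))) : β × τ × G :=
  (b v.2.2.1, v.1, X v.1 v.2.2.1)

lemma marg_swap (p : Ω → ℝ) : Marg (pr2 (un τ) p) (pt1 (τ := τ) p) (fun w => (w.2, w.1)) := by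
  refine marg_of_equiv (⟨fun w => (w.2, w.1), fun w => (w.2, w.1),
    fun w => rfl, fun w => rfl⟩ : τ × Ω ≃ Ω × τ) ?_
  rintro ⟨t, l⟩
  simp only [Equiv.coe_fn_mk, pt1, pr2]
  ring

lemma marg_l1 (hp : IsLaw p) : Marg (qs p X b) (pr2 (un τ) p) (fun v => (v.1, v.2.1.1)) :=
  marg_pr2 (un_law τ) (Marg.id _)
    ((dbl_fst (b := lab X b) (pt1_law (τ := τ) hp).nonneg).comp (pr2_fst hp (un_law τ)))

lemma marg_l2 (hp : IsLaw p) : Marg (qs p X b) (pr2 (un τ) p) (fun v => (v.1, v.2.2.1)) :=
  marg_pr2 (un_law τ) (Marg.id _)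
    ((dbl_snd (b := lab X b) (pt1_law (τ := τ) hp).nonneg).comp (pr2_fst hp (un_law τ)))

lemma law_zs (hp : IsLaw p) (z : β × τ × G) :
    law (qs p X b) (zs X b) z = law (pt1 (τ := τ) p) (lab X b) z :=
  ((marg_l1 hp).comp (marg_swap p)).law (lab X b) z

lemma law_ze (hp : IsLaw p) (z : β × τ × G) :
    law (qs p X b) (ze X b) z = law (pt1 (τ := τ) p) (lab X b) z :=
  ((marg_l2 hp).comp (marg_swap p)).law (lab X b) z

lemma qs_pos (hp : IsLaw p) {v : τ × ((Ω × τ) × (Ω × τ))} (h : 0 < qs p X b v) :
    b v.2.1.1 = b v.2.2.1 ∧ v.2.1.2 = v.2.2.2 ∧ X v.2.1.2 v.2.1.1 = X v.2.2.2 v.2.2.1 :=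
  q0_bb hp ((pr2_snd (un_law τ) (q0_law hp)).pos (qs_law hp).nonneg h)

end Chain

theorem chain_thm : ChainStmt := by
  intro Ω τ β E G _ _ _ p X D b c hp hc n
  have hst := step_thm Ω τ β E G p X D b c hp hc
  induction n with
  | zero =>
    have h1 := pt1_law (τ := τ) hp
    refine ⟨Ω × τ, inferInstance, pt1 (τ := τ) p, Fin.elim0, Fin.elim0, Fin.elim0,
      fun w => w.2, fun _ w => X w.2 w.1, fun w => b w.1, ?_, ?_, ?_⟩
    · exact ⟨h1, fun i => i.elim0, fun i => i.elim0, fun _ _ i => i.elim0, fun _ _ i => i.elim0,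
        fun _ _ i => i.elim0, fun _ _ i => i.elim0, fun _ _ i => i.elim0⟩
    · intro i z
      rfl
    · simp only [Nat.cast_zero, zero_mul]
      exact CH_nonneg h1.nonneg _ _
  | succ n ih =>
    obtain ⟨W, instW, q, L, L', s, t0, x, b0, hch, hlaw, hent⟩ := ih
    have hq0 := hch.isLaw.nonneg
    have hs := qs_law (τ := τ) (X := X) (b := b) hp
    have hZ : ∀ z, law q (fun w => (b0 w, t0 w, x (Fin.last n) w)) z =
        law (qs p X b) (zs X b) z := by
      intro z
      rw [hlaw, law_zs hp]
    set Z1 : W → β × τ × G := fun w => (b0 w, t0 w, x (Fin.last n) w) with hZ1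
    set Q := glue q (qs p X b) Z1 (zs X b) with hQ
    have hQ0 : ∀ w, 0 ≤ Q w := glue_nonneg hq0 hs.nonneg
    have m1 : Marg Q q (fun w => w.1) := marg_fst hq0 hZ
    have m2 : Marg Q (qs p X b) (fun w => w.2) := marg_snd hs.nonneg hZ
    have hQl : IsLaw Q := ⟨hQ0, by rw [m1.sum]; exact hch.isLaw.sum_one⟩
    have hpos : ∀ w, 0 < Q w → 0 < q w.1 ∧ 0 < qs p X b w.2 ∧ Z1 w.1 = zs X b w.2 :=
      fun w hw => (glue_pos_iff hq0 hs.nonneg w).mp hw
    have hz : ∀ w, 0 < Q w → b0 w.1 = b w.2.2.1.1 ∧ t0 w.1 = w.2.1 ∧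
        x (Fin.last n) w.1 = X w.2.1 w.2.2.1.1 := by
      intro w hw
      have := (hpos w hw).2.2
      simpa only [hZ1, zs, Prod.mk.injEq] using this
    refine ⟨W × (τ × ((Ω × τ) × (Ω × τ))), inferInstance, Q,
      Fin.snoc (α := fun _ => W × (τ × ((Ω × τ) × (Ω × τ))) → Ω) (fun i w => L i w.1)
        (fun w => w.2.2.1.1),
      Fin.snoc (α := fun _ => W × (τ × ((Ω × τ) × (Ω × τ))) → Ω) (fun i w => L' i w.1)
        (fun w => w.2.2.2.1),
      Fin.snoc (α := fun _ => W × (τ × ((Ω × τ) × (Ω × τ))) → τ) (fun i w => s i w.1)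
        (fun w => w.2.2.1.2),
      fun w => t0 w.1,
      Fin.snoc (α := fun _ => W × (τ × ((Ω × τ) × (Ω × τ))) → G) (fun i w => x i w.1)
        (fun w => X w.2.1 w.2.2.2.1),
      fun w => b0 w.1, ?_, ?_, ?_⟩
    · refine ⟨hQl, ?_, ?_, ?_, ?_, ?_, ?_, ?_⟩
      · intro i
        induction i using Fin.lastCases with
        | last =>
          simp only [Fin.snoc_last]
          exact m2.comp ((marg_l1 hp).comp (pr2_snd (un_law τ) hp))
        | cast i =>
          simp only [Fin.snoc_castSucc]
          exact m1.comp (hch.marg i)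
      · intro i
        induction i using Fin.lastCases with
        | last =>
          simp only [Fin.snoc_last]
          exact m2.comp ((marg_l2 hp).comp (pr2_snd (un_law τ) hp))
        | cast i =>
          simp only [Fin.snoc_castSucc]
          exact m1.comp (hch.marg' i)
      · intro w hw i
        induction i using Fin.lastCases with
        | last =>
          simp only [Fin.snoc_last]
          exact (hz w hw).1.symm
        | cast i =>
          simp only [Fin.snoc_castSucc]
          exact hch.labL w.1 (hpos w hw).1 i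
      · intro w hw i
        induction i using Fin.lastCases with
        | last =>
          simp only [Fin.snoc_last]
          rw [(hz w hw).1]
          exact (qs_pos hp (hpos w hw).2.1).1.symm
        | cast i =>
          simp only [Fin.snoc_castSucc]
          exact hch.labL' w.1 (hpos w hw).1 i
      · intro w hw i
        induction i using Fin.lastCases with
        | last =>
          simp only [Fin.snoc_last]
          have := qs_pos hp (hpos w hw).2.1
          rw [this.2.2, this.2.1]
        | cast i =>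
          simp only [Fin.snoc_castSucc]
          exact hch.cross w.1 (hpos w hw).1 i
      · intro w hw i
        induction i using Fin.lastCases with
        | last =>
          simp only [Fin.snoc_last, Fin.snoc_castSucc]
          rw [(hz w hw).2.1, (hz w hw).2.2]
        | cast i =>
          simp only [Fin.snoc_castSucc]
          exact hch.start w.1 (hpos w hw).1 i
      · intro w hw i
        induction i using Fin.lastCases with
        | last =>
          simp only [Fin.snoc_last, Fin.succ_last]
          rw [(hz w hw).2.1]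
        | cast i =>
          simp only [Fin.snoc_castSucc]
          rw [← Fin.castSucc_succ]
          simp only [Fin.snoc_castSucc]
          exact hch.stop w.1 (hpos w hw).1 i
    · intro i z
      induction i using Fin.lastCases with
      | last =>
        simp only [Fin.snoc_last]
        rw [← law_ze hp, ← m2.law (ze X b) z]
        refine law_congr hQ0 ?_ z
        intro w hw
        have h1 := hz w hw
        have h2 := qs_pos hp (hpos w hw).2.1
        simp only [ze, Prod.mk.injEq, and_true]
        exact ⟨h1.1.trans h2.1, h1.2.1⟩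
      | cast i =>
        simp only [Fin.snoc_castSucc]
        rw [← hlaw i z]
        exact m1.law (fun w => (b0 w, t0 w, x i w)) z
    · set A : W → Fin n → τ × E × E := fun w i => (s i w, D (L i w), D (L' i w)) with hA
      set a : τ × ((Ω × τ) × (Ω × τ)) → τ × E × E :=
        fun v => (v.2.1.2, D v.2.1.1, D v.2.2.1) with ha
      set B : W → β × τ × G := fun w => (b0 w, t0 w, x 0 w) with hB
      have x0 : (Fin.snoc (α := fun _ => W × (τ × ((Ω × τ) × (Ω × τ))) → G)
          (fun i w => x i w.1) (fun w => X w.2.1 w.2.2.2.1) : Fin (n + 1 + 1) →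
          W × (τ × ((Ω × τ) × (Ω × τ))) → G) 0 = fun w => x 0 w.1 := by
        rw [show (0 : Fin (n + 1 + 1)) = Fin.castSucc 0 from rfl, Fin.snoc_castSucc]
      have e1 : CH Q (fun w => (a w.2, A w.1)) (fun w => B w.1) ≤
          CH Q (fun w i => (((Fin.snoc (α := fun _ => W × (τ × ((Ω × τ) × (Ω × τ))) → τ)
            (fun i w => s i w.1) (fun w => w.2.2.1.2) : Fin (n + 1) → _) i w,
            D ((Fin.snoc (α := fun _ => W × (τ × ((Ω × τ) × (Ω × τ))) → Ω)
              (fun i w => L i w.1) (fun w => w.2.2.1.1) : Fin (n + 1) → _) i w),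
            D ((Fin.snoc (α := fun _ => W × (τ × ((Ω × τ) × (Ω × τ))) → Ω)
              (fun i w => L' i w.1) (fun w => w.2.2.2.1) : Fin (n + 1) → _) i w)) :
              τ × E × E)) (fun w => B w.1) := by
        refine CH_mono_left hQ0 ?_
        intro ω ω' _ _ h
        have h1 := (Prod.ext_iff.mp h).1
        refine Prod.ext ?_ ?_
        · have := congrFun h1 (Fin.last n)
          simpa only [Fin.snoc_last] using this
        · funext i
          have := congrFun h1 (Fin.castSucc i)
          simpa only [Fin.snoc_castSucc] using this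
      have e2 := CH_chain hQ0 (fun w => a w.2) (fun w => A w.1) (fun w => B w.1)
      have e3 : CH Q (fun w => A w.1) (fun w => B w.1) = CH q A B := m1.CH A B
      have e4 : CH Q (fun w => a w.2) (fun w => (zs X b w.2, (A w.1, B w.1))) =
          CH (qs p X b) a (zs X b) :=
        CH_glue_snd hq0 hs.nonneg hZ a (fun w => (A w, B w)) (fun _ _ _ _ h => h)
      have e5 : CH Q (fun w => a w.2) (fun w => (zs X b w.2, (A w.1, B w.1))) ≤
          CH Q (fun w => a w.2) (fun w => (A w.1, B w.1)) :=
        CH_mono_cond hQ0 (fun _ _ _ _ h => (Prod.ext_iff.mp h).2)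
      have e6 : Real.log (Fintype.card τ) + 2 * CH p D b - (4 * epsX p X D b + c) ≤
          CH (qs p X b) a (zs X b) := hst
      rw [x0]
      push_cast
      linarith [e1, e2, e3, e4, e5, e6, hent]

end Pool.KSAT
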