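import Pool.Agent.H7.KSAT.WalkFin

/-!
# Saturation along the random walk, with a second label
-/

set_option autoImplicit false

namespace Pool.KSAT

open Finset Real
open Pool.Agent.H49.Ent Pool.Agent.H32.Dense Pool.STK

open Classical in
/-- Saturation for arbitrary (shaded) incidence laws, given a label `b` and a second label `y`:
only the law of `V` given `b` has to be nonconcentrated. -/
def WalkSaturation2Stmt : Prop :=
  ∀ m n k : ℕ, k < n → ∃ C : ℝ, 0 ≤ C ∧ ∀ (Ω Λ β υ : Type) [Fintype Ω] (p : Ω → ℝ)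
    (lam : Ω → Λ) (b : Ω → β) (yy : Ω → υ) (T : Ω → ℤ) (x V : Ω → Fin m → ℤ) (K a : ℕ) (ρ : ℝ),
    IsLaw p → (∀ ω i, |(V ω i : ℝ)| ≤ 3 * 2 ^ K) →
    (∀ ω ω', 0 < p ω → 0 < p ω' → lam ω = lam ω' → |((T ω' : ℝ) - T ω)| ≤ 2 ^ K ∧
      ∀ i, |2 ^ K * ((x ω' i : ℝ) - x ω i) - ((T ω' : ℝ) - T ω) * V ω i| ≤ 4 * 2 ^ K) →
    (∀ ω ω', 0 < p ω → 0 < p ω' → lam ω = lam ω' → (b ω, yy ω) = (b ω', yy ω')) →
    0 < ρ → (n : ℝ) ^ k * ρ ^ (n - k) < 1 →
    (∀ ω, 0 < p ω → ∀ B : Fin k → Fin m → ℝ,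
      (∑ ω', if ∃ c : Fin k → ℝ, ∀ j, |(V ω' j : ℝ) - ∑ i, c i * B i j| ≤ 2 ^ a
        then cond p b (b ω) ω' else 0) ≤ ρ) →
    (k + 1) * (a * Real.log 2) * (1 - (n * (CH p V b - CH p V (fun ω => ((b ω, yy ω), x ω))) +
      Real.log 2) / Real.log (1 / ((n : ℝ) ^ k * ρ ^ (n - k)))) -
      n * (K * Real.log 2 - CH p T lam + CH p V b - CH p V (fun ω => ((b ω, yy ω), x ω))) - C ≤
      CH p x (fun ω => ((fun j => x ω j / 2 ^ a), (b ω, yy ω)))

theorem walkSaturation2_thm (hSat : WalkSatStmt) (hTr : TransferStmt) (hL : LinStmt)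
    (hR : RkStmt) : WalkSaturation2Stmt := by
  classical
  intro m n k hkn
  obtain ⟨C, hC, hsat⟩ := hSat m n
  refine ⟨C, hC, ?_⟩
  intro Ω Λ β υ _ p lam b yy T x V K a ρ hp hV hx hb hρ hρ1 hconc
  obtain ⟨W, instW, q, o, o', y, hw⟩ := walk_thm hp lam (fun ω => ((b ω, yy ω), x ω)) n
  have hq := hw.isLaw
  have h0 := hq.nonneg
  have key := hsat Ω Λ (β × υ) W p lam (fun ω => (b ω, yy ω)) T x V K a q o o' y hp hV hx hb hw
  have hn : (0 : ℝ) < n := by
    have : 0 < n := by omega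
    exact_mod_cast this
  set Qb : ℝ := (n : ℝ) ^ k * ρ ^ (n - k) with hQb
  have hQb0 : 0 < Qb := by positivity
  have hlog : 0 < Real.log (1 / Qb) := Real.log_pos (by rw [lt_div_iff₀ hQb0]; linarith)
  -- the label is constant along the walk
  have hpo : ∀ w, 0 < q w → ∀ i, 0 < p (o i w) := fun w hw' i => (hw.marg i).pos h0 hw'
  have hpo' : ∀ w, 0 < q w → ∀ i, 0 < p (o' i w) := fun w hw' i => (hw.marg' i).pos h0 hw'
  have hb1 : ∀ w, 0 < q w → ∀ i : Fin n, (y i.castSucc w).1 = (y i.succ w).1 := by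
    intro w hw' i
    rw [← hw.start w hw' i, ← hw.stop w hw' i]
    exact hb _ _ (hpo w hw' i) (hpo' w hw' i) (hw.line w hw' i)
  have hb2 : ∀ w, 0 < q w → ∀ i : Fin (n + 1), (y i w).1 = (y 0 w).1 := by
    intro w hw' i
    induction i using Fin.induction with
    | zero => rfl
    | succ i ih => rw [← hb1 w hw' i]; exact ih
  have hb3 : ∀ w, 0 < q w → ∀ i : Fin n, b (o i w) = (y 0 w).1.1 := by
    intro w hw' i
    rw [← hb2 w hw' i.castSucc, ← hw.start w hw' i]
  -- transfer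
  set δ' : ℝ := n * (CH p V b - CH p V (fun ω => ((b ω, yy ω), x ω))) with hδ'
  have hent : (n : ℝ) * CH p V (fun ω => ((b ω, yy ω), x ω)) ≤
      CH q (fun w (i : Fin n) => V (o i w)) (fun w => (y 0 w).1.1) := by
    have h1 := hw.ent (Fin m → ℤ) (fun ω _ => V ω)
    have h2 : CH (dbl p lam) (fun w => V w.1) (fun w => ((b w.1, yy w.1), x w.1)) =
        CH p V (fun ω => ((b ω, yy ω), x ω)) :=
      (dbl_fst (b := lam) hp.nonneg).CH V (fun ω => ((b ω, yy ω), x ω))
    rw [h2] at h1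
    refine h1.trans ?_
    exact CH_mono_cond h0 (fun _ _ _ _ h => by simp only [h])
  have : Nonempty (Fin n) := ⟨⟨0, by omega⟩⟩
  have htr := hTr Ω W β (Fin m → ℤ) (Fin n) p q V b (fun i w => V (o i w))
    (fun w => (y 0 w).1.1) δ' hp hq (by
      intro i z
      rw [← (hw.marg i).law (fun l => (b l, V l)) z]
      refine law_congr0 h0 ?_ z
      intro w hw'
      simp only [hb3 w hw' i]) (by
      rw [Fintype.card_fin]
      linarith)
    (fun _ v => rk (2 ^ a) (fun i j => (v i j : ℝ)) ≤ k) Qb hQb0 (by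
      intro l hl
      have hz : law p b (b l) ≠ 0 := (law_pos hp.nonneg b hl).ne'
      have hcl : IsLaw (cond p b (b l)) := ⟨cond_nonneg hp.nonneg b _, sum_cond p b hz⟩
      have h1 := qpr2_thm hL hR m n k Ω (cond p b (b l)) (fun ω j => (V ω j : ℝ)) (2 ^ a) ρ hcl
        (by positivity) hkn.le (hconc l hl)
      refine le_trans (Finset.sum_le_sum fun v _ => ?_) h1
      by_cases h : rk (2 ^ a) (fun i j => (V (v i) j : ℝ)) ≤ k
      · exact ((if_pos h).trans (if_pos h).symm).le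
      · exact ((if_neg h).trans (if_neg h).symm).le)
  set P : ℝ := ∑ w, if rk (2 ^ a) (fun i j => (V (o i w) j : ℝ)) ≤ k then q w else 0 with hP
  have hPle : P ≤ (δ' + Real.log 2) / Real.log (1 / Qb) := by
    rw [le_div_iff₀ hlog]
    refine le_trans (mul_le_mul_of_nonneg_right (Finset.sum_le_sum fun w _ => ?_) hlog.le) htr
    by_cases h : rk (2 ^ a) (fun i j => (V (o i w) j : ℝ)) ≤ k
    · exact ((if_pos h).trans (if_pos h).symm).le
    · exact ((if_neg h).trans (if_neg h).symm).le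
  -- the mean rank
  have hrk : (k + 1) * (1 - P) ≤
      Ex q (fun w => (rk (2 ^ a) (fun i j => (V (o i w) j : ℝ)) : ℝ)) := by
    have h1 : Ex q (fun w => (k + 1) * (1 - (if rk (2 ^ a)
        (fun i j => (V (o i w) j : ℝ)) ≤ k then 1 else 0))) ≤
        Ex q (fun w => (rk (2 ^ a) (fun i j => (V (o i w) j : ℝ)) : ℝ)) := by
      refine Ex_mono h0 fun w _ => ?_
      by_cases h : rk (2 ^ a) (fun i j => (V (o i w) j : ℝ)) ≤ k
      · rw [if_pos h]
        simp
      · rw [if_neg h]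
        have : k + 1 ≤ rk (2 ^ a) (fun i j => (V (o i w) j : ℝ)) := by omega
        have h2 : ((k + 1 : ℕ) : ℝ) ≤ (rk (2 ^ a) (fun i j => (V (o i w) j : ℝ)) : ℝ) := by
          exact_mod_cast this
        push_cast at h2
        linarith
    refine le_trans (le_of_eq ?_) h1
    rw [Ex_smul, Ex_sub, Ex_const hq.sum_one]
    congr 2
    rw [hP]
    unfold Ex
    refine Finset.sum_congr rfl fun w _ => ?_
    beta_reduce
    by_cases h : rk (2 ^ a) (fun i j => (V (o i w) j : ℝ)) ≤ k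
    · rw [if_pos h, if_pos h, mul_one]
    · rw [if_neg h, if_neg h, mul_zero]
  have hVb : CH p V (fun ω => (b ω, yy ω)) ≤ CH p V b :=
    CH_mono_cond hp.nonneg (fun _ _ _ _ h => (Prod.ext_iff.mp h).1)
  have hVb' : (n : ℝ) * (K * Real.log 2 - CH p T lam + CH p V (fun ω => (b ω, yy ω)) -
      CH p V (fun ω => ((b ω, yy ω), x ω))) ≤ n * (K * Real.log 2 - CH p T lam + CH p V b -
      CH p V (fun ω => ((b ω, yy ω), x ω))) :=
    mul_le_mul_of_nonneg_left (by linarith) hn.le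
  have ha0 : (0 : ℝ) ≤ a * Real.log 2 := by positivity
  have h5 : (k + 1) * (a * Real.log 2) * (1 - (δ' + Real.log 2) / Real.log (1 / Qb)) ≤
      a * Real.log 2 * Ex q (fun w => (rk (2 ^ a) (fun i j => (V (o i w) j : ℝ)) : ℝ)) := by
    have h6 := mul_le_mul_of_nonneg_left hrk ha0
    have h7 : (k + 1) * (a * Real.log 2) * (1 - (δ' + Real.log 2) / Real.log (1 / Qb)) ≤
        (k + 1) * (a * Real.log 2) * (1 - P) :=
      mul_le_mul_of_nonneg_left (by linarith) (by positivity)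
    calc (k + 1) * (a * Real.log 2) * (1 - (δ' + Real.log 2) / Real.log (1 / Qb))
        ≤ (k + 1) * (a * Real.log 2) * (1 - P) := h7
      _ = a * Real.log 2 * ((k + 1) * (1 - P)) := by ring
      _ ≤ _ := h6
  linarith

end Pool.KSAT
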