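import Pool.Agent.H7.KSAT.SL
import Pool.Agent.H7.KSAT.WalkFin2

/-!
# Saturation for families of lines with a random time, with a second label
-/

set_option autoImplicit false

namespace Pool.KSAT

open Finset Real
open Pool.Agent.H49.Ent Pool.Agent.H32.Dense Pool.STK Pool.KA

open Classical in
/-- **Saturation in class SL**: window `(w, w + K]`, label `b` for the nonconcentration,
second label `y`. -/
def SLSat2Stmt : Prop :=
  ∀ m n k : ℕ, k + 1 < n → ∃ C : ℝ, 0 ≤ C ∧ ∀ (J : ℕ) (F : Fam m J) (β υ : Type) (b : F.Ω → β)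
    (y : F.Ω → υ)
    (w K a : ℕ) (e ρ : ℝ), w + K ≤ J → a + 2 ≤ K → F.Tm e →
    (∀ ω ω', 0 < F.p ω → 0 < F.p ω' → slam F w ω = slam F w ω' →
      (b ω, y ω) = (b ω', y ω')) →
    0 < ρ → (n : ℝ) ^ (k + 1) * ρ ^ (n - (k + 1)) < 1 →
    (∀ ω, 0 < F.p ω → ∀ (v : Fin m → ℝ) (B : Fin k → Fin m → ℝ),
      (∑ ω', if ∃ c : Fin k → ℝ, ∀ j, |F.d ω' j - v j - ∑ i, c i * B i j| ≤ 4 * 2 ^ a / 2 ^ K
        then cond F.p b (b ω) ω' else 0) ≤ ρ) →
    (k + 2) * (a * Real.log 2) * (1 - (n * (CH F.p (F.D K) b -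
      CH F.p (F.D K) (fun ω => ((b ω, y ω), F.T1 (w + K) ω, F.X (w + K) ω))) + Real.log 2) /
      Real.log (1 / ((n : ℝ) ^ (k + 1) * ρ ^ (n - (k + 1))))) - a * Real.log 2 -
      n * (e + (CH F.p (F.D K) b -
        CH F.p (F.D K) (fun ω => ((b ω, y ω), F.T1 (w + K) ω, F.X (w + K) ω)))) - C ≤
      CH F.p (F.X (w + K)) (fun ω => (F.T1 (w + K) ω, F.X (w + K - a) ω, (b ω, y ω)))

theorem slSat2_thm (hW : WalkSaturation2Stmt) : SLSat2Stmt := by
  classical
  intro m n k hkn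
  obtain ⟨C, hC, hw⟩ := hW (m + 1) n (k + 1) hkn
  refine ⟨C, hC, ?_⟩
  intro J F β υ b y w K a e ρ hwK haK he hb hρ hρ1 hconc
  have h0 := F.isLaw.nonneg
  have key := hw F.Ω _ β υ F.p (slam F w) b y (fun ω => (F.T1 (w + K) ω : ℤ))
    (scell F (w + K)) (svel F K) K a ρ F.isLaw (svel_le F K)
    (fun ω ω' _ _ hs => cell_move F hwK hs) hb hρ hρ1 (by
      intro ω hω B'
      obtain ⟨v, B, hB⟩ := conc_aff (m := m) (J := J) haK B'
      refine le_trans (Finset.sum_le_sum fun ω' _ => ?_) (hconc ω hω v B)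
      have hc0 := cond_nonneg h0 b (b ω) ω'
      by_cases h1 : ∃ c : Fin (k + 1) → ℝ, ∀ j,
          |(svel F K ω' j : ℝ) - ∑ i, c i * B' i j| ≤ 2 ^ a
      · rw [if_pos h1, if_pos (hB F ω' h1)]
      · rw [if_neg h1]
        split_ifs
        · exact hc0
        · exact le_rfl)
  have hT := time_digits F hwK he
  have hx := scell_le F (fun ω => (b ω, y ω)) (g := w + K) (a := a) (by omega)
  have e1 : CH F.p (svel F K) b = CH F.p (F.D K) b := by
    refine CH_congr h0 ?_ ?_ (fun _ _ _ _ h => h) (fun _ _ _ _ h => h)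
    · intro ω ω' _ _ hh
      have := (Prod.ext_iff.mp hh).1
      simp only [svel] at this
      exact (Fin.cons_injective2 this).2
    · intro ω ω' _ _ hh
      have := (Prod.ext_iff.mp hh).1
      simp only at this
      unfold svel
      rw [this]
  have e2 : CH F.p (svel F K) (fun ω => ((b ω, y ω), scell F (w + K) ω)) =
      CH F.p (F.D K) (fun ω => ((b ω, y ω), F.T1 (w + K) ω, F.X (w + K) ω)) := by
    refine CH_congr h0 ?_ ?_ ?_ ?_
    · intro ω ω' _ _ hh
      have := (Prod.ext_iff.mp hh).1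
      simp only [svel] at this
      exact (Fin.cons_injective2 this).2
    · intro ω ω' _ _ hh
      have := (Prod.ext_iff.mp hh).1
      simp only at this
      unfold svel
      rw [this]
    · intro ω ω' _ _ hh
      simp only [Prod.mk.injEq] at hh ⊢
      have h2 := Fin.cons_injective2 hh.2
      exact ⟨hh.1, by exact_mod_cast h2.1, h2.2⟩
    · intro ω ω' _ _ hh
      simp only [Prod.mk.injEq] at hh ⊢
      refine ⟨hh.1, ?_⟩
      unfold scell
      rw [hh.2.1, hh.2.2]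
  rw [e1, e2] at key
  push_cast at key ⊢
  set I : ℝ := CH F.p (F.D K) b - CH F.p (F.D K) (fun ω => ((b ω, y ω), F.T1 (w + K) ω,
    F.X (w + K) ω)) with hI
  have hn : (0 : ℝ) ≤ n := by positivity
  have h5 : (n : ℝ) * (K * Real.log 2 - CH F.p (fun ω => (F.T1 (w + K) ω : ℤ)) (slam F w) +
      CH F.p (F.D K) b - CH F.p (F.D K) (fun ω => ((b ω, y ω), F.T1 (w + K) ω, F.X (w + K) ω))) ≤
      n * (e + I) := by
    refine mul_le_mul_of_nonneg_left ?_ hn
    linarith
  have h6 : ((k : ℝ) + 1 + 1) = k + 2 := by ring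
  rw [h6] at key
  linarith

end Pool.KSAT
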