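import Pool.Agent.H7.KSAT.Img
import Pool.Agent.H7.KSAT.Chain
import Pool.Agent.H7.KSAT.CNT
import Pool.Agent.H7.KSAT.CNT2
import Pool.Agent.H7.KSAT.WalkFin2
import Pool.Agent.H7.KSAT.SL2
import Pool.Agent.H33.KSAT.FIB
import Pool.Agent.H33.KSAT.TRF
import Pool.Agent.H34.KSAT.GEO
import Pool.Agent.H34.KSAT.QPR
import Pool.Agent.H1.KSAT.RKL
import Pool.Agent.H64.KST.SATM
import Pool.Agent.H40.KSAT.FIN

/-!
# The saturation theorems, without hypotheses
-/

namespace Pool.KSAT

/-- Saturation for independent times. -/
theorem saturation : SaturationStmt :=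
  saturation_thm (Pool.H64.KST.sat_thm chain_thm geo_thm
      (cnt_thm rk_thm lin_thm Pool.Agent.H33.KSAT.fib_thm img_thm'))
    Pool.Agent.H33.KSAT.transfer_thm (qpr_thm lin_thm rk_thm) geo_thm rk_thm

theorem walkSat : WalkSatStmt :=
  walkSat_thm (cnt2_thm rk_thm lin_thm Pool.Agent.H33.KSAT.fib_thm img_thm')

/-- Saturation for shaded families. -/
theorem walkSaturation : WalkSaturationStmt :=
  walkSaturation_thm walkSat Pool.Agent.H33.KSAT.transfer_thm lin_thm rk_thm

/-- Saturation for shaded families, with a second label of the velocities. -/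
theorem walkSaturation2 : WalkSaturation2Stmt :=
  walkSaturation2_thm walkSat Pool.Agent.H33.KSAT.transfer_thm lin_thm rk_thm

/-- Saturation in the class of families of lines. -/
theorem slSat : SLSatStmt := slSat_thm walkSaturation

/-- Saturation in the class of families of lines, with a second label. -/
theorem slSat2 : SLSat2Stmt := slSat2_thm walkSaturation2

end Pool.KSAT
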