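import Pool.Agent.H7.KSAT.Basic

/-!
# Saturation: the random walk

The points of the finite probability space `(Ω, p)` are incidences (a line and a point of it),
`lam` is the line with its labels and `ξ` the cell (with the labels which are constant along the
walk). From a cell one chooses an incidence with this cell, then another incidence on the same
line. No assumption on the law is needed: the walk is stationary.
-/

set_option autoImplicit false

namespace Pool.KSAT

open Finset Real
open Pool.Agent.H49.Ent Pool.Agent.H32.Dense Pool.STK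

/-- A walk with `n` steps: the incidences `o i` and `o' i` are on the same line, and the cells of
`o' i` and `o (i + 1)` are the same. -/
structure IsWalk {Ω Λ Ξ W : Type} [Fintype Ω] [Fintype W] (p : Ω → ℝ) (lam : Ω → Λ)
    (ξ : Ω → Ξ) (q : W → ℝ) {n : ℕ} (o o' : Fin n → W → Ω) (y : Fin (n + 1) → W → Ξ) :
    Prop where
  isLaw : IsLaw q
  marg : ∀ i, Marg q p (o i)
  marg' : ∀ i, Marg q p (o' i)
  line : ∀ w, 0 < q w → ∀ i, lam (o i w) = lam (o' i w)
  start : ∀ w, 0 < q w → ∀ i : Fin n, ξ (o i w) = y i.castSucc w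
  stop : ∀ w, 0 < q w → ∀ i : Fin n, ξ (o' i w) = y i.succ w
  cell : ∀ i z, law q (y i) z = law p ξ z
  ent : ∀ (F : Type) (f : Ω → Ω → F),
    n * CH (dbl p lam) (fun w => f w.1 w.2) (fun w => ξ w.1) ≤
      CH q (fun w i => f (o i w) (o' i w)) (y 0)

theorem walk_thm {Ω Λ Ξ : Type} [Fintype Ω] {p : Ω → ℝ} (hp : IsLaw p) (lam : Ω → Λ)
    (ξ : Ω → Ξ) (n : ℕ) :
    ∃ (W : Type) (_ : Fintype W) (q : W → ℝ) (o o' : Fin n → W → Ω)
      (y : Fin (n + 1) → W → Ξ), IsWalk p lam ξ q o o' y := by
  induction n with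
  | zero =>
    refine ⟨Ω, inferInstance, p, Fin.elim0, Fin.elim0, fun _ => ξ, hp, fun i => i.elim0,
      fun i => i.elim0, fun _ _ i => i.elim0, fun _ _ i => i.elim0, fun _ _ i => i.elim0,
      fun _ _ => rfl, fun F f => ?_⟩
    simp only [Nat.cast_zero, zero_mul]
    exact CH_nonneg hp.nonneg _ _
  | succ n ih =>
    obtain ⟨W, instW, q, o, o', y, hw⟩ := ih
    have hq0 := hw.isLaw.nonneg
    have hs0 := dbl_nonneg (b := lam) hp.nonneg
    set s : Ω × Ω → ℝ := dbl p lam with hs
    have hZ : ∀ z, law q (y (Fin.last n)) z = law s (fun v => ξ v.1) z := by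
      intro z
      rw [hw.cell, (dbl_fst (b := lam) hp.nonneg).law ξ z]
    set Q := glue q s (y (Fin.last n)) (fun v => ξ v.1) with hQ
    have hQ0 : ∀ w, 0 ≤ Q w := glue_nonneg hq0 hs0
    have m1 : Marg Q q (fun w => w.1) := marg_fst hq0 hZ
    have m2 : Marg Q s (fun w => w.2) := marg_snd hs0 hZ
    have hQl : IsLaw Q := ⟨hQ0, by rw [m1.sum]; exact hw.isLaw.sum_one⟩
    have hpos : ∀ w, 0 < Q w → 0 < q w.1 ∧ 0 < s w.2 ∧ y (Fin.last n) w.1 = ξ w.2.1 :=
      fun w hw' => (glue_pos_iff hq0 hs0 w).mp hw'
    refine ⟨W × (Ω × Ω), inferInstance, Q,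
      Fin.snoc (α := fun _ => W × (Ω × Ω) → Ω) (fun i w => o i w.1) (fun w => w.2.1),
      Fin.snoc (α := fun _ => W × (Ω × Ω) → Ω) (fun i w => o' i w.1) (fun w => w.2.2),
      Fin.snoc (α := fun _ => W × (Ω × Ω) → Ξ) (fun i w => y i w.1) (fun w => ξ w.2.2),
      hQl, ?_, ?_, ?_, ?_, ?_, ?_, ?_⟩
    · intro i
      induction i using Fin.lastCases with
      | last =>
        simp only [Fin.snoc_last]
        exact m2.comp (dbl_fst hp.nonneg)
      | cast i =>
        simp only [Fin.snoc_castSucc]
        exact m1.comp (hw.marg i)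
    · intro i
      induction i using Fin.lastCases with
      | last =>
        simp only [Fin.snoc_last]
        exact m2.comp (dbl_snd hp.nonneg)
      | cast i =>
        simp only [Fin.snoc_castSucc]
        exact m1.comp (hw.marg' i)
    · intro w hw' i
      induction i using Fin.lastCases with
      | last =>
        simp only [Fin.snoc_last]
        exact dbl_eq hp.nonneg (hpos w hw').2.1
      | cast i =>
        simp only [Fin.snoc_castSucc]
        exact hw.line w.1 (hpos w hw').1 i
    · intro w hw' i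
      induction i using Fin.lastCases with
      | last =>
        simp only [Fin.snoc_last, Fin.snoc_castSucc]
        exact (hpos w hw').2.2.symm
      | cast i =>
        simp only [Fin.snoc_castSucc]
        exact hw.start w.1 (hpos w hw').1 i
    · intro w hw' i
      induction i using Fin.lastCases with
      | last =>
        simp only [Fin.snoc_last, Fin.succ_last]
      | cast i =>
        simp only [Fin.snoc_castSucc]
        rw [← Fin.castSucc_succ]
        simp only [Fin.snoc_castSucc]
        exact hw.stop w.1 (hpos w hw').1 i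
    · intro i z
      induction i using Fin.lastCases with
      | last =>
        simp only [Fin.snoc_last]
        rw [(m2.comp (dbl_snd (b := lam) hp.nonneg)).law ξ z]
      | cast i =>
        simp only [Fin.snoc_castSucc]
        rw [← hw.cell i z]
        exact m1.law (y i) z
    · intro F f
      have y0 : (Fin.snoc (α := fun _ => W × (Ω × Ω) → Ξ) (fun i w => y i w.1)
          (fun w => ξ w.2.2) : Fin (n + 1 + 1) → W × (Ω × Ω) → Ξ) 0 = fun w => y 0 w.1 := by
        rw [show (0 : Fin (n + 1 + 1)) = Fin.castSucc 0 from rfl, Fin.snoc_castSucc]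
      set A : W → Fin n → F := fun w i => f (o i w) (o' i w) with hA
      set a : Ω × Ω → F := fun v => f v.1 v.2 with ha
      have e1 : CH Q (fun w => (a w.2, A w.1)) (fun w => y 0 w.1) ≤
          CH Q (fun w i => f
            ((Fin.snoc (α := fun _ => W × (Ω × Ω) → Ω) (fun i w => o i w.1)
              (fun w => w.2.1) : Fin (n + 1) → _) i w)
            ((Fin.snoc (α := fun _ => W × (Ω × Ω) → Ω) (fun i w => o' i w.1)
              (fun w => w.2.2) : Fin (n + 1) → _) i w)) (fun w => y 0 w.1) := by
        refine CH_mono_left hQ0 ?_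
        intro ω ω' _ _ h
        have h1 := (Prod.ext_iff.mp h).1
        refine Prod.ext ?_ ?_
        · have := congrFun h1 (Fin.last n)
          simpa only [Fin.snoc_last] using this
        · funext i
          have := congrFun h1 (Fin.castSucc i)
          simpa only [Fin.snoc_castSucc] using this
      have e2 := CH_chain hQ0 (fun w => a w.2) (fun w => A w.1) (fun w => y 0 w.1)
      have e3 : CH Q (fun w => A w.1) (fun w => y 0 w.1) = CH q A (y 0) := m1.CH A (y 0)
      have e4 : CH Q (fun w => a w.2) (fun w => (ξ w.2.1, (A w.1, y 0 w.1))) =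
          CH s a (fun v => ξ v.1) :=
        CH_glue_snd (Y := fun v : Ω × Ω => ξ v.1) hq0 hs0 hZ a (fun w => (A w, y 0 w))
          (fun _ _ _ _ h => h)
      have e5 : CH Q (fun w => a w.2) (fun w => (ξ w.2.1, (A w.1, y 0 w.1))) ≤
          CH Q (fun w => a w.2) (fun w => (A w.1, y 0 w.1)) :=
        CH_mono_cond hQ0 (fun _ _ _ _ h => (Prod.ext_iff.mp h).2)
      have e6 := hw.ent F f
      rw [y0]
      push_cast
      have e7 : CH (dbl p lam) (fun w => f w.1 w.2) (fun w => ξ w.1) =
          CH s a (fun v => ξ v.1) := rfl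
      rw [e7] at e6 ⊢
      linarith only [e1, e2, e3, e4, e5, e6, e1, e2, e3, e4, e5, e6]

/-- The step of the walk: velocity and displacement in time. -/
theorem walk_step {Ω Λ Ξ E : Type} [Fintype Ω] {p : Ω → ℝ} (hp : IsLaw p) (lam : Ω → Λ)
    (ξ : Ω → Ξ) (V : Ω → E) (T : Ω → ℤ) :
    CH p V ξ + CH p T lam ≤
      CH (dbl p lam) (fun w => (V w.1, T w.2 - T w.1)) (fun w => ξ w.1) := by
  have h0 := dbl_nonneg (b := lam) hp.nonneg
  have e1 := CH_chain h0 (fun w => T w.2 - T w.1) (fun w => V w.1) (fun w => ξ w.1)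
  have e2 : CH (dbl p lam) (fun w => V w.1) (fun w => ξ w.1) = CH p V ξ :=
    (dbl_fst (b := lam) hp.nonneg).CH V ξ
  have e3 : CH (dbl p lam) (fun w => (T w.2 - T w.1, V w.1)) (fun w => ξ w.1) =
      CH (dbl p lam) (fun w => (V w.1, T w.2 - T w.1)) (fun w => ξ w.1) := by
    refine CH_congr h0 ?_ ?_ (fun _ _ _ _ h => h) (fun _ _ _ _ h => h) <;>
    · intro ω ω' _ _ h
      simp only [Prod.mk.injEq] at h ⊢
      tauto
  have e4 : CH (dbl p lam) (fun w => T w.2 - T w.1) (fun w => (lam w.2, w.1)) ≤
      CH (dbl p lam) (fun w => T w.2 - T w.1) (fun w => (V w.1, ξ w.1)) := by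
    refine CH_mono_cond h0 ?_
    intro ω ω' _ _ h
    have h1 := (Prod.ext_iff.mp h).2
    exact Prod.ext (congrArg V h1) (congrArg ξ h1)
  have e5 : CH (dbl p lam) (fun w => T w.2 - T w.1) (fun w => (lam w.2, w.1)) =
      CH (dbl p lam) (fun w => T w.2) (fun w => (lam w.2, w.1)) := by
    refine CH_congr h0 ?_ ?_ (fun _ _ _ _ h => h) (fun _ _ _ _ h => h)
    · intro ω ω' _ _ h
      simp only [Prod.mk.injEq] at h
      have h1 : T ω.1 = T ω'.1 := congrArg T h.2.2
      simp only
      linarith only [h, h1, h.1]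
    · intro ω ω' _ _ h
      simp only [Prod.mk.injEq] at h
      have h1 : T ω.1 = T ω'.1 := congrArg T h.2.2
      simp only
      linarith [h.1]
  have e6 : CH (dbl p lam) (fun w => T w.2) (fun w => (lam w.2, w.1)) = CH p T lam :=
    CH_dbl_2 hp.nonneg T (fun w => w)
  linarith

end Pool.KSAT
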