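import Pool.Agent.H7.KSAT.WalkSat
import Pool.Agent.H34.KSAT.QPR

/-!
# Saturation along the random walk: nonconcentrated velocities
-/

set_option autoImplicit false

namespace Pool.KSAT

open Finset Real
open Pool.Agent.H49.Ent Pool.Agent.H32.Dense Pool.STK

lemma law_congr0 {Ω : Type} [Fintype Ω] {S : Type} {p : Ω → ℝ} (hp : ∀ w, 0 ≤ p w)
    {X Y : Ω → S} (h : ∀ w, 0 < p w → X w = Y w) (z : S) : law p X z = law p Y z := by
  classical
  unfold law
  refine Finset.sum_congr rfl fun w _ => ?_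
  rcases (hp w).eq_or_lt with h0 | h0
  · simp [← h0]
  · rw [h w h0]

open Classical in
/-- Families of independent vectors seldom have small rank. -/
theorem qpr2_thm (hL : LinStmt) (hR : RkStmt) (m n k : ℕ) (Ω : Type) [Fintype Ω] (p : Ω → ℝ)
    (D : Ω → Fin m → ℝ) (r ρ : ℝ) (hp : IsLaw p) (hr : 0 < r) (hk : k ≤ n)
    (hB : ∀ B : Fin k → Fin m → ℝ,
      (∑ l, if ∃ c : Fin k → ℝ, ∀ j, |D l j - ∑ i, c i * B i j| ≤ r then p l else 0) ≤ ρ) :
    (∑ v : Fin n → Ω, if rk r (fun i j => D (v i) j) ≤ k then ∏ i, p (v i) else 0) ≤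
      (n : ℝ) ^ k * ρ ^ (n - k) := by
  have hρ0 : 0 ≤ ρ := by
    refine le_trans (Finset.sum_nonneg fun l _ => ?_) (hB 0)
    split_ifs
    · exact hp.nonneg _
    · exact le_rfl
  set A : (Fin k → Fin n) → (Fin n → Ω) → Prop := fun I v => ∀ i : Fin n,
    ∃ c : Fin k → ℝ, ∀ j : Fin m, |D (v i) j - ∑ l, c l * D (v (I l)) j| ≤ r with hA
  have hpv : ∀ v : Fin n → Ω, 0 ≤ ∏ i, p (v i) := fun v =>
    Finset.prod_nonneg fun i _ => hp.nonneg _
  have h1 : (∑ v : Fin n → Ω, if rk r (fun i j => D (v i) j) ≤ k then ∏ i, p (v i) else 0) ≤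
      ∑ I : Fin k → Fin n, ∑ v : Fin n → Ω, if A I v then ∏ i, p (v i) else 0 := by
    rw [Finset.sum_comm]
    refine Finset.sum_le_sum fun v _ => ?_
    by_cases h : rk r (fun i j => D (v i) j) ≤ k
    · rw [if_pos h]
      obtain ⟨I, hI⟩ := rk_span hL hR r hr hk _ h
      have hAI : A I v := hI
      refine le_trans ?_ (Finset.single_le_sum (f := fun I => if A I v then ∏ i, p (v i) else 0)
        (fun I _ => ?_) (Finset.mem_univ I))
      · rw [if_pos hAI]
      · split_ifs
        · exact hpv v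
        · exact le_rfl
    · rw [if_neg h]
      refine Finset.sum_nonneg fun I _ => ?_
      split_ifs
      · exact hpv v
      · exact le_rfl
  have h2 : ∀ I : Fin k → Fin n, (∑ v : Fin n → Ω, if A I v then ∏ i, p (v i) else 0) ≤
      ρ ^ (n - k) := by
    intro I
    have hcard : n - k ≤ (Finset.univ \ Finset.univ.image I : Finset (Fin n)).card := by
      rw [Finset.card_sdiff_of_subset (Finset.subset_univ _), Finset.card_univ, Fintype.card_fin]
      have : (Finset.univ.image I).card ≤ k := by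
        refine Finset.card_image_le.trans ?_
        rw [Finset.card_univ, Fintype.card_fin]
      omega
    obtain ⟨S, hS, hSc⟩ := Finset.exists_subset_card_eq hcard
    have hIS : ∀ l, I l ∉ S := by
      intro l hl
      have := hS hl
      rw [Finset.mem_sdiff] at this
      exact this.2 (Finset.mem_image_of_mem _ (Finset.mem_univ _))
    set Q : Fin n → (Fin n → Ω) → Ω → Prop := fun _ v l' =>
      ∃ c : Fin k → ℝ, ∀ j : Fin m, |D l' j - ∑ l, c l * D (v (I l)) j| ≤ r with hQ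
    have h4 := prod_bound p hp S Q (by
      intro x _ v v' hvv l' hl'
      obtain ⟨c, hc⟩ := hl'
      refine ⟨c, fun j => ?_⟩
      have h5 := hc j
      have h6 : (∑ l, c l * D (v (I l)) j) = ∑ l, c l * D (v' (I l)) j := by
        refine Finset.sum_congr rfl fun l _ => ?_
        rw [hvv _ (hIS l)]
      rw [h6] at h5
      exact h5) ρ (by
      intro x _ v
      exact hB (fun l j => D (v (I l)) j))
    rw [hSc] at h4
    refine le_trans (Finset.sum_le_sum fun v _ => ?_) h4
    by_cases hAv : A I v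
    · rw [if_pos hAv, if_pos]
      intro x _
      exact hAv x
    · rw [if_neg hAv]
      split_ifs
      · exact hpv v
      · exact le_rfl
  refine h1.trans ((Finset.sum_le_sum fun I _ => h2 I).trans (le_of_eq ?_))
  rw [Finset.sum_const, Finset.card_univ, Fintype.card_fun, Fintype.card_fin, Fintype.card_fin,
    nsmul_eq_mul]
  push_cast
  rfl

open Classical in
/-- Saturation for arbitrary (shaded) incidence laws: if the vectors `V` given the label are not
concentrated near linear subspaces of dimension `k`, the last `a` digits of the position are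
saturated at rate `k + 1`. -/
def WalkSaturationStmt : Prop :=
  ∀ m n k : ℕ, k < n → ∃ C : ℝ, 0 ≤ C ∧ ∀ (Ω Λ β : Type) [Fintype Ω] (p : Ω → ℝ)
    (lam : Ω → Λ) (b : Ω → β) (T : Ω → ℤ) (x V : Ω → Fin m → ℤ) (K a : ℕ) (ρ : ℝ),
    IsLaw p → (∀ ω i, |(V ω i : ℝ)| ≤ 3 * 2 ^ K) →
    (∀ ω ω', 0 < p ω → 0 < p ω' → lam ω = lam ω' → |((T ω' : ℝ) - T ω)| ≤ 2 ^ K ∧
      ∀ i, |2 ^ K * ((x ω' i : ℝ) - x ω i) - ((T ω' : ℝ) - T ω) * V ω i| ≤ 4 * 2 ^ K) →
    (∀ ω ω', 0 < p ω → 0 < p ω' → lam ω = lam ω' → b ω = b ω') →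
    0 < ρ → (n : ℝ) ^ k * ρ ^ (n - k) < 1 →
    (∀ ω, 0 < p ω → ∀ B : Fin k → Fin m → ℝ,
      (∑ ω', if ∃ c : Fin k → ℝ, ∀ j, |(V ω' j : ℝ) - ∑ i, c i * B i j| ≤ 2 ^ a
        then cond p b (b ω) ω' else 0) ≤ ρ) →
    (k + 1) * (a * Real.log 2) * (1 - (n * (CH p V b - CH p V (fun ω => (b ω, x ω))) +
      Real.log 2) / Real.log (1 / ((n : ℝ) ^ k * ρ ^ (n - k)))) -
      n * (K * Real.log 2 - CH p T lam + CH p V b - CH p V (fun ω => (b ω, x ω))) - C ≤
      CH p x (fun ω => ((fun j => x ω j / 2 ^ a), b ω))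

theorem walkSaturation_thm (hSat : WalkSatStmt) (hTr : TransferStmt) (hL : LinStmt)
    (hR : RkStmt) : WalkSaturationStmt := by
  classical
  intro m n k hkn
  obtain ⟨C, hC, hsat⟩ := hSat m n
  refine ⟨C, hC, ?_⟩
  intro Ω Λ β _ p lam b T x V K a ρ hp hV hx hb hρ hρ1 hconc
  obtain ⟨W, instW, q, o, o', y, hw⟩ := walk_thm hp lam (fun ω => (b ω, x ω)) n
  have hq := hw.isLaw
  have h0 := hq.nonneg
  have key := hsat Ω Λ β W p lam b T x V K a q o o' y hp hV hx hb hw
  have hn : (0 : ℝ) < n := by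
    have : 0 < n := by omega
    exact_mod_cast this
  set Qb : ℝ := (n : ℝ) ^ k * ρ ^ (n - k) with hQb
  have hQb0 : 0 < Qb := by positivity
  have hlog : 0 < Real.log (1 / Qb) := Real.log_pos (by rw [lt_div_iff₀ hQb0]; linarith)
  -- the label is constant along the walk
  have hpo : ∀ w, 0 < q w → ∀ i, 0 < p (o i w) := fun w hw' i => (hw.marg i).pos h0 hw'
  have hpo' : ∀ w, 0 < q w → ∀ i, 0 < p (o' i w) := fun w hw' i => (hw.marg' i).pos h0 hw'
  have hb1 : ∀ w, 0 < q w → ∀ i : Fin n, (y i.castSucc w).1 = (y i.succ w).1 := by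
    intro w hw' i
    rw [← hw.start w hw' i, ← hw.stop w hw' i]
    exact hb _ _ (hpo w hw' i) (hpo' w hw' i) (hw.line w hw' i)
  have hb2 : ∀ w, 0 < q w → ∀ i : Fin (n + 1), (y i w).1 = (y 0 w).1 := by
    intro w hw' i
    induction i using Fin.induction with
    | zero => rfl
    | succ i ih => rw [← hb1 w hw' i]; exact ih
  have hb3 : ∀ w, 0 < q w → ∀ i : Fin n, b (o i w) = (y 0 w).1 := by
    intro w hw' i
    rw [← hb2 w hw' i.castSucc, ← hw.start w hw' i]
  -- transfer
  set δ' : ℝ := n * (CH p V b - CH p V (fun ω => (b ω, x ω))) with hδ'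
  have hent : (n : ℝ) * CH p V (fun ω => (b ω, x ω)) ≤
      CH q (fun w (i : Fin n) => V (o i w)) (fun w => (y 0 w).1) := by
    have h1 := hw.ent (Fin m → ℤ) (fun ω _ => V ω)
    have h2 : CH (dbl p lam) (fun w => V w.1) (fun w => (b w.1, x w.1)) =
        CH p V (fun ω => (b ω, x ω)) :=
      (dbl_fst (b := lam) hp.nonneg).CH V (fun ω => (b ω, x ω))
    rw [h2] at h1
    refine h1.trans ?_
    exact CH_mono_cond h0 (fun _ _ _ _ h => by simp only [h])
  have : Nonempty (Fin n) := ⟨⟨0, by omega⟩⟩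
  have htr := hTr Ω W β (Fin m → ℤ) (Fin n) p q V b (fun i w => V (o i w))
    (fun w => (y 0 w).1) δ' hp hq (by
      intro i z
      rw [← (hw.marg i).law (fun l => (b l, V l)) z]
      refine law_congr0 h0 ?_ z
      intro w hw'
      simp only [hb3 w hw' i]) (by
      rw [Fintype.card_fin]
      linarith)
    (fun _ v => rk (2 ^ a) (fun i j => (v i j : ℝ)) ≤ k) Qb hQb0 (by
      intro l hl
      have hz : law p b (b l) ≠ 0 := (law_pos hp.nonneg b hl).ne'
      have hcl : IsLaw (cond p b (b l)) := ⟨cond_nonneg hp.nonneg b _, sum_cond p b hz⟩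
      have h1 := qpr2_thm hL hR m n k Ω (cond p b (b l)) (fun ω j => (V ω j : ℝ)) (2 ^ a) ρ hcl
        (by positivity) hkn.le (hconc l hl)
      refine le_trans (Finset.sum_le_sum fun v _ => ?_) h1
      by_cases h : rk (2 ^ a) (fun i j => (V (v i) j : ℝ)) ≤ k
      · exact ((if_pos h).trans (if_pos h).symm).le
      · exact ((if_neg h).trans (if_neg h).symm).le)
  set P : ℝ := ∑ w, if rk (2 ^ a) (fun i j => (V (o i w) j : ℝ)) ≤ k then q w else 0 with hP
  have hPle : P ≤ (δ' + Real.log 2) / Real.log (1 / Qb) := by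
    rw [le_div_iff₀ hlog]
    refine le_trans (mul_le_mul_of_nonneg_right (Finset.sum_le_sum fun w _ => ?_) hlog.le) htr
    by_cases h : rk (2 ^ a) (fun i j => (V (o i w) j : ℝ)) ≤ k
    · exact ((if_pos h).trans (if_pos h).symm).le
    · exact ((if_neg h).trans (if_neg h).symm).le
  -- the mean rank
  have hrk : (k + 1) * (1 - P) ≤
      Ex q (fun w => (rk (2 ^ a) (fun i j => (V (o i w) j : ℝ)) : ℝ)) := by
    have h1 : Ex q (fun w => (k + 1) * (1 - (if rk (2 ^ a)
        (fun i j => (V (o i w) j : ℝ)) ≤ k then 1 else 0))) ≤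
        Ex q (fun w => (rk (2 ^ a) (fun i j => (V (o i w) j : ℝ)) : ℝ)) := by
      refine Ex_mono h0 fun w _ => ?_
      by_cases h : rk (2 ^ a) (fun i j => (V (o i w) j : ℝ)) ≤ k
      · rw [if_pos h]
        simp
      · rw [if_neg h]
        have : k + 1 ≤ rk (2 ^ a) (fun i j => (V (o i w) j : ℝ)) := by omega
        have h2 : ((k + 1 : ℕ) : ℝ) ≤ (rk (2 ^ a) (fun i j => (V (o i w) j : ℝ)) : ℝ) := by
          exact_mod_cast this
        push_cast at h2
        linarith
    refine le_trans (le_of_eq ?_) h1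
    rw [Ex_smul, Ex_sub, Ex_const hq.sum_one]
    congr 2
    rw [hP]
    unfold Ex
    refine Finset.sum_congr rfl fun w _ => ?_
    beta_reduce
    by_cases h : rk (2 ^ a) (fun i j => (V (o i w) j : ℝ)) ≤ k
    · rw [if_pos h, if_pos h, mul_one]
    · rw [if_neg h, if_neg h, mul_zero]
  have ha0 : (0 : ℝ) ≤ a * Real.log 2 := by positivity
  have h5 : (k + 1) * (a * Real.log 2) * (1 - (δ' + Real.log 2) / Real.log (1 / Qb)) ≤
      a * Real.log 2 * Ex q (fun w => (rk (2 ^ a) (fun i j => (V (o i w) j : ℝ)) : ℝ)) := by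
    have h6 := mul_le_mul_of_nonneg_left hrk ha0
    have h7 : (k + 1) * (a * Real.log 2) * (1 - (δ' + Real.log 2) / Real.log (1 / Qb)) ≤
        (k + 1) * (a * Real.log 2) * (1 - P) :=
      mul_le_mul_of_nonneg_left (by linarith) (by positivity)
    calc (k + 1) * (a * Real.log 2) * (1 - (δ' + Real.log 2) / Real.log (1 / Qb))
        ≤ (k + 1) * (a * Real.log 2) * (1 - P) := h7
      _ = a * Real.log 2 * ((k + 1) * (1 - P)) := by ring
      _ ≤ _ := h6
  linarith

end Pool.KSAT
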