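import Pool.Agent.H7.KSAT.Defs

/-!
# Saturation: product laws
-/

set_option autoImplicit false

namespace Pool.KSAT

open Finset Real
open Pool.Agent.H49.Ent Pool.Agent.H32.Dense Pool.STK

lemma un_law (τ : Type) [Fintype τ] [Nonempty τ] : IsLaw (un τ) := by
  constructor
  · intro _
    unfold un
    positivity
  · unfold un
    rw [Finset.sum_const, Finset.card_univ, nsmul_eq_mul]
    have : (Fintype.card τ : ℝ) ≠ 0 := by
      exact_mod_cast Fintype.card_ne_zero
    field_simp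

section Prod

variable {Ω Ω' : Type} [Fintype Ω] [Fintype Ω'] {S T U V : Type} {p : Ω → ℝ} {q : Ω' → ℝ}

lemma pr2_law (hp : IsLaw p) (hq : IsLaw q) : IsLaw (pr2 p q) :=
  (pr2_thm Ω Ω' Unit Unit p q hp hq).1

lemma pr2_fst (hp : IsLaw p) (hq : IsLaw q) : Marg (pr2 p q) p (fun w => w.1) :=
  (pr2_thm Ω Ω' Unit Unit p q hp hq).2.1

lemma pr2_snd (hp : IsLaw p) (hq : IsLaw q) : Marg (pr2 p q) q (fun w => w.2) :=
  (pr2_thm Ω Ω' Unit Unit p q hp hq).2.2.1

lemma H_pr2 (hp : IsLaw p) (hq : IsLaw q) (X : Ω → S) (Y : Ω' → T) :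
    H (pr2 p q) (fun w => (X w.1, Y w.2)) = H p X + H q Y :=
  (pr2_thm Ω Ω' S T p q hp hq).2.2.2 X Y

/-- Conditioning on an independent variable. -/
lemma CH_pr2_snd (hp : IsLaw p) (hq : IsLaw q) (X : Ω' → S) (Y : Ω' → T) (f : Ω → U) :
    CH (pr2 p q) (fun w => X w.2) (fun w => (Y w.2, f w.1)) = CH q X Y := by
  have h0 := (pr2_law hp hq).nonneg
  unfold CH
  have e1 : H (pr2 p q) (fun w => (X w.2, (Y w.2, f w.1))) =
      H (pr2 p q) (fun w => (f w.1, (X w.2, Y w.2))) := by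
    refine H_congr h0 ?_ ?_ <;>
    · intro ω ω' _ _ h
      simp only [Prod.mk.injEq] at h ⊢
      tauto
  have e2 : H (pr2 p q) (fun w => (Y w.2, f w.1)) =
      H (pr2 p q) (fun w => (f w.1, Y w.2)) := by
    refine H_congr h0 ?_ ?_ <;>
    · intro ω ω' _ _ h
      simp only [Prod.mk.injEq] at h ⊢
      tauto
  rw [e1, e2, H_pr2 hp hq f (fun w => (X w, Y w)), H_pr2 hp hq f Y]
  ring

/-- Conditioning on an independent variable. -/
lemma CH_pr2_fst (hp : IsLaw p) (hq : IsLaw q) (X : Ω → S) (Y : Ω → T) (f : Ω' → U) :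
    CH (pr2 p q) (fun w => X w.1) (fun w => (Y w.1, f w.2)) = CH p X Y := by
  have h0 := (pr2_law hp hq).nonneg
  unfold CH
  have e1 : H (pr2 p q) (fun w => (X w.1, (Y w.1, f w.2))) =
      H (pr2 p q) (fun w => ((X w.1, Y w.1), f w.2)) := by
    refine H_congr h0 ?_ ?_ <;>
    · intro ω ω' _ _ h
      simp only [Prod.mk.injEq] at h ⊢
      tauto
  rw [e1, H_pr2 hp hq (fun w => (X w, Y w)) f, H_pr2 hp hq Y f]
  ring

lemma marg_pr2 {Ω₁ Ω₂ : Type} [Fintype Ω₁] [Fintype Ω₂] {p₁ : Ω₁ → ℝ} {p₂ : Ω₂ → ℝ}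
    (hp : IsLaw p) {pr₁ : Ω → Ω₁} {pr₂ : Ω' → Ω₂}
    (h₁ : Marg p p₁ pr₁) (h₂ : Marg q p₂ pr₂) :
    Marg (pr2 p q) (pr2 p₁ p₂) (fun w => (pr₁ w.1, pr₂ w.2)) := by
  have hp1 : ∑ ω, p₁ ω = 1 := by rw [← h₁.sum]; exact hp.sum_one
  rw [PR2.pr2_eq_glue hp.sum_one, PR2.pr2_eq_glue hp1]
  exact Marg.glue (Z₁ := fun _ => ()) (Z₂ := fun _ => ()) h₁ h₂

/-- Entropy of a variable which depends on an independent parameter. -/
lemma H_avg (hp : IsLaw p) (hq : IsLaw q) (F : Ω' → Ω → S) :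
    H (pr2 p q) (fun w => (F w.2 w.1, w.2)) = H q (fun t => t) + ∑ t, q t * H p (F t) := by
  classical
  have hlaw : ∀ (l : Ω) (t : Ω'), law (pr2 p q) (fun w => (F w.2 w.1, w.2)) (F t l, t) =
      law p (F t) (F t l) * q t := by
    intro l t
    unfold law pr2
    rw [Fintype.sum_prod_type, Finset.sum_mul]
    refine Finset.sum_congr rfl fun l' _ => ?_
    rw [Finset.sum_eq_single t]
    · by_cases h : F t l' = F t l
      · simp [h]
      · simp [h]
    · intro t' _ ht'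
      simp [ht']
    · intro h
      exact absurd (Finset.mem_univ _) h
  have hq1 : ∀ t, law q (fun t => t) t = q t := by
    intro t
    unfold law
    simp
  unfold H
  simp only [Fintype.sum_prod_type, hlaw, hq1]
  have e1 : ∀ (l : Ω) (t : Ω'), pr2 p q (l, t) * Real.log (law p (F t) (F t l) * q t) =
      q t * (p l * Real.log (law p (F t) (F t l))) + p l * (q t * Real.log (q t)) := by
    intro l t
    unfold pr2
    rcases (hp.nonneg l).eq_or_lt with h0 | h0
    · simp [← h0]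
    · rcases (hq.nonneg t).eq_or_lt with h1 | h1
      · simp [← h1]
      · rw [Real.log_mul (law_pos hp.nonneg _ h0).ne' h1.ne']
        ring
  simp only [e1, Finset.sum_add_distrib]
  rw [Finset.sum_comm]
  have e2 : ∑ l, ∑ t, p l * (q t * Real.log (q t)) = ∑ t, q t * Real.log (q t) := by
    rw [← Finset.sum_mul_sum, hp.sum_one, one_mul]
  rw [e2]
  have e3 : ∀ t, ∑ l, q t * (p l * Real.log (law p (F t) (F t l))) =
      -(q t * -∑ l, p l * Real.log (law p (F t) (F t l))) := by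
    intro t
    rw [← Finset.mul_sum]
    ring
  simp only [e3]
  rw [Finset.sum_neg_distrib]
  ring

/-- Conditional entropy of a variable which depends on an independent parameter. -/
lemma CH_avg (hp : IsLaw p) (hq : IsLaw q) (F : Ω' → Ω → S) (G : Ω' → Ω → T) :
    CH (pr2 p q) (fun w => F w.2 w.1) (fun w => (G w.2 w.1, w.2)) =
      ∑ t, q t * CH p (F t) (G t) := by
  have h0 := (pr2_law hp hq).nonneg
  unfold CH
  have e1 : H (pr2 p q) (fun w => (F w.2 w.1, (G w.2 w.1, w.2))) =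
      H (pr2 p q) (fun w => ((F w.2 w.1, G w.2 w.1), w.2)) := by
    refine H_congr h0 ?_ ?_ <;>
    · intro ω ω' _ _ h
      simp only [Prod.mk.injEq] at h ⊢
      tauto
  rw [e1, H_avg hp hq (fun t l => (F t l, G t l)), H_avg hp hq G]
  simp only [mul_sub, Finset.sum_sub_distrib]
  ring

end Prod

lemma H_un (τ : Type) [Fintype τ] [Nonempty τ] :
    H (un τ) (fun t => t) = Real.log (Fintype.card τ) :=
  H_uniform (Ω := τ) (X := fun t => t) (fun _ _ h => h)

end Pool.KSAT
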