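import Pool.Agent.H7.KSAT.Count

/-!
# Saturation: counting increments of time and end points
-/

set_option autoImplicit false

namespace Pool.KSAT

open Finset Real
open Pool.Agent.H49.Ent Pool.Agent.H32.Dense Pool.STK

section Count2

variable {n m k K a : ℕ} {Dv : Fin n → Fin m → ℤ} {I : Fin k → Fin n} {κ : Fin k → Fin m}

/-- Counting the times. -/
lemma fib_count2 (hFib : FibStmt) (hI : Function.Injective I)
    (hdet : (mn (rv Dv) I κ).det ≠ 0) (hD : ∀ i j, |(Dv i j : ℝ)| ≤ 3 * 2 ^ K)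
    (S : Finset (Fin n → ℤ)) (y : Fin m → ℝ)
    (hS : ∀ j ∈ S, ∀ i : Fin m, |y i - ∑ i', (j i' : ℝ) * Dv i' i| ≤
      4 * n * 2 ^ K)
    (hoff : ∀ j ∈ S, ∀ j' ∈ S, ∀ i, i ∉ Set.range I → j i = j' i) :
    (S.card : ℝ) * |(mn (rv Dv) I κ).det| ≤ (2 ^ K) ^ k * (2 * (4 * n + 3 * k)) ^ k := by
  classical
  rcases S.eq_empty_or_nonempty with hemp | ⟨jr, hjr⟩
  · rw [hemp]
    simp only [Finset.card_empty, Nat.cast_zero, zero_mul]
    positivity
  set g : (Fin n → ℤ) → (Fin k → ℤ) := fun j l => j (I l) with hg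
  have hinj : Set.InjOn g S := by
    intro j hj j' hj' h
    funext i
    by_cases hi : i ∈ Set.range I
    · obtain ⟨l, rfl⟩ := hi
      exact congrFun h l
    · exact hoff j hj j' hj' i hi
  have hcard : (S.image g).card = S.card := Finset.card_image_of_injOn hinj
  have key := hFib k (mn (rv Dv) I κ)
    (fun i => y (κ i) - ∑ i', (if i' ∈ Set.range I then 0 else
      (jr i' : ℝ) * Dv i' (κ i))) (4 * n * 2 ^ K) (3 * 2 ^ K)
    (by positivity) (by positivity) (fun i j => hD _ _) hdet (S.image g) (by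
      intro z hz i
      obtain ⟨j, hj, rfl⟩ := Finset.mem_image.mp hz
      have h1 := hS j hj (κ i)
      rw [sum_split hI] at h1
      have h2 : ∑ i', (if i' ∈ Set.range I then 0 else (j i' : ℝ) * Dv i' (κ i)) =
          ∑ i', (if i' ∈ Set.range I then 0 else (jr i' : ℝ) * Dv i' (κ i)) := by
        refine Finset.sum_congr rfl fun i' _ => ?_
        split_ifs with h
        · rfl
        · rw [hoff j hj jr hjr i' h]
      rw [h2] at h1
      have h3 : ∑ l, mn (rv Dv) I κ i l * (g j l : ℝ) =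
          ∑ l, (j (I l) : ℝ) * Dv (I l) (κ i) := by
        refine Finset.sum_congr rfl fun l _ => ?_
        simp only [mn, rv, Matrix.of_apply, hg]
        ring
      rw [h3]
      rw [abs_sub_comm] at h1
      refine le_trans (le_of_eq ?_) h1
      congr 1
      ring)
  rw [hcard] at key
  refine key.trans (le_of_eq ?_)
  rw [← mul_pow]
  congr 1
  ring

/-- The condition on the end points. -/
def EndPt2 (n m K : ℕ) (Dv : Fin n → Fin m → ℤ) (x0 x1 : Fin m → ℤ)
    (j : Fin n → ℤ) : Prop :=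
  ∀ i, |2 ^ K * ((x1 i : ℝ) - x0 i) - ∑ i', (j i' : ℝ) * Dv i' i| ≤ 4 * n * 2 ^ K

/-- The cells of two end points. -/
lemma cell_near2 (hI : Function.Injective I) (hkm : k ≤ m)
    (hcoef : ∀ j : Fin m, ∃ c : Fin k → ℝ, (∀ i, |c i| ≤ 1) ∧
      ∀ s : Fin k → ℝ, ∑ l, s l * rv Dv (I l) j = ∑ i, c i * ∑ l, s l * rv Dv (I l) (κ i))
    {x0 x1 x1' : Fin m → ℤ} {j j' : Fin n → ℤ}
    (hoff : ∀ i, i ∉ Set.range I → j i = j' i) (h1 : EndPt2 n m K Dv x0 x1 j)
    (h2 : EndPt2 n m K Dv x0 x1' j') (hκ : ∀ i, x1 (κ i) / 2 ^ a = x1' (κ i) / 2 ^ a)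
    (i : Fin m) :
    |((x1 i / 2 ^ a : ℤ) : ℝ) - ((x1' i / 2 ^ a : ℤ) : ℝ)| ≤ m * (1 + 8 * n) + 8 * n + 1 := by
  classical
  have hK : (0 : ℝ) < 2 ^ K := by positivity
  have ha1 : (1 : ℝ) ≤ 2 ^ a := one_le_pow₀ (by norm_num)
  set s : Fin k → ℝ := fun l => (j (I l) : ℝ) - (j' (I l) : ℝ) with hs
  -- difference of the two conditions
  have hdiff : ∀ i, |2 ^ K * ((x1 i : ℝ) - x1' i) - ∑ l, s l * rv Dv (I l) i| ≤
      8 * n * 2 ^ K := by
    intro i
    have a1 := h1 i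
    have a2 := h2 i
    rw [sum_split hI] at a1 a2
    have e : ∑ i', (if i' ∈ Set.range I then 0 else (j i' : ℝ) * Dv i' i) =
        ∑ i', (if i' ∈ Set.range I then 0 else (j' i' : ℝ) * Dv i' i) := by
      refine Finset.sum_congr rfl fun i' _ => ?_
      split_ifs with h
      · rfl
      · rw [hoff i' h]
    rw [e] at a1
    have e2 : ∑ l, s l * rv Dv (I l) i =
        ∑ l, (j (I l) : ℝ) * Dv (I l) i -
          ∑ l, (j' (I l) : ℝ) * Dv (I l) i := by
      rw [← Finset.sum_sub_distrib]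
      refine Finset.sum_congr rfl fun l _ => ?_
      simp only [hs, rv]
      ring
    rw [e2]
    rw [abs_le] at a1 a2 ⊢
    constructor <;> linarith [a1.1, a1.2, a2.1, a2.2]
  obtain ⟨c, hc1, hc2⟩ := hcoef i
  have b1 := hdiff i
  rw [hc2 s] at b1
  have b2 : |∑ i', c i' * ∑ l, s l * rv Dv (I l) (κ i')| ≤
      ∑ _i' : Fin k, ((1 : ℝ) * (2 ^ K * 2 ^ a + 8 * n * 2 ^ K)) := by
    refine (Finset.abs_sum_le_sum_abs _ _).trans (Finset.sum_le_sum fun i' _ => ?_)
    rw [abs_mul]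
    refine mul_le_mul (hc1 i') ?_ (abs_nonneg _) (by norm_num)
    have b3 := hdiff (κ i')
    have b4 := ediv_near (hκ i')
    rw [abs_le] at b3 b4 ⊢
    constructor <;> nlinarith [b3.1, b3.2, b4.1, b4.2]
  rw [Finset.sum_const, Finset.card_univ, Fintype.card_fin, nsmul_eq_mul] at b2
  have b5 : |(x1 i : ℝ) - x1' i| ≤ (m * (1 + 8 * n) + 8 * n) * 2 ^ a := by
    have b6 : |2 ^ K * ((x1 i : ℝ) - x1' i)| ≤
        k * (1 * (2 ^ K * 2 ^ a + 8 * n * 2 ^ K)) + 8 * n * 2 ^ K := by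
      rw [abs_le] at b1 b2 ⊢
      constructor <;> linarith [b1.1, b1.2, b2.1, b2.2]
    have hkm' : (k : ℝ) ≤ m := by exact_mod_cast hkm
    have b7 : (k : ℝ) * (1 * (2 ^ K * 2 ^ a + 8 * n * 2 ^ K)) + 8 * n * 2 ^ K ≤
        2 ^ K * ((m * (1 + 8 * n) + 8 * n) * 2 ^ a) := by
      have c1 : (k : ℝ) * (1 * (2 ^ K * 2 ^ a + 8 * n * 2 ^ K)) ≤
          m * (1 * (2 ^ K * 2 ^ a + 8 * n * 2 ^ K)) :=
        mul_le_mul_of_nonneg_right hkm' (by positivity)
      have c2 : (8 * n * 2 ^ K : ℝ) ≤ 8 * n * 2 ^ K * 2 ^ a :=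
        le_mul_of_one_le_right (by positivity) ha1
      have c3 : (m : ℝ) * (8 * n * 2 ^ K) ≤ m * (8 * n * 2 ^ K * 2 ^ a) :=
        mul_le_mul_of_nonneg_left c2 (by positivity)
      nlinarith [c1, c2, c3]
    rw [abs_mul, abs_of_pos hK] at b6
    exact le_of_mul_le_mul_left (b6.trans b7) hK
  exact ediv_sub b5

/-- Counting the cells of the end points. -/
lemma img_count2 (hImg : ImgStmt) (hI : Function.Injective I)
    (hdet : (mn (rv Dv) I κ).det ≠ 0)
    (hadj : ∀ i j, |(mn (rv Dv) I κ).adjugate i j| * 2 ^ a ≤ |(mn (rv Dv) I κ).det|)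
    (hkm : k ≤ m)
    (hcoef : ∀ j : Fin m, ∃ c : Fin k → ℝ, (∀ i, |c i| ≤ 1) ∧
      ∀ s : Fin k → ℝ, ∑ l, s l * rv Dv (I l) j = ∑ i, c i * ∑ l, s l * rv Dv (I l) (κ i))
    (S : Finset (Fin m → ℤ)) (x0 : Fin m → ℤ) (jo : Fin n → ℤ)
    (hS : ∀ z ∈ S, ∃ (j : Fin n → ℤ) (x1 : Fin m → ℤ), (∀ i, |(j i : ℝ)| ≤ 2 ^ K) ∧
      z = (fun i => x1 i / 2 ^ a) ∧ (∀ i, i ∉ Set.range I → j i = jo i) ∧
      EndPt2 n m K Dv x0 x1 j) :
    (S.card : ℝ) * (2 ^ a) ^ k ≤ (2 * ((m * (1 + 8 * n) + 8 * n + 1 : ℕ) : ℝ) + 1) ^ m *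
      ((2 * (1 + m * (4 * n + 2))) ^ m * |(mn (rv Dv) I κ).det|) := by
  classical
  have hK : (0 : ℝ) < 2 ^ K := by positivity
  have ha1 : (1 : ℝ) ≤ 2 ^ a := one_le_pow₀ (by norm_num)
  set E : ℕ := m * (1 + 8 * n) + 8 * n + 1 with hE
  set f : (Fin m → ℤ) → (Fin k → ℤ) := fun z i => z (κ i) with hf
  have h1 : S.card ≤ (2 * E + 1) ^ m * (S.image f).card := by
    refine Finset.card_le_mul_card_image _ _ ?_
    intro v hv
    obtain ⟨z0, hz0, rfl⟩ := Finset.mem_image.mp hv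
    have hsub : S.filter (fun z => f z = f z0) ⊆
        Fintype.piFinset fun i => Finset.Icc (z0 i - (E : ℤ)) (z0 i + (E : ℤ)) := by
      intro z hz
      obtain ⟨hz1, hz2⟩ := Finset.mem_filter.mp hz
      obtain ⟨j, x1, _, e1, o1, p1⟩ := hS z hz1
      obtain ⟨j', x1', _, e2, o2, p2⟩ := hS z0 hz0
      rw [Fintype.mem_piFinset]
      intro i
      have hn := cell_near2 (a := a) hI hkm hcoef (j := j) (j' := j')
        (fun i hi => (o1 i hi).trans (o2 i hi).symm) p1 p2 (fun i => by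
          have := congrFun hz2 i
          rw [e1, e2] at this
          exact this) i
      have hn' : |z i - z0 i| ≤ (E : ℤ) := by
        have : |((z i - z0 i : ℤ) : ℝ)| ≤ (E : ℝ) := by
          rw [e1, e2, hE]
          push_cast
          exact hn
        exact_mod_cast this
      rw [abs_le] at hn'
      rw [Finset.mem_Icc]
      constructor <;> linarith [hn'.1, hn'.2]
    refine (Finset.card_le_card hsub).trans (le_of_eq ?_)
    rw [Fintype.card_piFinset]
    have : ∀ i, (Finset.Icc (z0 i - (E : ℤ)) (z0 i + (E : ℤ))).card = 2 * E + 1 := by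
      intro i
      rw [Int.card_Icc]
      have : z0 i + (E : ℤ) + 1 - (z0 i - (E : ℤ)) = ((2 * E + 1 : ℕ) : ℤ) := by
        push_cast; ring
      rw [this, Int.toNat_natCast]
    simp [this]
  have h2 := hImg k (mn (rv Dv) I κ)
    (fun i => (x0 (κ i) : ℝ) + (∑ i', (if i' ∈ Set.range I then 0 else
      (jo i' : ℝ) * Dv i' (κ i))) / 2 ^ K) (2 ^ a) (4 * n + 1)
    (by positivity) (by positivity) hadj hdet (S.image f) (by
      intro v hv
      obtain ⟨z, hz, rfl⟩ := Finset.mem_image.mp hv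
      obtain ⟨j, x1, hj1, e1, o1, p1⟩ := hS z hz
      refine ⟨fun l => (j (I l) : ℝ) / 2 ^ K, ?_, ?_⟩
      · intro l
        rw [abs_div, abs_of_pos hK, div_le_one hK]
        exact hj1 (I l)
      · intro i
        have r1 := p1 (κ i)
        rw [sum_split hI] at r1
        have e : ∑ i', (if i' ∈ Set.range I then 0 else
            (j i' : ℝ) * Dv i' (κ i)) =
            ∑ i', (if i' ∈ Set.range I then 0 else
              (jo i' : ℝ) * Dv i' (κ i)) := by
          refine Finset.sum_congr rfl fun i' _ => ?_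
          split_ifs with h
          · rfl
          · rw [o1 i' h]
        rw [e] at r1
        have r2 := ediv_mul_near (a := a) (x1 (κ i))
        have r3 : ∑ l, mn (rv Dv) I κ i l * ((j (I l) : ℝ) / 2 ^ K) =
            (∑ l, (j (I l) : ℝ) * Dv (I l) (κ i)) / 2 ^ K := by
          rw [Finset.sum_div]
          refine Finset.sum_congr rfl fun l _ => ?_
          simp only [mn, rv, Matrix.of_apply]
          ring
        rw [r3, e1]
        simp only [hf]
        set S1 := ∑ l, (j (I l) : ℝ) * (Dv (I l) (κ i) : ℝ)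
        set S2 := ∑ i', (if i' ∈ Set.range I then (0 : ℝ) else
              (jo i' : ℝ) * Dv i' (κ i))
        have r4 : |((x1 (κ i) : ℝ) - x0 (κ i)) - (S1 + S2) / 2 ^ K| ≤ 4 * n := by
          have : ((x1 (κ i) : ℝ) - x0 (κ i)) - (S1 + S2) / 2 ^ K =
              (2 ^ K * ((x1 (κ i) : ℝ) - x0 (κ i)) - (S1 + S2)) / 2 ^ K := by
            field_simp
          rw [this, abs_div, abs_of_pos hK, div_le_iff₀ hK]
          exact r1
        have r5 : (S1 + S2) / 2 ^ K = S1 / 2 ^ K + S2 / 2 ^ K := add_div _ _ _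
        rw [r5] at r4
        have r6 : (4 * n : ℝ) ≤ 4 * n * 2 ^ a := le_mul_of_one_le_right (by positivity) ha1
        rw [abs_le] at r2 r4 ⊢
        constructor <;> linarith [r2.1, r2.2, r4.1, r4.2, r6])
  have h3 : (2 * (1 + (k : ℝ) * ((4 * n + 1) + 1))) ^ k ≤ (2 * (1 + m * (4 * n + 2))) ^ m := by
    have hkm' : (k : ℝ) ≤ m := by exact_mod_cast hkm
    have g1 : (2 * (1 + (k : ℝ) * ((4 * n + 1) + 1))) ≤ (2 * (1 + m * (4 * n + 2))) := by
      have : (k : ℝ) * ((4 * n + 1) + 1) ≤ m * (4 * n + 2) := by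
        have := mul_le_mul_of_nonneg_right hkm' (show (0 : ℝ) ≤ 4 * n + 2 by positivity)
        linarith
      linarith
    have g2 : (1 : ℝ) ≤ 2 * (1 + m * (4 * n + 2)) := by
      have : (0 : ℝ) ≤ m * (4 * n + 2) := by positivity
      linarith
    calc (2 * (1 + (k : ℝ) * ((4 * n + 1) + 1))) ^ k ≤ (2 * (1 + m * (4 * n + 2))) ^ k :=
          pow_le_pow_left₀ (by positivity) g1 k
      _ ≤ _ := pow_le_pow_right₀ g2 hkm
  have h1' : (S.card : ℝ) ≤ (2 * (E : ℝ) + 1) ^ m * ((S.image f).card : ℝ) := by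
    exact_mod_cast h1
  calc (S.card : ℝ) * (2 ^ a) ^ k ≤ ((2 * (E : ℝ) + 1) ^ m * ((S.image f).card : ℝ)) * (2 ^ a) ^ k :=
        mul_le_mul_of_nonneg_right h1' (by positivity)
    _ = (2 * (E : ℝ) + 1) ^ m * (((S.image f).card : ℝ) * (2 ^ a) ^ k) := by ring
    _ ≤ (2 * (E : ℝ) + 1) ^ m * ((2 * (1 + k * ((4 * n + 1) + 1))) ^ k *
          |(mn (rv Dv) I κ).det|) := mul_le_mul_of_nonneg_left h2 (by positivity)
    _ ≤ _ := by
      refine mul_le_mul_of_nonneg_left ?_ (by positivity)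
      exact mul_le_mul_of_nonneg_right h3 (abs_nonneg _)

end Count2

end Pool.KSAT
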