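import Pool.Agent.H72.STK.PR2

/-!
# Saturation by chains of crossing lines: definitions and statements

Lines are the points of a finite probability space `(Ω, p)`, `b` is a label of the line, `D l`
is its velocity and `X t l` its position at the time `t`, with times in a finite set `τ` with the
uniform law. The only geometric hypothesis is that the position at one time and the velocity
determine the position at another time, up to entropy `c`.
-/

set_option autoImplicit false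

namespace Pool.KSAT

open Finset Real
open Pool.Agent.H49.Ent Pool.Agent.H32.Dense Pool.STK

/-- The uniform law. -/
noncomputable def un (τ : Type) [Fintype τ] (_ : τ) : ℝ := (Fintype.card τ : ℝ)⁻¹

/-- The law of a line and an independent uniform time. -/
noncomputable def pt1 {Ω τ : Type} [Fintype τ] (p : Ω → ℝ) : Ω × τ → ℝ := pr2 p (un τ)

/-- The label, the time and the position. -/
def lab {Ω τ β G : Type} (X : τ → Ω → G) (b : Ω → β) (w : Ω × τ) : β × τ × G :=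
  (b w.1, w.2, X w.2 w.1)

/-- Mean entropy of the position given the label. -/
noncomputable def hX {Ω τ β G : Type} [Fintype Ω] [Fintype τ] (p : Ω → ℝ) (X : τ → Ω → G)
    (b : Ω → β) : ℝ :=
  CH (pt1 (τ := τ) p) (fun w => X w.2 w.1) (fun w => (b w.1, w.2))

/-- Mean entropy of the position given the label and the velocity. -/
noncomputable def hXD {Ω τ β E G : Type} [Fintype Ω] [Fintype τ] (p : Ω → ℝ) (X : τ → Ω → G)
    (D : Ω → E) (b : Ω → β) : ℝ :=
  CH (pt1 (τ := τ) p) (fun w => X w.2 w.1) (fun w => (D w.1, b w.1, w.2))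

/-- Mean information of the position on the velocity, given the label. -/
noncomputable def epsX {Ω τ β E G : Type} [Fintype Ω] [Fintype τ] (p : Ω → ℝ) (X : τ → Ω → G)
    (D : Ω → E) (b : Ω → β) : ℝ := hX p X b - hXD p X D b

/-- The position at one time and the velocity determine the position at another time up to
entropy `c`. -/
def Moves {Ω τ E G : Type} [Fintype Ω] (p : Ω → ℝ) (X : τ → Ω → G) (D : Ω → E) (c : ℝ) : Prop :=
  ∀ t t' : τ, CH p (X t') (fun l => (X t l, D l)) ≤ c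

/-- A chain of `n` pairs of crossing lines: at the time `s i` the lines `L i` and `L' i` have the
same position, at the time `t0` the position of the lines `L' i` and `L (i+1)` is the same, and
all lines have the same label. -/
structure IsChain {Ω τ β G W : Type} [Fintype Ω] [Fintype W] (p : Ω → ℝ) (X : τ → Ω → G)
    (b : Ω → β) (q : W → ℝ) {n : ℕ} (L L' : Fin n → W → Ω) (s : Fin n → W → τ) (t0 : W → τ)
    (x : Fin (n + 1) → W → G) (b0 : W → β) : Prop where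
  isLaw : IsLaw q
  marg : ∀ i, Marg q p (L i)
  marg' : ∀ i, Marg q p (L' i)
  labL : ∀ w, 0 < q w → ∀ i, b (L i w) = b0 w
  labL' : ∀ w, 0 < q w → ∀ i, b (L' i w) = b0 w
  cross : ∀ w, 0 < q w → ∀ i, X (s i w) (L i w) = X (s i w) (L' i w)
  start : ∀ w, 0 < q w → ∀ i : Fin n, X (t0 w) (L i w) = x i.castSucc w
  stop : ∀ w, 0 < q w → ∀ i : Fin n, X (t0 w) (L' i w) = x i.succ w

/-- The step: crossing lines have nearly independent times and velocities. -/
def StepStmt : Prop :=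
  ∀ (Ω τ β E G : Type) [Fintype Ω] [Fintype τ] [Nonempty τ] (p : Ω → ℝ) (X : τ → Ω → G)
    (D : Ω → E) (b : Ω → β) (c : ℝ), IsLaw p → Moves p X D c →
    Real.log (Fintype.card τ) + 2 * CH p D b - (4 * epsX p X D b + c) ≤
      CH (pr2 (un τ) (dbl (pt1 (τ := τ) p) (lab X b)))
        (fun w => (w.2.1.2, D w.2.1.1, D w.2.2.1))
        (fun w => (b w.2.1.1, w.1, X w.1 w.2.1.1))

/-- The chain of crossing lines. -/
def ChainStmt : Prop :=
  ∀ (Ω τ β E G : Type) [Fintype Ω] [Fintype τ] [Nonempty τ] (p : Ω → ℝ) (X : τ → Ω → G)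
    (D : Ω → E) (b : Ω → β) (c : ℝ), IsLaw p → Moves p X D c → ∀ n : ℕ,
    ∃ (W : Type) (_ : Fintype W) (q : W → ℝ) (L L' : Fin n → W → Ω) (s : Fin n → W → τ)
      (t0 : W → τ) (x : Fin (n + 1) → W → G) (b0 : W → β),
      IsChain p X b q L L' s t0 x b0 ∧
      (∀ i z, law q (fun w => (b0 w, t0 w, x i w)) z = law (pt1 (τ := τ) p) (lab X b) z) ∧
      n * (Real.log (Fintype.card τ) + 2 * CH p D b - (4 * epsX p X D b + c)) ≤
        CH q (fun w i => (s i w, D (L i w), D (L' i w))) (fun w => (b0 w, t0 w, x 0 w))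

/-- Transfer to independent copies: if the variables `Y i` have the law of `D` given the label
and are independent up to entropy `δ`, an event of small probability for the product law has
small probability. -/
def TransferStmt : Prop :=
  ∀ (Ω W β E ι : Type) [Fintype Ω] [Fintype W] [Fintype ι] [Nonempty ι] [DecidableEq ι]
    (p : Ω → ℝ) (q : W → ℝ) (D : Ω → E) (b : Ω → β) (Y : ι → W → E) (b0 : W → β) (δ : ℝ),
    IsLaw p → IsLaw q →
    (∀ i z, law q (fun w => (b0 w, Y i w)) z = law p (fun l => (b l, D l)) z) →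
    Fintype.card ι * CH p D b - δ ≤ CH q (fun w i => Y i w) b0 →
    ∀ (A : β → (ι → E) → Prop) (Q : ℝ), 0 < Q →
      (∀ l, 0 < p l → (∑ v : ι → Ω, open Classical in
        if A (b l) (fun i => D (v i)) then ∏ i, cond p b (b l) (v i) else 0) ≤ Q) →
      (∑ w, open Classical in if A (b0 w) (fun i => Y i w) then q w else 0) *
        Real.log (1 / Q) ≤ δ + Real.log 2

/-! ### Linear algebra and counting -/

/-- The square matrix with columns the vectors `Δ (I j)`, restricted to the coordinates `κ i`. -/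
def mn {n m k : ℕ} (Δ : Fin n → Fin m → ℝ) (I : Fin k → Fin n) (κ : Fin k → Fin m) :
    Matrix (Fin k) (Fin k) ℝ := Matrix.of fun i j => Δ (I j) (κ i)

/-- The minor with indices `I`, `κ` is maximal at scale `r` among the minors of all sizes. -/
def IsMax {n m : ℕ} (r : ℝ) (Δ : Fin n → Fin m → ℝ) (k : ℕ) (I : Fin k → Fin n)
    (κ : Fin k → Fin m) : Prop :=
  ∀ (k' : ℕ) (I' : Fin k' → Fin n) (κ' : Fin k' → Fin m),
    |(mn Δ I' κ').det| * r ^ k ≤ |(mn Δ I κ).det| * r ^ k'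

open Classical in
/-- The rank at scale `r` of a family of vectors: the size of a maximal minor at scale `r`. -/
noncomputable def rk {n m : ℕ} (r : ℝ) (Δ : Fin n → Fin m → ℝ) : ℕ :=
  if h : ∃ k, ∃ (I : Fin k → Fin n) (κ : Fin k → Fin m), IsMax r Δ k I κ then Nat.find h else 0

/-- The rank is attained. -/
def RkStmt : Prop :=
  ∀ (n m : ℕ) (r : ℝ) (Δ : Fin n → Fin m → ℝ), 0 < r → rk r Δ ≤ n ∧ rk r Δ ≤ m ∧
    ∃ (I : Fin (rk r Δ) → Fin n) (κ : Fin (rk r Δ) → Fin m), IsMax r Δ (rk r Δ) I κ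

/-- Consequences of maximality. -/
def LinStmt : Prop :=
  ∀ (n m k : ℕ) (r : ℝ) (Δ : Fin n → Fin m → ℝ) (I : Fin k → Fin n) (κ : Fin k → Fin m),
    0 < r → IsMax r Δ k I κ →
    (mn Δ I κ).det ≠ 0 ∧ Function.Injective I ∧ Function.Injective κ ∧
    (∀ i j, |(mn Δ I κ).adjugate i j| * r ≤ |(mn Δ I κ).det|) ∧
    (∀ j : Fin m, ∃ c : Fin k → ℝ, (∀ i, |c i| ≤ 1) ∧
      ∀ s : Fin k → ℝ, ∑ l, s l * Δ (I l) j = ∑ i, c i * ∑ l, s l * Δ (I l) (κ i)) ∧
    (∀ i : Fin n, ∃ c : Fin k → ℝ, (∀ l, |c l| ≤ 1) ∧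
      ∀ j : Fin m, |Δ i j - ∑ l, c l * Δ (I l) j| ≤ r)

/-- Integer points in a parallelepiped. -/
def FibStmt : Prop :=
  ∀ (k : ℕ) (M : Matrix (Fin k) (Fin k) ℝ) (y : Fin k → ℝ) (R B : ℝ), 0 ≤ R → 0 ≤ B →
    (∀ i j, |M i j| ≤ B) → M.det ≠ 0 → ∀ F : Finset (Fin k → ℤ),
    (∀ z ∈ F, ∀ i, |∑ l, M i l * (z l : ℝ) - y i| ≤ R) →
    (F.card : ℝ) * |M.det| ≤ (2 * (R + k * B)) ^ k

/-- Cells met by a parallelepiped which is wide in all directions. -/
def ImgStmt : Prop :=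
  ∀ (k : ℕ) (M : Matrix (Fin k) (Fin k) ℝ) (y : Fin k → ℝ) (r ρ : ℝ), 0 < r → 0 ≤ ρ →
    (∀ i j, |M.adjugate i j| * r ≤ |M.det|) → M.det ≠ 0 → ∀ F : Finset (Fin k → ℤ),
    (∀ z ∈ F, ∃ s : Fin k → ℝ, (∀ l, |s l| ≤ 1) ∧
      ∀ i, |r * (z i : ℝ) - ∑ l, M i l * s l - y i| ≤ ρ * r) →
    (F.card : ℝ) * r ^ k ≤ (2 * (1 + k * (ρ + 1))) ^ k * |M.det|

/-- The entropy of the end point given its coarse position, from the entropy of the times. -/
def CntStmt : Prop :=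
  ∀ m n : ℕ, ∃ C : ℝ, 0 ≤ C ∧ ∀ (W β : Type) [Fintype W] (q : W → ℝ)
    (Δ : W → Fin n → Fin m → ℤ) (K a : ℕ) (js : W → Fin n → Fin (2 ^ K))
    (j0 : W → Fin (2 ^ K)) (x0 x1 : W → Fin m → ℤ) (b0 : W → β) (δ : ℝ),
    IsLaw q → a ≤ K → (∀ w i j, |(Δ w i j : ℝ)| ≤ 3 * 2 ^ K) →
    (∀ w, 0 < q w → ∀ j, |2 ^ K * ((x1 w j : ℝ) - x0 w j) -
      ∑ i, (((j0 w : ℕ) : ℝ) - ((js w i : ℕ) : ℝ)) * Δ w i j| ≤ 4 * n * 2 ^ K) →
    n * (K * Real.log 2) - δ ≤ CH q js (fun w => (Δ w, b0 w, j0 w, x0 w)) →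
    a * Real.log 2 * Ex q (fun w => (rk (2 ^ a) (fun i j => (Δ w i j : ℝ)) : ℝ)) - δ - C ≤
      CH q x1 (fun w => ((fun j => x1 w j / 2 ^ a), b0 w, j0 w))

/-! ### The geometric statements -/

/-- The times. -/
noncomputable def tm (K : ℕ) (j : Fin (2 ^ K)) : ℝ := ((j : ℕ) : ℝ) / 2 ^ K

/-- The rounded position. -/
noncomputable def XX {Ω : Type} {m : ℕ} (u d : Ω → Fin m → ℝ) (K r : ℕ) (j : Fin (2 ^ K)) :
    Ω → Fin m → ℤ := Xp u d (tm K j) r

/-- Rounding facts. -/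
def GeoStmt : Prop :=
  ∀ (m K : ℕ) (Ω : Type) (u d : Ω → Fin m → ℝ), (∀ l i, |d l i| ≤ 1) →
    (∀ a ≤ K, ∀ (j : Fin (2 ^ K)) (l : Ω) (i : Fin m),
      XX u d K (K - a) j l i = XX u d K K j l i / 2 ^ a) ∧
    (∀ (s t : Fin (2 ^ K)) (l l' : Ω), XX u d K K s l = XX u d K K s l' → ∀ i,
      |2 ^ K * ((XX u d K K t l' i : ℝ) - XX u d K K t l i) -
        (((t : ℕ) : ℝ) - ((s : ℕ) : ℝ)) * ((Fl d K l' i : ℝ) - Fl d K l i)| ≤ 4 * 2 ^ K) ∧
    (∀ (l l' : Ω) (i : Fin m), |(Fl d K l' i : ℝ) - Fl d K l i| ≤ 3 * 2 ^ K) ∧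
    (∀ (l : Ω) (i : Fin m), |(Fl d K l i : ℝ) - 2 ^ K * d l i| ≤ 1) ∧
    (∀ [Fintype Ω] (p : Ω → ℝ), IsLaw p → Moves p (XX u d K K) (Fl d K) (cc m))

/-- Mean information of the position on the velocity given the label. -/
noncomputable def epsK {Ω β : Type} [Fintype Ω] {m : ℕ} (p : Ω → ℝ) (u d : Ω → Fin m → ℝ)
    (b : Ω → β) (K : ℕ) : ℝ := epsX p (XX u d K K) (Fl d K) b

/-- Mean entropy of the last `a` digits of the position. -/
noncomputable def hKa {Ω β : Type} [Fintype Ω] {m : ℕ} (p : Ω → ℝ) (u d : Ω → Fin m → ℝ)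
    (b : Ω → β) (K a : ℕ) : ℝ :=
  CH (pt1 (τ := Fin (2 ^ K)) p) (fun w => XX u d K K w.2 w.1)
    (fun w => (XX u d K (K - a) w.2 w.1, b w.1, w.2))

/-- Saturation with the rank of the chain. -/
def SatStmt : Prop :=
  ∀ m n : ℕ, ∃ C : ℝ, 0 ≤ C ∧ ∀ (Ω β : Type) [Fintype Ω] (p : Ω → ℝ) (u d : Ω → Fin m → ℝ)
    (b : Ω → β) (K a : ℕ), IsLaw p → (∀ l i, |d l i| ≤ 1) → a ≤ K →
    ∃ (W : Type) (_ : Fintype W) (q : W → ℝ) (L L' : Fin n → W → Ω)
      (s : Fin n → W → Fin (2 ^ K)) (t0 : W → Fin (2 ^ K)) (x : Fin (n + 1) → W → Fin m → ℤ)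
      (b0 : W → β),
      IsChain p (XX u d K K) b q L L' s t0 x b0 ∧
      2 * n * CH p (Fl d K) b - n * (4 * epsK p u d b K + cc m) ≤
        CH q (fun w i => (Fl d K (L i w), Fl d K (L' i w))) b0 ∧
      a * Real.log 2 * Ex q (fun w => (rk (2 ^ a)
        (fun i j => (Fl d K (L' i w) j : ℝ) - Fl d K (L i w) j) : ℝ)) -
          n * (4 * epsK p u d b K + cc m) - C ≤ hKa p u d b K a

open Classical in
/-- Families of independent differences seldom have small rank. -/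
def QprStmt : Prop :=
  ∀ (m n k : ℕ) (Ω : Type) [Fintype Ω] (p : Ω → ℝ) (D : Ω → Fin m → ℝ) (r ρ : ℝ), IsLaw p →
    0 < r → k ≤ n →
    (∀ (v : Fin m → ℝ) (B : Fin k → Fin m → ℝ),
      (∑ l, if ∃ c : Fin k → ℝ, ∀ j, |D l j - v j - ∑ i, c i * B i j| ≤ r then p l else 0)
        ≤ ρ) →
    (∑ v : Fin n × Bool → Ω,
      if rk r (fun i j => D (v (i, true)) j - D (v (i, false)) j) ≤ k then ∏ i, p (v i) else 0) ≤
      (n : ℝ) ^ k * ρ ^ (n - k)

open Classical in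
/-- Saturation: if the velocities given the label are not concentrated near affine subspaces of
dimension `k`, the last digits of the positions are saturated at rate `k + 1`. -/
def SaturationStmt : Prop :=
  ∀ m n k : ℕ, k < n → ∃ C : ℝ, 0 ≤ C ∧ ∀ (Ω β : Type) [Fintype Ω] (p : Ω → ℝ)
    (u d : Ω → Fin m → ℝ) (b : Ω → β) (K a : ℕ) (ρ : ℝ), IsLaw p → (∀ l i, |d l i| ≤ 1) →
    a ≤ K → 0 < ρ → (n : ℝ) ^ k * ρ ^ (n - k) < 1 →
    (∀ l, 0 < p l → ∀ (v : Fin m → ℝ) (B : Fin k → Fin m → ℝ),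
      (∑ l', if ∃ c : Fin k → ℝ, ∀ j, |d l' j - v j - ∑ i, c i * B i j| ≤ 2 * 2 ^ a / 2 ^ K
        then cond p b (b l) l' else 0) ≤ ρ) →
    (k + 1) * (a * Real.log 2) * (1 - (n * (4 * epsK p u d b K + cc m) + Real.log 2) /
      Real.log (1 / ((n : ℝ) ^ k * ρ ^ (n - k)))) - n * (4 * epsK p u d b K + cc m) - C ≤
      hKa p u d b K a

end Pool.KSAT
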