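import Pool.Agent.H7.KSAT.All

/-!
# Vectors which are successively far from the span of the previous ones
-/

set_option autoImplicit false

namespace Pool.KSAT

open Finset Real

/-- If each vector is at distance more than `r0` from the span of the previous ones, the rank at
the scale `r` is maximal, for `r` small with respect to `r0`. -/
theorem dist_rk (hL : LinStmt) (hR : RkStmt) {k m : ℕ} (V : Fin (k + 1) → Fin m → ℝ)
    (M r r0 : ℝ) (hr : 0 < r) (hr0 : 0 < r0) (hrM : r0 ≤ M) (hM : ∀ i j, |V i j| ≤ M)
    (hc : r * (2 * M / r0) ^ k ≤ r0)
    (hd : ∀ i : Fin (k + 1), ∀ c : Fin (k + 1) → ℝ, (∀ l, i ≤ l → c l = 0) →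
      ∃ j, r0 < |V i j - ∑ l, c l * V l j|) :
    k + 1 ≤ rk r V := by
  classical
  by_contra hlt
  obtain ⟨h1, h2, I, κ, hmax⟩ := hR (k + 1) m r V hr
  obtain ⟨_, hI, _, _, _, h3⟩ := hL (k + 1) m (rk r V) r V I κ hr hmax
  have hcard : (Finset.univ.image I).card < (Finset.univ : Finset (Fin (k + 1))).card := by
    refine lt_of_le_of_lt Finset.card_image_le ?_
    rw [Finset.card_univ, Finset.card_univ, Fintype.card_fin, Fintype.card_fin]
    omega
  obtain ⟨i0, _, hi0⟩ := Finset.exists_mem_notMem_of_card_lt_card hcard
  have hi0' : ∀ l, I l ≠ i0 := fun l h => hi0 (Finset.mem_image.2 ⟨l, Finset.mem_univ _, h⟩)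
  have hMr : (1 : ℝ) ≤ M / r0 := by rw [le_div_iff₀ hr0]; linarith
  set q : ℝ := 2 * M / r0 with hq
  have hq2 : 2 ≤ q := by
    have : q = 2 * (M / r0) := by rw [hq]; ring
    rw [this]; linarith
  have main : ∀ t : ℕ, t ≤ k - (i0 : ℕ) → ∃ c : Fin (k + 1) → ℝ, c i0 = 0 ∧
      (∀ l : Fin (k + 1), k + 1 - t ≤ (l : ℕ) → c l = 0) ∧
      ∀ j, |V i0 j - ∑ l, c l * V l j| ≤ r * q ^ t := by
    intro t
    induction t with
    | zero =>
      intro _
      obtain ⟨c, _, hcc⟩ := h3 i0
      refine ⟨fun l => ∑ x, if I x = l then c x else 0, ?_, ?_, ?_⟩
      · refine Finset.sum_eq_zero fun x _ => ?_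
        rw [if_neg (hi0' x)]
      · intro l hl
        have := l.2
        omega
      · intro j
        have e1 : (∑ l, (∑ x, if I x = l then c x else 0) * V l j) = ∑ x, c x * V (I x) j := by
          simp only [Finset.sum_mul]
          rw [Finset.sum_comm]
          refine Finset.sum_congr rfl fun x _ => ?_
          rw [Finset.sum_eq_single (I x)]
          · simp
          · intro l _ hl
            rw [if_neg (Ne.symm hl), zero_mul]
          · intro h
            exact absurd (Finset.mem_univ _) h
        rw [e1, pow_zero, mul_one]
        exact hcc j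
    | succ t ih =>
      intro ht
      obtain ⟨c, hc0, hcs, hce⟩ := ih (by omega)
      have hNlt : k - t < k + 1 := by omega
      set N : Fin (k + 1) := ⟨k - t, hNlt⟩ with hN
      have hNi : i0 < N := by
        rw [Fin.lt_def, hN]
        simp only
        omega
      set e : ℝ := r * q ^ t with he
      have he0 : 0 < e := by positivity
      have hek : e ≤ r0 := by
        refine le_trans ?_ hc
        rw [he]
        refine mul_le_mul_of_nonneg_left ?_ hr.le
        exact pow_le_pow_right₀ (by linarith) (by omega)
      have hcN : |c N| ≤ e / r0 := by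
        by_contra hbig
        push Not at hbig
        have hcN0 : 0 < |c N| := lt_trans (by positivity) hbig
        have hcN1 : c N ≠ 0 := abs_pos.1 hcN0
        obtain ⟨j, hj⟩ := hd N (fun l => if l = i0 then (c N)⁻¹ else
          if N ≤ l then 0 else -(c l) * (c N)⁻¹) (by
            intro l hl
            have : l ≠ i0 := by
              intro h
              rw [h] at hl
              exact absurd hNi (not_lt.mpr hl)
            simp only [this, if_false, if_pos hl])
        have e1 : (∑ l, c l * V l j) = c N * V N j +
            ∑ l, (if l = i0 then 0 else if N ≤ l then 0 else c l) * V l j := by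
          have : (c N * V N j) = ∑ l, if l = N then c l * V l j else 0 := by
            rw [Finset.sum_ite_eq' Finset.univ N]
            simp
          rw [this, ← Finset.sum_add_distrib]
          refine Finset.sum_congr rfl fun l _ => ?_
          by_cases hl0 : l = i0
          · have : l ≠ N := by rw [hl0]; exact hNi.ne
            rw [if_neg this, if_pos hl0, hl0, hc0]
            ring
          · by_cases hlN : l = N
            · rw [if_pos hlN, if_neg hl0, if_pos (by rw [hlN])]
              ring
            · rw [if_neg hlN, if_neg hl0]
              by_cases hNl : N ≤ l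
              · rw [if_pos hNl]
                have hlt' : N < l := lt_of_le_of_ne hNl (Ne.symm hlN)
                have : c l = 0 := hcs l (by
                  have h5 : (N : ℕ) < l := hlt'
                  rw [hN] at h5
                  simp only at h5
                  omega)
                rw [this]
                ring
              · rw [if_neg hNl]
                ring
        have e2 : (∑ l, (if l = i0 then (c N)⁻¹ else
            if N ≤ l then 0 else -(c l) * (c N)⁻¹) * V l j) = (c N)⁻¹ * V i0 j -
            (c N)⁻¹ * ∑ l, (if l = i0 then 0 else if N ≤ l then 0 else c l) * V l j := by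
          have : ((c N)⁻¹ * V i0 j) = ∑ l, if l = i0 then (c N)⁻¹ * V l j else 0 := by
            rw [Finset.sum_ite_eq' Finset.univ i0]
            simp
          rw [this, Finset.mul_sum, ← Finset.sum_sub_distrib]
          refine Finset.sum_congr rfl fun l _ => ?_
          by_cases hl0 : l = i0
          · simp [hl0]
          · simp only [hl0, if_false]
            split_ifs <;> ring
        have h4 := hce j
        rw [e1] at h4
        rw [e2] at hj
        have e3 : V N j - ((c N)⁻¹ * V i0 j -
            (c N)⁻¹ * ∑ l, (if l = i0 then 0 else if N ≤ l then 0 else c l) * V l j) =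
            -(c N)⁻¹ * (V i0 j - (c N * V N j +
              ∑ l, (if l = i0 then 0 else if N ≤ l then 0 else c l) * V l j)) := by
          field_simp
          ring
        rw [e3, abs_mul, abs_neg, abs_inv] at hj
        have h6 : |c N|⁻¹ * |V i0 j - (c N * V N j +
              ∑ l, (if l = i0 then 0 else if N ≤ l then 0 else c l) * V l j)| ≤ r0 := by
          rw [inv_mul_le_iff₀ hcN0]
          have h7 : e < |c N| * r0 := by
            rw [div_lt_iff₀ hr0] at hbig
            exact hbig
          linarith
        linarith
      refine ⟨fun l => if l = N then 0 else c l, ?_, ?_, ?_⟩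
      · simp only [hNi.ne, if_false, hc0]
      · intro l hl
        by_cases hlN : l = N
        · simp [hlN]
        · simp only [hlN, if_false]
          refine hcs l ?_
          have : (l : ℕ) ≠ k - t := fun h => hlN (Fin.ext h)
          omega
      · intro j
        have e1 : (∑ l, (if l = N then 0 else c l) * V l j) = (∑ l, c l * V l j) -
            c N * V N j := by
          have : (c N * V N j) = ∑ l, if l = N then c l * V l j else 0 := by
            rw [Finset.sum_ite_eq' Finset.univ N]
            simp
          rw [this, ← Finset.sum_sub_distrib]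
          refine Finset.sum_congr rfl fun l _ => ?_
          split_ifs <;> ring
        rw [e1]
        have e4 : V i0 j - ((∑ l, c l * V l j) - c N * V N j) =
            (V i0 j - ∑ l, c l * V l j) + c N * V N j := by ring
        rw [e4]
        refine (abs_add_le _ _).trans ?_
        have h5 : |c N * V N j| ≤ e / r0 * M := by
          rw [abs_mul]
          exact mul_le_mul hcN (hM _ _) (abs_nonneg _) (by positivity)
        have h6 : e + e / r0 * M ≤ e * q := by
          have : e / r0 * M = e * (M / r0) := by ring
          rw [this, hq]
          have h7 : 2 * M / r0 = M / r0 + M / r0 := by ring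
          rw [h7, mul_add]
          have := mul_le_mul_of_nonneg_left hMr he0.le
          linarith
        calc _ ≤ e + e / r0 * M := add_le_add (hce j) h5
          _ ≤ e * q := h6
          _ = r * q ^ (t + 1) := by rw [he, pow_succ]; ring
  obtain ⟨c, hc0, hcs, hce⟩ := main (k - i0) le_rfl
  obtain ⟨j, hj⟩ := hd i0 c (by
    intro l hl
    rcases hl.eq_or_lt with h | h
    · rw [← h]; exact hc0
    · refine hcs l ?_
      have h5 : (i0 : ℕ) < l := h
      have := i0.2
      omega)
  have h8 := hce j
  have h9 : r * q ^ (k - (i0 : ℕ)) ≤ r0 := by
    refine le_trans ?_ hc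
    refine mul_le_mul_of_nonneg_left ?_ hr.le
    exact pow_le_pow_right₀ (by linarith) (by omega)
  linarith

end Pool.KSAT
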