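import Pool.Agent.H7.KSAT.SLPt

/-!
# Fullness with total deficit: statements
-/

set_option autoImplicit false

namespace Pool.KSAT

open Finset Real
open Pool.Agent.H49.Ent Pool.Agent.H32.Dense Pool.STK Pool.KA

/-- **Time digits of disjoint windows**: the sum of the time deficits of disjoint windows is at
most the time deficit of the family. -/
def TDSStmt : Prop :=
  ∀ (m J : ℕ) (F : Fam m J) (N K : ℕ) (w : ℕ → ℕ) (e : ℝ), F.Tm e →
    (∀ i, i < N → w i + K ≤ J) → (∀ i, i + 1 < N → w i + K ≤ w (i + 1)) →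
    ∑ i ∈ range N, (K * Real.log 2 -
      CH F.p (fun ω => (F.T1 (w i + K) ω : ℤ)) (slam F (w i))) ≤ e

open Classical in
/-- **Fullness with total deficit.** Disjoint windows `(w i, w i + K]`, labels `b i` of the
windows, points `pt i`; `b (i + 1)` determines `(b i, pt i)` up to entropy `γ` as far as the
direction block `D K` is concerned. The total loss over all windows is
`(k + 2) (e + H(D K | b 0) + N γ) + N C`. -/
def FTDStmt : Prop :=
  ∀ m k : ℕ, ∃ C : ℝ, 0 ≤ C ∧ ∀ (J : ℕ) (F : Fam m J) (β Pt : Type) (b : ℕ → F.Ω → β)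
    (pt : ℕ → F.Ω → Pt) (w : ℕ → ℕ) (N K a h : ℕ) (e ρ γ : ℝ),
    F.Tm e → 0 < N → (∀ i, i < N → w i + K ≤ J) → (∀ i, i + 1 < N → w i + K ≤ w (i + 1)) →
    (∀ i, i < N → ∀ ω ω', 0 < F.p ω → 0 < F.p ω' → slam F (w i) ω = slam F (w i) ω' →
      b i ω = b i ω') →
    (∀ i, i < N → ∀ ω ω', 0 < F.p ω → 0 < F.p ω' → pt i ω = pt i ω' →
      F.T1 (w i + K) ω = F.T1 (w i + K) ω' ∧ F.X (w i + K) ω = F.X (w i + K) ω') →
    (∀ i, i + 1 < N →
      CH F.p (F.D K) (b (i + 1)) ≤ CH F.p (F.D K) (fun ω => (b i ω, pt i ω)) + γ) →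
    2 ≤ h → a + (h + 3) * (k + 1) + h ≤ K →
    (∀ i, i < N → ∀ ω, 0 < F.p ω → ∀ (v : Fin m → ℝ) (B : Fin k → Fin m → ℝ),
      (∑ ω', if ∃ c : Fin k → ℝ, ∀ j, |F.d ω' j - v j - ∑ i, c i * B i j| ≤ 4 / 2 ^ h
        then cond F.p (fun ω => (b i ω, pt i ω)) (b i ω, pt i ω) ω' else 0) ≤ ρ) →
    N * ((k + 2) * (a * Real.log 2) * (1 - (k + 2) * ρ) - a * Real.log 2 - C) -
      (k + 2) * (e + CH F.p (F.D K) (b 0) + N * γ) ≤
      ∑ i ∈ range N, CH F.p (F.X (w i + K))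
        (fun ω => (F.T1 (w i + K) ω, F.X (w i + K - a) ω, b i ω))

end Pool.KSAT
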