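import Mathlib
import Pool.Agent.H7.KSAT.Defs

namespace Pool.KSAT

open MeasureTheory

/-- The number of grid points near a linear image of the cube is controlled by the determinant. -/
theorem img_thm' : ImgStmt := by
  intro k M y r ρ hr hρ hadj hdet F hF
  have hdet' : 0 < |M.det| := abs_pos.2 hdet
  set R : ℝ := 1 + k * (ρ + 1) with hR
  have hR0 : 0 ≤ R := by positivity
  set Q : Set (Fin k → ℝ) := Set.Icc (fun _ => -R) (fun _ => R) with hQ
  set L : (Fin k → ℝ) →ₗ[ℝ] (Fin k → ℝ) := Matrix.toLin' M with hL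
  have hvolQ : volume Q = ENNReal.ofReal ((2 * R) ^ k) := by
    rw [hQ, Real.volume_Icc_pi]
    rw [Finset.prod_const, Finset.card_univ, Fintype.card_fin]
    rw [ENNReal.ofReal_pow (by positivity)]
    congr 2
    ring
  set S : Set (Fin k → ℝ) := (fun x => x + (-y)) ⁻¹' (L '' Q) with hS
  have hvolS : volume S = ENNReal.ofReal (|M.det| * (2 * R) ^ k) := by
    rw [hS, measure_preimage_add_right, Measure.addHaar_image_linearMap, hvolQ, hL,
      LinearMap.det_toLin', ← ENNReal.ofReal_mul (abs_nonneg _)]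
  set C : (Fin k → ℤ) → Set (Fin k → ℝ) :=
    fun z => Set.pi Set.univ (fun i => Set.Ico (r * (z i : ℝ)) (r * ((z i : ℝ) + 1))) with hC
  have hCm : ∀ z, MeasurableSet (C z) := fun z =>
    MeasurableSet.univ_pi (fun i => measurableSet_Ico)
  have hCv : ∀ z, volume (C z) = ENNReal.ofReal (r ^ k) := by
    intro z
    rw [hC]
    simp only
    rw [Real.volume_pi_Ico]
    have : ∀ i : Fin k, ENNReal.ofReal (r * ((z i : ℝ) + 1) - r * (z i : ℝ)) =
        ENNReal.ofReal r := by
      intro i
      congr 1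
      ring
    rw [Finset.prod_congr rfl (fun i _ => this i), Finset.prod_const, Finset.card_univ,
      Fintype.card_fin, ENNReal.ofReal_pow hr.le]
  have hCd : ∀ z ∈ F, ∀ z' ∈ F, z ≠ z' → Disjoint (C z) (C z') := by
    intro z _ z' _ hne
    rw [Set.disjoint_left]
    intro x hx hx'
    apply hne
    funext i
    have h1 := hx i (Set.mem_univ i)
    have h2 := hx' i (Set.mem_univ i)
    simp only [Set.mem_Ico] at h1 h2
    have a1 : (z i : ℝ) < (z' i : ℝ) + 1 := by
      have := lt_of_le_of_lt h1.1 h2.2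
      exact lt_of_mul_lt_mul_left this hr.le
    have a2 : (z' i : ℝ) < (z i : ℝ) + 1 := by
      have := lt_of_le_of_lt h2.1 h1.2
      exact lt_of_mul_lt_mul_left this hr.le
    have b1 : z i < z' i + 1 := by exact_mod_cast a1
    have b2 : z' i < z i + 1 := by exact_mod_cast a2
    omega
  have hsub : (⋃ z ∈ F, C z) ⊆ S := by
    intro x hx
    simp only [Set.mem_iUnion] at hx
    obtain ⟨z, hz, hxz⟩ := hx
    obtain ⟨s, hs1, hs2⟩ := hF z hz
    set e : Fin k → ℝ := fun i => x i - y i - ∑ l, M i l * s l with he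
    have he1 : ∀ i, |e i| ≤ (ρ + 1) * r := by
      intro i
      have h1 := hxz i (Set.mem_univ i)
      simp only [Set.mem_Ico] at h1
      have h2 := hs2 i
      have h3 : e i = (x i - r * (z i : ℝ)) + (r * (z i : ℝ) - ∑ l, M i l * s l - y i) := by
        simp only [he]
        ring
      have h4 : |x i - r * (z i : ℝ)| ≤ r := by
        rw [abs_le]
        constructor
        · linarith [h1.1]
        · linarith [h1.2]
      rw [h3]
      calc _ ≤ |x i - r * (z i : ℝ)| + |r * (z i : ℝ) - ∑ l, M i l * s l - y i| := abs_add_le _ _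
        _ ≤ r + ρ * r := add_le_add h4 h2
        _ = (ρ + 1) * r := by ring
    set t : Fin k → ℝ := s + M⁻¹.mulVec e with ht
    have hu : IsUnit M.det := isUnit_iff_ne_zero.2 hdet
    have hMt : M.mulVec t = M.mulVec s + e := by
      rw [ht, Matrix.mulVec_add, Matrix.mulVec_mulVec, Matrix.mul_nonsing_inv _ hu,
        Matrix.one_mulVec]
    have hbd : ∀ i, |(M⁻¹.mulVec e) i| ≤ k * (ρ + 1) := by
      intro i
      rw [Matrix.mulVec, dotProduct]
      have h5 : ∀ j, |M⁻¹ i j * e j| ≤ (ρ + 1) := by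
        intro j
        rw [Matrix.inv_def, Matrix.smul_apply, smul_eq_mul, Ring.inverse_eq_inv', abs_mul, abs_mul,
          abs_inv]
        have h6 := hadj i j
        have h7 := he1 j
        have h8 : |M.det|⁻¹ * |M.adjugate i j| * r ≤ 1 := by
          rw [mul_assoc, inv_mul_le_iff₀ hdet', mul_one]
          exact h6
        have h9 : 0 ≤ |M.det|⁻¹ * |M.adjugate i j| := by positivity
        calc |M.det|⁻¹ * |M.adjugate i j| * |e j|
            ≤ |M.det|⁻¹ * |M.adjugate i j| * ((ρ + 1) * r) :=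
              mul_le_mul_of_nonneg_left h7 h9
          _ = (|M.det|⁻¹ * |M.adjugate i j| * r) * (ρ + 1) := by ring
          _ ≤ 1 * (ρ + 1) := mul_le_mul_of_nonneg_right h8 (by linarith)
          _ = ρ + 1 := one_mul _
      calc |∑ j, M⁻¹ i j * e j| ≤ ∑ j, |M⁻¹ i j * e j| := Finset.abs_sum_le_sum_abs _ _
        _ ≤ ∑ _j : Fin k, (ρ + 1) := Finset.sum_le_sum (fun j _ => h5 j)
        _ = k * (ρ + 1) := by
            rw [Finset.sum_const, Finset.card_univ, Fintype.card_fin, nsmul_eq_mul]
    have htQ : t ∈ Q := by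
      rw [hQ, Set.mem_Icc]
      have h10 : ∀ i, |t i| ≤ R := by
        intro i
        have : t i = s i + (M⁻¹.mulVec e) i := by rw [ht]; rfl
        rw [this, hR]
        exact (abs_add_le _ _).trans (add_le_add (hs1 i) (hbd i))
      exact ⟨fun i => (abs_le.1 (h10 i)).1, fun i => (abs_le.1 (h10 i)).2⟩
    rw [hS, Set.mem_preimage]
    refine ⟨t, htQ, ?_⟩
    rw [hL, Matrix.toLin'_apply, hMt]
    funext i
    simp only [Pi.add_apply, Pi.neg_apply, he, Matrix.mulVec, dotProduct]
    ring
  have hmain : volume (⋃ z ∈ F, C z) ≤ volume S := measure_mono hsub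
  rw [measure_biUnion_finset (fun z hz z' hz' hne => hCd z hz z' hz' hne) (fun z _ => hCm z),
    Finset.sum_congr rfl (fun z _ => hCv z), Finset.sum_const, hvolS, nsmul_eq_mul,
    ← ENNReal.ofReal_natCast, ← ENNReal.ofReal_mul (Nat.cast_nonneg _)] at hmain
  have h11 : 0 ≤ |M.det| * (2 * R) ^ k := by positivity
  have h12 := (ENNReal.ofReal_le_ofReal_iff h11).1 hmain
  calc (F.card : ℝ) * r ^ k ≤ |M.det| * (2 * R) ^ k := h12
    _ = _ := by rw [hR, mul_comm]

end Pool.KSAT
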