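import Pool.Agent.H7.KSAT.All
import Pool.Agent.H64.KSAT.EXC
import Pool.Agent.H69.KSAT.GRD0
import Pool.Agent.H58.KSAT.GRD
import Pool.Agent.H1.KSAT.QUO
import Pool.Agent.H33.KSAT.RES2
import Pool.Agent.H34.KA.TYA

/-!
# Section S1, without hypotheses
-/

namespace Pool.KSAT

/-- Greedy labels. -/
theorem grd : GRDStmt := grd_thm grd0_thm

/-- Exclusion inside an event. -/
theorem exc : EXCStmt := exc_thm slSat res2_thm Pool.KA.tya_thm

/-- Saturation of the quotient. -/
theorem quo : QUOStmt := quo_thm slSat2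

end Pool.KSAT
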