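import Pool.Agent.H7.KSAT.WalkPtFin
import Pool.Agent.H7.KSAT.SL

/-!
# Saturation for families of lines, exact point form
-/

set_option autoImplicit false

namespace Pool.KSAT

open Finset Real
open Pool.Agent.H49.Ent Pool.Agent.H32.Dense Pool.STK Pool.KA

open Classical in
/-- **Saturation in class SL, point form**: window `(w, w + K]`, label `b` of the window, point
`pt` (any function of the incidence which determines the cell of size `2 ^ (-(w + K))`). If for
every value of `(b, pt)` the directions are outside probability `ρ` not within `4 / 2 ^ h` of any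
given affine `k`-plane, the rows `(w + K - a, w + K]` are saturated at rate `k + 1`. -/
def SLPtStmt : Prop :=
  ∀ m k : ℕ, ∃ C : ℝ, 0 ≤ C ∧ ∀ (J : ℕ) (F : Fam m J) (β Pt : Type) (b : F.Ω → β)
    (pt : F.Ω → Pt) (w K a h : ℕ) (e ρ : ℝ), w + K ≤ J → F.Tm e →
    (∀ ω ω', 0 < F.p ω → 0 < F.p ω' → slam F w ω = slam F w ω' → b ω = b ω') →
    (∀ ω ω', 0 < F.p ω → 0 < F.p ω' → pt ω = pt ω' →
      F.T1 (w + K) ω = F.T1 (w + K) ω' ∧ F.X (w + K) ω = F.X (w + K) ω') →
    2 ≤ h → a + (h + 3) * (k + 1) + h ≤ K →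
    (∀ ω, 0 < F.p ω → ∀ (v : Fin m → ℝ) (B : Fin k → Fin m → ℝ),
      (∑ ω', if ∃ c : Fin k → ℝ, ∀ j, |F.d ω' j - v j - ∑ i, c i * B i j| ≤ 4 / 2 ^ h
        then cond F.p (fun ω => (b ω, pt ω)) (b ω, pt ω) ω' else 0) ≤ ρ) →
    (k + 2) * (a * Real.log 2) * (1 - (k + 2) * ρ) - a * Real.log 2 -
      (k + 2) * (e + (CH F.p (F.D K) b - CH F.p (F.D K) (fun ω => (b ω, pt ω)))) - C ≤
      CH F.p (F.X (w + K)) (fun ω => (F.T1 (w + K) ω, F.X (w + K - a) ω, b ω))

open Classical in
/-- **Saturation in class SL, point form**, with the time deficit `e` of the window: window `(w, w + K]`, label `b` of the window, point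
`pt` (any function of the incidence which determines the cell of size `2 ^ (-(w + K))`). If for
every value of `(b, pt)` the directions are outside probability `ρ` not within `4 / 2 ^ h` of any
given affine `k`-plane, the rows `(w + K - a, w + K]` are saturated at rate `k + 1`. -/
def SLPt1Stmt : Prop :=
  ∀ m k : ℕ, ∃ C : ℝ, 0 ≤ C ∧ ∀ (J : ℕ) (F : Fam m J) (β Pt : Type) (b : F.Ω → β)
    (pt : F.Ω → Pt) (w K a h : ℕ) (e ρ : ℝ), w + K ≤ J →
    K * Real.log 2 - e ≤ CH F.p (fun ω => (F.T1 (w + K) ω : ℤ)) (slam F w) →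
    (∀ ω ω', 0 < F.p ω → 0 < F.p ω' → slam F w ω = slam F w ω' → b ω = b ω') →
    (∀ ω ω', 0 < F.p ω → 0 < F.p ω' → pt ω = pt ω' →
      F.T1 (w + K) ω = F.T1 (w + K) ω' ∧ F.X (w + K) ω = F.X (w + K) ω') →
    2 ≤ h → a + (h + 3) * (k + 1) + h ≤ K →
    (∀ ω, 0 < F.p ω → ∀ (v : Fin m → ℝ) (B : Fin k → Fin m → ℝ),
      (∑ ω', if ∃ c : Fin k → ℝ, ∀ j, |F.d ω' j - v j - ∑ i, c i * B i j| ≤ 4 / 2 ^ h
        then cond F.p (fun ω => (b ω, pt ω)) (b ω, pt ω) ω' else 0) ≤ ρ) →
    (k + 2) * (a * Real.log 2) * (1 - (k + 2) * ρ) - a * Real.log 2 -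
      (k + 2) * (e + (CH F.p (F.D K) b - CH F.p (F.D K) (fun ω => (b ω, pt ω)))) - C ≤
      CH F.p (F.X (w + K)) (fun ω => (F.T1 (w + K) ω, F.X (w + K - a) ω, b ω))

theorem slPt1_thm (hW : WalkPtStmt) : SLPt1Stmt := by
  classical
  intro m k
  obtain ⟨C, hC, hw⟩ := hW (m + 1) (k + 1)
  refine ⟨C, hC, ?_⟩
  intro J F β Pt b pt w K a h e ρ hwK hT hb hpt hh haK hconc
  have h0 := F.isLaw.nonneg
  have hk1 : k + 1 ≤ (h + 3) * (k + 1) := Nat.le_mul_of_pos_left _ (by omega)
  -- the cell as a function of the point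
  set g : Pt → Fin (m + 1) → ℤ := fun z =>
    if hz : ∃ ω, 0 < F.p ω ∧ pt ω = z then scell F (w + K) hz.choose else 0 with hg
  have hgp : ∀ ω, 0 < F.p ω → g (pt ω) = scell F (w + K) ω := by
    intro ω hω
    have hz : ∃ ω', 0 < F.p ω' ∧ pt ω' = pt ω := ⟨ω, hω, rfl⟩
    have h1 : g (pt ω) = scell F (w + K) hz.choose := by
      rw [hg]
      exact dif_pos hz
    rw [h1]
    obtain ⟨h2, h3⟩ := hpt _ _ hz.choose_spec.1 hω hz.choose_spec.2
    unfold scell
    rw [h2, h3]
  have hKh : h ≤ K := by omega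
  have hpow : (2 : ℝ) ^ (K - h) * 2 ^ h = 2 ^ K := by
    rw [← pow_add, Nat.sub_add_cancel hKh]
  have key := hw F.Ω _ β Pt F.p (slam F w) b pt g (fun ω => (F.T1 (w + K) ω : ℤ))
    (svel F K) K a (2 ^ (K - h)) ρ F.isLaw (svel_le F K)
    (fun ω ω' hω hω' hs => by
      rw [hgp ω hω, hgp ω' hω']
      exact cell_move F hwK hs) hb (by positivity) (by
        have h1 : (2 : ℝ) ^ (K - h) ≤ 2 ^ K := pow_le_pow_right₀ (by norm_num) (by omega)
        have h2 : (0 : ℝ) < 2 ^ K := by positivity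
        linarith) (by
        have e1 : (6 * 2 ^ K / 2 ^ (K - h) : ℝ) = 6 * 2 ^ h := by
          rw [← hpow]
          field_simp
        rw [e1]
        have e2 : (6 * 2 ^ h : ℝ) ≤ 2 ^ (h + 3) := by
          rw [pow_add]
          have : (0 : ℝ) < 2 ^ h := by positivity
          norm_num
          linarith
        calc (2 : ℝ) ^ a * (6 * 2 ^ h) ^ (k + 1) ≤ 2 ^ a * (2 ^ (h + 3)) ^ (k + 1) := by
              refine mul_le_mul_of_nonneg_left ?_ (by positivity)
              exact pow_le_pow_left₀ (by positivity) e2 _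
          _ = 2 ^ (a + (h + 3) * (k + 1)) := by rw [← pow_mul, ← pow_add]
          _ ≤ 2 ^ (K - h) := pow_le_pow_right₀ (by norm_num) (by omega)) (by
      intro ω hω B'
      obtain ⟨v, B, hB⟩ := conc_aff (m := m) (J := J) (a := K - h) (K := K) (by omega) B'
      refine le_trans (Finset.sum_le_sum fun ω' _ => ?_) (hconc ω hω v B)
      have hc0 := cond_nonneg h0 (fun ω => (b ω, pt ω)) (b ω, pt ω) ω'
      have hr : (4 * 2 ^ (K - h) / 2 ^ K : ℝ) = 4 / 2 ^ h := by
        rw [← hpow]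
        field_simp
      by_cases h1 : ∃ c : Fin (k + 1) → ℝ, ∀ j,
          |(svel F K ω' j : ℝ) - ∑ i, c i * B' i j| ≤ 2 ^ (K - h)
      · have h2 := hB F ω' h1
        rw [hr] at h2
        rw [if_pos h1, if_pos h2]
      · rw [if_neg h1]
        split_ifs
        · exact hc0
        · exact le_rfl)
  have hx := scell_le F b (g := w + K) (a := a) (by omega)
  have e1 : CH F.p (svel F K) b = CH F.p (F.D K) b := by
    refine CH_congr h0 ?_ ?_ (fun _ _ _ _ h => h) (fun _ _ _ _ h => h)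
    · intro ω ω' _ _ hh
      have := (Prod.ext_iff.mp hh).1
      simp only [svel] at this
      exact (Fin.cons_injective2 this).2
    · intro ω ω' _ _ hh
      have := (Prod.ext_iff.mp hh).1
      simp only at this
      unfold svel
      rw [this]
  have e2 : CH F.p (svel F K) (fun ω => (b ω, pt ω)) =
      CH F.p (F.D K) (fun ω => (b ω, pt ω)) := by
    refine CH_congr h0 ?_ ?_ (fun _ _ _ _ h => h) (fun _ _ _ _ h => h)
    · intro ω ω' _ _ hh
      have := (Prod.ext_iff.mp hh).1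
      simp only [svel] at this
      exact (Fin.cons_injective2 this).2
    · intro ω ω' _ _ hh
      have := (Prod.ext_iff.mp hh).1
      simp only at this
      unfold svel
      rw [this]
  have e3 : CH F.p (fun ω => g (pt ω)) (fun ω => ((fun j => g (pt ω) j / 2 ^ a), b ω)) =
      CH F.p (scell F (w + K)) (fun ω => ((fun j => scell F (w + K) ω j / 2 ^ a), b ω)) := by
    refine CH_congr h0 ?_ ?_ ?_ ?_
    · intro ω ω' h1 h2 hh
      simp only [Prod.mk.injEq] at hh ⊢
      rw [← hgp ω h1, ← hgp ω' h2]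
      exact hh.1
    · intro ω ω' h1 h2 hh
      simp only [Prod.mk.injEq] at hh ⊢
      rw [hgp ω h1, hgp ω' h2]
      exact hh.1
    · intro ω ω' h1 h2 hh
      simp only [Prod.mk.injEq] at hh ⊢
      rw [← hgp ω h1, ← hgp ω' h2]
      exact hh
    · intro ω ω' h1 h2 hh
      simp only [Prod.mk.injEq] at hh ⊢
      rw [hgp ω h1, hgp ω' h2]
      exact hh
  rw [e1, e2, e3] at key
  push_cast at key
  set I : ℝ := CH F.p (F.D K) b - CH F.p (F.D K) (fun ω => (b ω, pt ω)) with hI
  have hk0 : (0 : ℝ) ≤ k + 2 := by positivity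
  have h5 : ((k : ℝ) + 2) * (K * Real.log 2 -
      CH F.p (fun ω => (F.T1 (w + K) ω : ℤ)) (slam F w) +
      CH F.p (F.D K) b - CH F.p (F.D K) (fun ω => (b ω, pt ω))) ≤
      (k + 2) * (e + I) := by
    refine mul_le_mul_of_nonneg_left ?_ hk0
    linarith
  have h6 : ((k : ℝ) + 1 + 1) = k + 2 := by ring
  rw [h6] at key
  linarith

theorem slPt_thm (hW : WalkPtStmt) : SLPtStmt := by
  intro m k
  obtain ⟨C, hC, h⟩ := slPt1_thm hW m k
  refine ⟨C, hC, fun J F β Pt b pt w K a h' e ρ hwK he hb hpt hh haK hconc => ?_⟩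
  exact h J F β Pt b pt w K a h' e ρ hwK (time_digits F hwK he) hb hpt hh haK hconc

/-- Saturation in the class of families of lines, point form, without hypotheses. -/
theorem slPt : SLPtStmt := slPt_thm walkPt

/-- The same with the time deficit of the window. -/
theorem slPt1 : SLPt1Stmt := slPt1_thm walkPt

end Pool.KSAT
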