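import Pool.Agent.H7.KSAT.Basic

/-!
# Saturation: the step
-/

set_option autoImplicit false

namespace Pool.KSAT

open Finset Real
open Pool.Agent.H49.Ent Pool.Agent.H32.Dense Pool.STK

section Step

variable {Ω τ β E G : Type} [Fintype Ω] [Fintype τ] [Nonempty τ] {p : Ω → ℝ} {X : τ → Ω → G}
  {D : Ω → E} {b : Ω → β} {c : ℝ}

/-- The law of the crossing lines. -/
noncomputable abbrev q0 (p : Ω → ℝ) (X : τ → Ω → G) (b : Ω → β) : (Ω × τ) × (Ω × τ) → ℝ :=
  dbl (pt1 (τ := τ) p) (lab X b)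

/-- The law of the crossing lines and a further time. -/
noncomputable abbrev qs (p : Ω → ℝ) (X : τ → Ω → G) (b : Ω → β) :
    τ × ((Ω × τ) × (Ω × τ)) → ℝ := pr2 (un τ) (q0 p X b)

lemma pt1_law (hp : IsLaw p) : IsLaw (pt1 (τ := τ) p) := pr2_law hp (un_law τ)

lemma q0_law (hp : IsLaw p) : IsLaw (q0 p X b) := by
  have h := (pt1_law (τ := τ) hp)
  refine ⟨dbl_nonneg h.nonneg, ?_⟩
  rw [(dbl_fst (b := lab X b) h.nonneg).sum]
  exact h.sum_one

lemma qs_law (hp : IsLaw p) : IsLaw (qs p X b) := pr2_law (un_law τ) (q0_law hp)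

/-- Velocity given label and time. -/
lemma hD_time (hp : IsLaw p) :
    CH (pt1 (τ := τ) p) (fun w => D w.1) (fun w => (b w.1, w.2)) = CH p D b := 
  CH_pr2_fst hp (un_law τ) D b (fun t => t)

/-- Velocity given label, time and position. -/
lemma hD_lab (hp : IsLaw p) :
    CH (pt1 (τ := τ) p) (fun w => D w.1) (lab X b) = CH p D b - epsX p X D b := by
  have h0 := (pt1_law (τ := τ) hp).nonneg
  have h1 := CH_chain h0 (fun w => D w.1) (fun w => X w.2 w.1) (fun w => (b w.1, w.2))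
  have h2 := CH_chain h0 (fun w => X w.2 w.1) (fun w => D w.1) (fun w => (b w.1, w.2))
  have e1 : CH (pt1 (τ := τ) p) (fun w => (D w.1, X w.2 w.1)) (fun w => (b w.1, w.2)) =
      CH (pt1 (τ := τ) p) (fun w => (X w.2 w.1, D w.1)) (fun w => (b w.1, w.2)) := by
    refine CH_congr h0 ?_ ?_ (fun _ _ _ _ h => h) (fun _ _ _ _ h => h) <;>
    · intro ω ω' _ _ h
      simp only [Prod.mk.injEq] at h ⊢
      tauto
  have e2 : CH (pt1 (τ := τ) p) (fun w => D w.1) (lab X b) =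
      CH (pt1 (τ := τ) p) (fun w => D w.1) (fun w => (X w.2 w.1, (b w.1, w.2))) := by
    refine CH_congr h0 (fun _ _ _ _ h => (Prod.ext_iff.mp h).1)
      (fun _ _ _ _ h => (Prod.ext_iff.mp h).1) ?_ ?_ <;>
    · intro ω ω' _ _ h
      simp only [lab, Prod.mk.injEq] at h ⊢
      tauto
  have e3 : CH (pt1 (τ := τ) p) (fun w => X w.2 w.1) (fun w => (D w.1, (b w.1, w.2))) =
      hXD (τ := τ) p X D b := rfl
  have e4 : CH (pt1 (τ := τ) p) (fun w => X w.2 w.1) (fun w => (b w.1, w.2)) =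
      hX (τ := τ) p X b := rfl
  rw [hD_time hp, e3] at h2
  rw [e4, ← e2] at h1
  unfold epsX
  linarith

/-- The two velocities given label, time and position. -/
lemma hDD_lab (hp : IsLaw p) :
    CH (q0 p X b) (fun w => (D w.1.1, D w.2.1)) (fun w => lab X b w.1) =
      2 * (CH p D b - epsX p X D b) := by
  have h := pt1_law (τ := τ) hp
  have h0 := (q0_law (X := X) (b := b) hp).nonneg
  rw [CH_chain h0]
  have e1 : CH (q0 p X b) (fun w => D w.2.1) (fun w => lab X b w.1) =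
      CH p D b - epsX p X D b := by
    rw [← hD_lab hp]
    rw [← CH_dbl_2 (b := lab X b) h.nonneg (fun w => D w.1) (fun _ => ())]
    refine CH_congr h0 (fun _ _ _ _ h => (Prod.ext_iff.mp h).1)
      (fun _ _ _ _ h => (Prod.ext_iff.mp h).1) ?_ ?_
    · intro ω ω' ha hb hh
      have := dbl_eq h.nonneg ha
      have := dbl_eq h.nonneg hb
      simp_all
    · intro ω ω' ha hb hh
      have := dbl_eq h.nonneg ha
      have := dbl_eq h.nonneg hb
      simp_all
  have e2 : CH (q0 p X b) (fun w => D w.1.1) (fun w => (D w.2.1, lab X b w.1)) =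
      CH p D b - epsX p X D b := by
    rw [← hD_lab hp]
    rw [← CH_dbl_1 (b := lab X b) h.nonneg (fun w => D w.1) (fun w => D w.1)]
    refine CH_congr h0 (fun _ _ _ _ h => (Prod.ext_iff.mp h).1)
      (fun _ _ _ _ h => (Prod.ext_iff.mp h).1) ?_ ?_ <;>
    · intro ω ω' _ _ h
      simp only [Prod.mk.injEq] at h ⊢
      tauto
  rw [e1, e2]
  ring

lemma q0_bb (hp : IsLaw p) {w : (Ω × τ) × (Ω × τ)} (h : 0 < q0 p X b w) :
    b w.1.1 = b w.2.1 ∧ w.1.2 = w.2.2 ∧ X w.1.2 w.1.1 = X w.2.2 w.2.1 := by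
  have := dbl_eq (pt1_law (τ := τ) hp).nonneg h
  simpa only [lab, Prod.mk.injEq] using this

/-- First velocity given the label. -/
lemma hD1 (hp : IsLaw p) :
    CH (q0 p X b) (fun w => D w.1.1) (fun w => b w.1.1) = CH p D b := by
  have h := pt1_law (τ := τ) hp
  have h1 := ((dbl_fst (b := lab X b) h.nonneg).comp (pr2_fst hp (un_law τ))).CH D b
  exact h1

/-- Second velocity given the label. -/
lemma hD2 (hp : IsLaw p) :
    CH (q0 p X b) (fun w => D w.2.1) (fun w => b w.1.1) = CH p D b := by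
  have h := pt1_law (τ := τ) hp
  have h1 := ((dbl_snd (b := lab X b) h.nonneg).comp (pr2_fst hp (un_law τ))).CH D b
  rw [← h1]
  refine CH_congr (q0_law hp).nonneg (fun _ _ _ _ h => (Prod.ext_iff.mp h).1)
      (fun _ _ _ _ h => (Prod.ext_iff.mp h).1) ?_ ?_
  · intro ω ω' ha hb hh
    have h1 := (q0_bb hp ha).1
    have h2 := (q0_bb hp hb).1
    simp only at hh ⊢
    rw [← h1, ← h2]
    exact hh
  · intro ω ω' ha hb hh
    have h1 := (q0_bb hp ha).1
    have h2 := (q0_bb hp hb).1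
    simp only at hh ⊢
    rw [h1, h2]
    exact hh

/-- The two velocities given the label and the time. -/
lemma hDD_le (hp : IsLaw p) :
    CH (q0 p X b) (fun w => (D w.1.1, D w.2.1)) (fun w => (w.1.2, b w.1.1)) ≤
      2 * CH p D b := by
  have h0 := (q0_law (X := X) (b := b) hp).nonneg
  have h1 := CH_mono_cond h0 (X := fun w => (D w.1.1, D w.2.1))
    (W' := fun w : (Ω × τ) × (Ω × τ) => (w.1.2, b w.1.1)) (W := fun w => b w.1.1)
    (fun _ _ _ _ h => (Prod.ext_iff.mp h).2)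
  have h2 := CH_subadd h0 (fun w => D w.1.1) (fun w => D w.2.1)
    (fun w : (Ω × τ) × (Ω × τ) => b w.1.1)
  rw [hD1 hp, hD2 hp] at h2
  linarith

/-- Entropy of the time given the label. -/
lemma hT (hp : IsLaw p) :
    CH (q0 p X b) (fun w => w.1.2) (fun w => b w.1.1) = Real.log (Fintype.card τ) := by
  have h := pt1_law (τ := τ) hp
  have h1 := (dbl_fst (b := lab X b) h.nonneg).CH (fun w : Ω × τ => w.2) (fun w => b w.1)
  have h2 : CH (pt1 (τ := τ) p) (fun w : Ω × τ => w.2) (fun w => b w.1) =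
      CH (pt1 (τ := τ) p) (fun w : Ω × τ => w.2) (fun w => ((), b w.1)) := by
    refine CH_congr h.nonneg (fun _ _ _ _ h => (Prod.ext_iff.mp h).1)
      (fun _ _ _ _ h => (Prod.ext_iff.mp h).1) ?_ ?_ <;>
    · intro ω ω' _ _ h
      simp_all
  have h3 : CH (pt1 (τ := τ) p) (fun w : Ω × τ => w.2) (fun w => ((), b w.1)) =
      CH (un τ) (fun t => t) (fun _ => ()) :=
    CH_pr2_snd hp (un_law τ) (fun t => t) (fun _ => ()) b
  have h4 : CH (un τ) (fun t => t) (fun _ => ()) = Real.log (Fintype.card τ) := by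
    have e1 : H (un τ) (fun t => (t, ())) = H (un τ) (fun t => t) := by
      refine H_congr (un_law τ).nonneg (fun _ _ _ _ h => by rw [h]) ?_
      intro ω ω' _ _ h
      exact (Prod.ext_iff.mp h).1
    unfold CH
    rw [e1, H_un, H_const (un_law τ).sum_one]
    ring
  exact h1.trans (h2.trans (h3.trans h4))

/-- Mean position given label and time, from the crossing pairs. -/
lemma hX_q0 (hp : IsLaw p) :
    CH (q0 p X b) (fun w => X w.1.2 w.1.1) (fun w => (w.1.2, b w.1.1)) = hX (τ := τ) p X b := by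
  have h := pt1_law (τ := τ) hp
  have h1 := (dbl_fst (b := lab X b) h.nonneg).CH (fun w : Ω × τ => X w.2 w.1)
    (fun w => (w.2, b w.1))
  rw [h1]
  refine CH_congr h.nonneg (fun _ _ _ _ h => (Prod.ext_iff.mp h).1)
      (fun _ _ _ _ h => (Prod.ext_iff.mp h).1) ?_ ?_ <;>
  · intro ω ω' _ _ h
    simp only [Prod.mk.injEq] at h ⊢
    tauto

lemma hDD_lab' (hp : IsLaw p) :
    CH (q0 p X b) (fun w => (D w.1.1, D w.2.1)) (fun w => (X w.1.2 w.1.1, (w.1.2, b w.1.1))) =
      2 * (CH p D b - epsX p X D b) := by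
  rw [← hDD_lab (X := X) (b := b) (D := D) hp]
  refine CH_congr (q0_law hp).nonneg (fun _ _ _ _ h => (Prod.ext_iff.mp h).1)
      (fun _ _ _ _ h => (Prod.ext_iff.mp h).1) ?_ ?_ <;>
  · intro ω ω' _ _ h
    simp only [lab, Prod.mk.injEq] at h ⊢
    tauto

/-- Time and velocities given the label. -/
lemma hA_ge (hp : IsLaw p) :
    Real.log (Fintype.card τ) + 2 * CH p D b - 2 * epsX p X D b ≤
      CH (q0 p X b) (fun w => (w.1.2, D w.1.1, D w.2.1)) (fun w => b w.1.1) := by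
  have h0 := (q0_law (X := X) (b := b) hp).nonneg
  have h1 := CH_chain h0 (fun w => (D w.1.1, D w.2.1)) (fun w => w.1.2) (fun w => b w.1.1)
  have h2 : CH (q0 p X b) (fun w => ((D w.1.1, D w.2.1), w.1.2)) (fun w => b w.1.1) =
      CH (q0 p X b) (fun w => (w.1.2, D w.1.1, D w.2.1)) (fun w => b w.1.1) := by
    refine CH_congr h0 ?_ ?_ (fun _ _ _ _ h => h) (fun _ _ _ _ h => h) <;>
    · intro ω ω' _ _ h
      simp only [Prod.mk.injEq] at h ⊢
      tauto
  have h3 := CH_mono_cond h0 (X := fun w => (D w.1.1, D w.2.1))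
    (W' := fun w : (Ω × τ) × (Ω × τ) => (X w.1.2 w.1.1, (w.1.2, b w.1.1)))
    (W := fun w => (w.1.2, b w.1.1)) (fun _ _ _ _ h => (Prod.ext_iff.mp h).2)
  rw [hDD_lab' hp] at h3
  rw [hT hp, h2] at h1
  linarith

/-- Position given time, velocities and label. -/
lemma hXA_ge (hp : IsLaw p) :
    hX (τ := τ) p X b - 2 * epsX p X D b ≤
      CH (q0 p X b) (fun w => X w.1.2 w.1.1)
        (fun w => ((w.1.2, D w.1.1, D w.2.1), b w.1.1)) := by
  have h0 := (q0_law (X := X) (b := b) hp).nonneg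
  have h1 := CH_chain h0 (fun w => (D w.1.1, D w.2.1)) (fun w => X w.1.2 w.1.1)
    (fun w => (w.1.2, b w.1.1))
  have h2 := CH_chain h0 (fun w => X w.1.2 w.1.1) (fun w => (D w.1.1, D w.2.1))
    (fun w => (w.1.2, b w.1.1))
  have h3 : CH (q0 p X b) (fun w => ((D w.1.1, D w.2.1), X w.1.2 w.1.1))
      (fun w => (w.1.2, b w.1.1)) =
      CH (q0 p X b) (fun w => (X w.1.2 w.1.1, (D w.1.1, D w.2.1)))
      (fun w => (w.1.2, b w.1.1)) := by
    refine CH_congr h0 ?_ ?_ (fun _ _ _ _ h => h) (fun _ _ _ _ h => h) <;>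
    · intro ω ω' _ _ h
      simp only [Prod.mk.injEq] at h ⊢
      tauto
  have h4 : CH (q0 p X b) (fun w => X w.1.2 w.1.1)
      (fun w => ((D w.1.1, D w.2.1), (w.1.2, b w.1.1))) =
      CH (q0 p X b) (fun w => X w.1.2 w.1.1)
        (fun w => ((w.1.2, D w.1.1, D w.2.1), b w.1.1)) := by
    refine CH_congr h0 (fun _ _ _ _ h => (Prod.ext_iff.mp h).1)
      (fun _ _ _ _ h => (Prod.ext_iff.mp h).1) ?_ ?_ <;>
    · intro ω ω' _ _ h
      simp only [Prod.mk.injEq] at h ⊢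
      tauto
  have h5 := hDD_le (X := X) (b := b) (D := D) hp
  rw [hX_q0 hp, hDD_lab' hp] at h1
  rw [h4] at h2
  linarith

/-- The line and the two times. -/
lemma marg_line (hp : IsLaw p) :
    Marg (qs p X b) (pr2 p (pr2 (un τ) (un τ))) (fun w => (w.2.1.1, (w.2.1.2, w.1))) := by
  have h := pt1_law (τ := τ) hp
  have h1 : Marg (qs p X b) (pr2 (un τ) (pt1 (τ := τ) p)) (fun w => (w.1, w.2.1)) :=
    marg_pr2 (un_law τ) (Marg.id _) (dbl_fst (b := lab X b) h.nonneg)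
  have h2 : Marg (pr2 (un τ) (pt1 (τ := τ) p)) (pr2 p (pr2 (un τ) (un τ)))
      (fun w => (w.2.1, (w.2.2, w.1))) := by
    refine marg_of_equiv (⟨fun w => (w.2.1, (w.2.2, w.1)), fun w => (w.2.2, (w.1, w.2.1)),
      fun w => rfl, fun w => rfl⟩ : τ × (Ω × τ) ≃ Ω × (τ × τ)) ?_
    rintro ⟨t, l, s⟩
    simp only [Equiv.coe_fn_mk, pt1, pr2]
    ring
  exact h1.comp h2

/-- Moving the position to another time. -/
lemma move_le (hp : IsLaw p) (hc : Moves p X D c) :
    CH (qs p X b) (fun w => X w.2.1.2 w.2.1.1)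
      (fun w => ((X w.1 w.2.1.1, D w.2.1.1), (w.2.1.2, w.1))) ≤ c := by
  have hu := pr2_law (un_law τ) (un_law τ)
  have h1 := (marg_line (X := X) (b := b) hp).CH
    (fun w : Ω × (τ × τ) => X w.2.1 w.1) (fun w => ((X w.2.2 w.1, D w.1), w.2))
  have h2 := CH_avg hp hu (fun (t : τ × τ) l => X t.1 l) (fun t l => (X t.2 l, D l))
  have h3 : CH (qs p X b) (fun w => X w.2.1.2 w.2.1.1)
      (fun w => ((X w.1 w.2.1.1, D w.2.1.1), (w.2.1.2, w.1))) =
      ∑ t : τ × τ, pr2 (un τ) (un τ) t * CH p (fun l => X t.1 l) (fun l => (X t.2 l, D l)) :=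
    h1.trans h2
  rw [h3]
  calc ∑ t : τ × τ, pr2 (un τ) (un τ) t * CH p (fun l => X t.1 l) (fun l => (X t.2 l, D l))
      ≤ ∑ t : τ × τ, pr2 (un τ) (un τ) t * c :=
        Finset.sum_le_sum fun t _ => mul_le_mul_of_nonneg_left (hc t.2 t.1) (hu.nonneg t)
    _ = c := by rw [← Finset.sum_mul, hu.sum_one, one_mul]

/-- Position at the new time given label and new time. -/
lemma hX0 (hp : IsLaw p) :
    CH (qs p X b) (fun w => X w.1 w.2.1.1) (fun w => (b w.2.1.1, w.1)) =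
      hX (τ := τ) p X b := by
  have h := pt1_law (τ := τ) hp
  have h1 : Marg (qs p X b) (pr2 (un τ) p) (fun w => (w.1, w.2.1.1)) :=
    marg_pr2 (un_law τ) (Marg.id _)
      ((dbl_fst (b := lab X b) h.nonneg).comp (pr2_fst hp (un_law τ)))
  have h2 : Marg (pr2 (un τ) p) (pt1 (τ := τ) p) (fun w => (w.2, w.1)) := by
    refine marg_of_equiv (⟨fun w => (w.2, w.1), fun w => (w.2, w.1),
      fun w => rfl, fun w => rfl⟩ : τ × Ω ≃ Ω × τ) ?_
    rintro ⟨t, l⟩
    simp only [Equiv.coe_fn_mk, pt1, pr2]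
    ring
  exact (h1.comp h2).CH (fun w : Ω × τ => X w.2 w.1) (fun w => (b w.1, w.2))

end Step

theorem step_thm : StepStmt := by
  intro Ω τ β E G _ _ _ p X D b c hp hc
  have hq := qs_law (τ := τ) (X := X) (b := b) hp
  have h0 := hq.nonneg
  -- the variable of the step
  set A : τ × ((Ω × τ) × (Ω × τ)) → τ × E × E := fun w => (w.2.1.2, D w.2.1.1, D w.2.2.1)
  have c1 := CH_chain h0 A (fun w => X w.1 w.2.1.1) (fun w => (b w.2.1.1, w.1))
  have c2 := CH_chain h0 (fun w => X w.1 w.2.1.1) A (fun w => (b w.2.1.1, w.1))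
  have e1 : CH (qs p X b) (fun w => (A w, X w.1 w.2.1.1)) (fun w => (b w.2.1.1, w.1)) =
      CH (qs p X b) (fun w => (X w.1 w.2.1.1, A w)) (fun w => (b w.2.1.1, w.1)) := by
    refine CH_congr h0 ?_ ?_ (fun _ _ _ _ h => h) (fun _ _ _ _ h => h) <;>
    · intro ω ω' _ _ h
      simp only [Prod.mk.injEq] at h ⊢
      tauto
  have e2 : CH (qs p X b) A (fun w => (X w.1 w.2.1.1, (b w.2.1.1, w.1))) =
      CH (qs p X b) A (fun w => (b w.2.1.1, w.1, X w.1 w.2.1.1)) := by
    refine CH_congr h0 (fun _ _ _ _ h => (Prod.ext_iff.mp h).1)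
      (fun _ _ _ _ h => (Prod.ext_iff.mp h).1) ?_ ?_ <;>
    · intro ω ω' _ _ h
      simp only [Prod.mk.injEq] at h ⊢
      tauto
  have e3 : CH (qs p X b) A (fun w => (b w.2.1.1, w.1)) =
      CH (q0 p X b) (fun w => (w.1.2, D w.1.1, D w.2.1)) (fun w => b w.1.1) :=
    CH_pr2_snd (un_law τ) (q0_law hp) (fun w => (w.1.2, D w.1.1, D w.2.1)) (fun w => b w.1.1)
      (fun t => t)
  have e4 : CH (qs p X b) (fun w => X w.2.1.2 w.2.1.1)
      (fun w => ((A w, b w.2.1.1), w.1)) =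
      CH (q0 p X b) (fun w => X w.1.2 w.1.1)
        (fun w => ((w.1.2, D w.1.1, D w.2.1), b w.1.1)) :=
    CH_pr2_snd (un_law τ) (q0_law hp) (fun w => X w.1.2 w.1.1)
      (fun w => ((w.1.2, D w.1.1, D w.2.1), b w.1.1)) (fun t => t)
  have i1 := hA_ge (τ := τ) (X := X) (b := b) (D := D) hp
  have i2 := hXA_ge (τ := τ) (X := X) (b := b) (D := D) hp
  -- moving
  have m1 := CH_le_add h0 (fun w => X w.2.1.2 w.2.1.1) (fun w => X w.1 w.2.1.1)
    (fun w => ((A w, b w.2.1.1), w.1))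
  have m2 : CH (qs p X b) (fun w => X w.2.1.2 w.2.1.1)
      (fun w => (X w.1 w.2.1.1, ((A w, b w.2.1.1), w.1))) ≤ c := by
    refine le_trans ?_ (move_le (b := b) hp hc)
    refine CH_mono_cond h0 ?_
    intro ω ω' _ _ h
    simp only [A, Prod.mk.injEq] at h ⊢
    tauto
  have m3 : CH (qs p X b) (fun w => X w.1 w.2.1.1) (fun w => ((A w, b w.2.1.1), w.1)) =
      CH (qs p X b) (fun w => X w.1 w.2.1.1) (fun w => (A w, (b w.2.1.1, w.1))) := by
    refine CH_congr h0 (fun _ _ _ _ h => (Prod.ext_iff.mp h).1)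
      (fun _ _ _ _ h => (Prod.ext_iff.mp h).1) ?_ ?_ <;>
    · intro ω ω' _ _ h
      simp only [Prod.mk.injEq] at h ⊢
      tauto
  have h5 := hX0 (X := X) (b := b) hp
  rw [e2, h5] at c1
  rw [e3] at c2
  rw [e4, m3] at m1
  have goal : Real.log (Fintype.card τ) + 2 * CH p D b - (4 * epsX p X D b + c) ≤
      CH (qs p X b) A (fun w => (b w.2.1.1, w.1, X w.1 w.2.1.1)) := by
    linarith
  exact goal

end Pool.KSAT
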