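import Pool.Agent.H7.KSAT.All

/-!
# Saturation along the random walk: exact points

The walk moves between incidences with the same exact point. The next line through the exact
point is independent of the past, so no transfer to product laws is needed.
-/

set_option autoImplicit false

namespace Pool.KSAT

open Finset Real
open Pool.Agent.H49.Ent Pool.Agent.H32.Dense Pool.STK

open Classical in
/-- Given the past, the next incidence has the law of an incidence with the given cell. -/
def Mkv {Ω Ξ W : Type} [Fintype Ω] [Fintype W] (p : Ω → ℝ) (ξ : Ω → Ξ) (q : W → ℝ) {n : ℕ}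
    (o : Fin n → W → Ω) : Prop :=
  ∀ (i : Fin n) (S : (Fin n → Ω) → Ω → Prop) (ρ : ℝ),
    (∀ v v', (∀ j, j < i → v j = v' j) → ∀ ω, S v ω → S v' ω) →
    (∀ ω₀, 0 < p ω₀ → ∀ v, (∑ ω, if S v ω then cond p ξ (ξ ω₀) ω else 0) ≤ ρ) →
    (∑ w, if S (fun j => o j w) (o i w) then q w else 0) ≤ ρ

open Classical in
lemma glue_mk {Ω Λ Ξ W : Type} [Fintype Ω] [Fintype W] {p : Ω → ℝ} (hp : IsLaw p)
    (lam : Ω → Λ) (ξ : Ω → Ξ) {q : W → ℝ} (hq : IsLaw q) (Y : W → Ξ)
    (hY : ∀ z, law q Y z = law p ξ z) (P : W → Ω → Prop) (ρ : ℝ)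
    (hP : ∀ w, 0 < q w → (∑ ω, if P w ω then cond p ξ (Y w) ω else 0) ≤ ρ) :
    (∑ w : W × (Ω × Ω), if P w.1 w.2.1 then
      glue q (dbl p lam) Y (fun v => ξ v.1) w else 0) ≤ ρ := by
  have hs : ∀ ω : Ω, ∑ ω' : Ω, dbl p lam (ω, ω') = p ω := by
    intro ω
    have h1 := dbl_fst (b := lam) hp.nonneg ω
    rw [Fintype.sum_prod_type] at h1
    rw [← h1]
    symm
    refine (Finset.sum_eq_single ω ?_ ?_).trans ?_
    · intro x _ hx
      simp [hx]
    · intro h
      exact absurd (Finset.mem_univ _) h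
    · refine Finset.sum_congr rfl fun x _ => ?_
      simp
  have e1 : ∀ w : W, (∑ v : Ω × Ω, if P w v.1 then
      glue q (dbl p lam) Y (fun v => ξ v.1) (w, v) else 0) =
      q w * ∑ ω, if P w ω then cond p ξ (Y w) ω else 0 := by
    intro w
    rw [Fintype.sum_prod_type, Finset.mul_sum]
    refine Finset.sum_congr rfl fun ω _ => ?_
    by_cases h : P w ω
    · simp only [h, if_true]
      unfold glue Pool.Agent.H49.Ent.cond
      simp only
      by_cases h2 : Y w = ξ ω
      · simp only [h2, if_true]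
        rw [← hY, ← Finset.sum_div, ← Finset.mul_sum, hs, mul_div_assoc]
      · simp only [h2, if_false, Finset.sum_const_zero]
        rw [if_neg (fun h => h2 h.symm), mul_zero]
    · simp [h]
  rw [Fintype.sum_prod_type]
  calc _ = ∑ w, q w * ∑ ω, (if P w ω then cond p ξ (Y w) ω else 0) :=
        Finset.sum_congr rfl fun w _ => e1 w
    _ ≤ ∑ w, q w * ρ := by
        refine Finset.sum_le_sum fun w _ => ?_
        rcases (hq.nonneg w).eq_or_lt with h | h
        · rw [← h, zero_mul, zero_mul]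
        · exact mul_le_mul_of_nonneg_left (hP w h) h.le
    _ = ρ := by rw [← Finset.sum_mul, hq.sum_one, one_mul]

open Classical in
lemma mk_last {Ω Λ Ξ W : Type} [Fintype Ω] [Fintype W] {p : Ω → ℝ} (hp : IsLaw p)
    (lam : Ω → Λ) (ξ : Ω → Ξ) {q : W → ℝ} (hq : IsLaw q) {n : ℕ} (o : Fin n → W → Ω) (Y : W → Ξ)
    (hY : ∀ z, law q Y z = law p ξ z) (S : (Fin (n + 1) → Ω) → Ω → Prop) (ρ : ℝ)
    (hS : ∀ v v', (∀ j, j < Fin.last n → v j = v' j) → ∀ ω, S v ω → S v' ω)
    (hρ : ∀ ω₀, 0 < p ω₀ → ∀ v, (∑ ω, if S v ω then cond p ξ (ξ ω₀) ω else 0) ≤ ρ) :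
    (∑ w : W × (Ω × Ω), if S (fun j => (Fin.snoc (α := fun _ => W × (Ω × Ω) → Ω)
      (fun i w => o i w.1) (fun w => w.2.1) : Fin (n + 1) → _) j w)
        ((Fin.snoc (α := fun _ => W × (Ω × Ω) → Ω)
      (fun i w => o i w.1) (fun w => w.2.1) : Fin (n + 1) → _) (Fin.last n) w) then
      glue q (dbl p lam) Y (fun v => ξ v.1) w else 0) ≤ ρ := by
  have hsw : ∀ v v', (∀ j, j < Fin.last n → v j = v' j) → ∀ ω, (S v ω ↔ S v' ω) :=
    fun v v' h ω => ⟨hS v v' h ω, hS v' v (fun j hj => (h j hj).symm) ω⟩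
  -- a default element
  by_cases hne : Nonempty Ω
  swap
  · exfalso
    have h1 : (∑ ω, p ω) = 0 := by
      refine Finset.sum_eq_zero fun ω _ => ?_
      exact absurd ⟨ω⟩ hne
    rw [hp.sum_one] at h1
    exact one_ne_zero h1
  obtain ⟨ω₁⟩ := hne
  have key := glue_mk hp lam ξ hq Y hY
    (fun w ω => S (Fin.snoc (α := fun _ => Ω) (fun j => o j w) ω₁) ω) ρ (by
      intro w hw
      have h1 : 0 < law p ξ (Y w) := by
        rw [← hY]
        exact law_pos hq.nonneg Y hw
      obtain ⟨ω₀, h2, h3⟩ := Pool.Agent.H33.KSAT.exists_of_law_pos hp.nonneg h1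
      rw [← h3]
      exact hρ ω₀ h2 _)
  refine le_trans (le_of_eq (Finset.sum_congr rfl fun w _ => ?_)) key
  have h4 : (S (fun j => (Fin.snoc (α := fun _ => W × (Ω × Ω) → Ω)
      (fun i w => o i w.1) (fun w => w.2.1) : Fin (n + 1) → _) j w)
        ((Fin.snoc (α := fun _ => W × (Ω × Ω) → Ω)
      (fun i w => o i w.1) (fun w => w.2.1) : Fin (n + 1) → _) (Fin.last n) w)) ↔
      S (Fin.snoc (α := fun _ => Ω) (fun j => o j w.1) ω₁) w.2.1 := by
    rw [Fin.snoc_last]
    refine hsw _ _ (fun j hj => ?_) _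
    induction j using Fin.lastCases with
    | last => exact absurd hj (lt_irrefl _)
    | cast j => simp only [Fin.snoc_castSucc]
  simp only [h4]

open Classical in
lemma mk_cast {Ω Λ Ξ W : Type} [Fintype Ω] [Fintype W] {p : Ω → ℝ} (hp : IsLaw p)
    (lam : Ω → Λ) (ξ : Ω → Ξ) {q : W → ℝ} (hq : IsLaw q) {n : ℕ} (o : Fin n → W → Ω) (Y : W → Ξ)
    (hY : ∀ z, law q Y z = law p ξ z) (hmk : Mkv p ξ q o) (i : Fin n)
    (S : (Fin (n + 1) → Ω) → Ω → Prop) (ρ : ℝ)
    (hS : ∀ v v', (∀ j, j < Fin.castSucc i → v j = v' j) → ∀ ω, S v ω → S v' ω)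
    (hρ : ∀ ω₀, 0 < p ω₀ → ∀ v, (∑ ω, if S v ω then cond p ξ (ξ ω₀) ω else 0) ≤ ρ) :
    (∑ w : W × (Ω × Ω), if S (fun j => (Fin.snoc (α := fun _ => W × (Ω × Ω) → Ω)
      (fun i w => o i w.1) (fun w => w.2.1) : Fin (n + 1) → _) j w)
        ((Fin.snoc (α := fun _ => W × (Ω × Ω) → Ω)
      (fun i w => o i w.1) (fun w => w.2.1) : Fin (n + 1) → _) (Fin.castSucc i) w) then
      glue q (dbl p lam) Y (fun v => ξ v.1) w else 0) ≤ ρ := by
  have hsw : ∀ v v', (∀ j, j < Fin.castSucc i → v j = v' j) → ∀ ω, (S v ω ↔ S v' ω) :=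
    fun v v' h ω => ⟨hS v v' h ω, hS v' v (fun j hj => (h j hj).symm) ω⟩
  by_cases hne : Nonempty Ω
  swap
  · exfalso
    have h1 : (∑ ω, p ω) = 0 := by
      refine Finset.sum_eq_zero fun ω _ => ?_
      exact absurd ⟨ω⟩ hne
    rw [hp.sum_one] at h1
    exact one_ne_zero h1
  obtain ⟨ω₁⟩ := hne
  set S' : (Fin n → Ω) → Ω → Prop := fun v ω => S (Fin.snoc (α := fun _ => Ω) v ω₁) ω with hS'
  have h1 := hmk i S' ρ (by
      intro v v' h ω hω
      refine hS _ _ (fun j hj => ?_) ω hω
      induction j using Fin.lastCases with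
      | last =>
        have : Fin.castSucc i < Fin.last n := Fin.castSucc_lt_last i
        exact absurd hj (not_lt.mpr this.le)
      | cast j =>
        simp only [Fin.snoc_castSucc]
        exact h j (by simpa using hj)) (fun ω₀ h2 v => hρ ω₀ h2 _)
  have m1 : Marg (glue q (dbl p lam) Y (fun v => ξ v.1)) q (fun w => w.1) := by
    refine marg_fst hq.nonneg (fun z => ?_)
    rw [hY, (dbl_fst (b := lam) hp.nonneg).law ξ z]
  have h2 := m1.ex (fun w => if S' (fun j => o j w) (o i w) then (1 : ℝ) else 0)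
  unfold Ex at h2
  have e3 : ∀ w, q w * (if S' (fun j => o j w) (o i w) then (1 : ℝ) else 0) =
      if S' (fun j => o j w) (o i w) then q w else 0 := by
    intro w
    split_ifs <;> simp
  simp only [e3] at h2
  rw [← h2] at h1
  refine le_trans (le_of_eq (Finset.sum_congr rfl fun w _ => ?_)) h1
  have h4 : (S (fun j => (Fin.snoc (α := fun _ => W × (Ω × Ω) → Ω)
      (fun i w => o i w.1) (fun w => w.2.1) : Fin (n + 1) → _) j w)
        ((Fin.snoc (α := fun _ => W × (Ω × Ω) → Ω)
      (fun i w => o i w.1) (fun w => w.2.1) : Fin (n + 1) → _) (Fin.castSucc i) w)) ↔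
      S' (fun j => o j w.1) (o i w.1) := by
    rw [Fin.snoc_castSucc, hS']
    refine hsw _ _ (fun j hj => ?_) _
    induction j using Fin.lastCases with
    | last =>
      have : Fin.castSucc i < Fin.last n := Fin.castSucc_lt_last i
      exact absurd hj (not_lt.mpr this.le)
    | cast j => simp only [Fin.snoc_castSucc]
  simp only [h4]
  split_ifs <;> simp

theorem walkM_thm {Ω Λ Ξ : Type} [Fintype Ω] {p : Ω → ℝ} (hp : IsLaw p) (lam : Ω → Λ)
    (ξ : Ω → Ξ) (n : ℕ) :
    ∃ (W : Type) (_ : Fintype W) (q : W → ℝ) (o o' : Fin n → W → Ω)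
      (y : Fin (n + 1) → W → Ξ), IsWalk p lam ξ q o o' y ∧ Mkv p ξ q o := by
  induction n with
  | zero =>
    refine ⟨Ω, inferInstance, p, Fin.elim0, Fin.elim0, fun _ => ξ, ⟨hp, fun i => i.elim0,
      fun i => i.elim0, fun _ _ i => i.elim0, fun _ _ i => i.elim0, fun _ _ i => i.elim0,
      fun _ _ => rfl, fun F f => ?_⟩, fun i => i.elim0⟩
    simp only [Nat.cast_zero, zero_mul]
    exact CH_nonneg hp.nonneg _ _
  | succ n ih =>
    obtain ⟨W, instW, q, o, o', y, hw, hmk⟩ := ih
    have hq0 := hw.isLaw.nonneg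
    have hs0 := dbl_nonneg (b := lam) hp.nonneg
    set s : Ω × Ω → ℝ := dbl p lam with hs
    have hZ : ∀ z, law q (y (Fin.last n)) z = law s (fun v => ξ v.1) z := by
      intro z
      rw [hw.cell, (dbl_fst (b := lam) hp.nonneg).law ξ z]
    set Q := glue q s (y (Fin.last n)) (fun v => ξ v.1) with hQ
    have hQ0 : ∀ w, 0 ≤ Q w := glue_nonneg hq0 hs0
    have m1 : Marg Q q (fun w => w.1) := marg_fst hq0 hZ
    have m2 : Marg Q s (fun w => w.2) := marg_snd hs0 hZ
    have hQl : IsLaw Q := ⟨hQ0, by rw [m1.sum]; exact hw.isLaw.sum_one⟩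
    have hpos : ∀ w, 0 < Q w → 0 < q w.1 ∧ 0 < s w.2 ∧ y (Fin.last n) w.1 = ξ w.2.1 :=
      fun w hw' => (glue_pos_iff hq0 hs0 w).mp hw'
    refine ⟨W × (Ω × Ω), inferInstance, Q,
      Fin.snoc (α := fun _ => W × (Ω × Ω) → Ω) (fun i w => o i w.1) (fun w => w.2.1),
      Fin.snoc (α := fun _ => W × (Ω × Ω) → Ω) (fun i w => o' i w.1) (fun w => w.2.2),
      Fin.snoc (α := fun _ => W × (Ω × Ω) → Ξ) (fun i w => y i w.1) (fun w => ξ w.2.2),
      ⟨hQl, ?_, ?_, ?_, ?_, ?_, ?_, ?_⟩, ?_⟩
    · intro i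
      induction i using Fin.lastCases with
      | last =>
        simp only [Fin.snoc_last]
        exact m2.comp (dbl_fst hp.nonneg)
      | cast i =>
        simp only [Fin.snoc_castSucc]
        exact m1.comp (hw.marg i)
    · intro i
      induction i using Fin.lastCases with
      | last =>
        simp only [Fin.snoc_last]
        exact m2.comp (dbl_snd hp.nonneg)
      | cast i =>
        simp only [Fin.snoc_castSucc]
        exact m1.comp (hw.marg' i)
    · intro w hw' i
      induction i using Fin.lastCases with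
      | last =>
        simp only [Fin.snoc_last]
        exact dbl_eq hp.nonneg (hpos w hw').2.1
      | cast i =>
        simp only [Fin.snoc_castSucc]
        exact hw.line w.1 (hpos w hw').1 i
    · intro w hw' i
      induction i using Fin.lastCases with
      | last =>
        simp only [Fin.snoc_last, Fin.snoc_castSucc]
        exact (hpos w hw').2.2.symm
      | cast i =>
        simp only [Fin.snoc_castSucc]
        exact hw.start w.1 (hpos w hw').1 i
    · intro w hw' i
      induction i using Fin.lastCases with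
      | last =>
        simp only [Fin.snoc_last, Fin.succ_last]
      | cast i =>
        simp only [Fin.snoc_castSucc]
        rw [← Fin.castSucc_succ]
        simp only [Fin.snoc_castSucc]
        exact hw.stop w.1 (hpos w hw').1 i
    · intro i z
      induction i using Fin.lastCases with
      | last =>
        simp only [Fin.snoc_last]
        rw [(m2.comp (dbl_snd (b := lam) hp.nonneg)).law ξ z]
      | cast i =>
        simp only [Fin.snoc_castSucc]
        rw [← hw.cell i z]
        exact m1.law (y i) z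
    · intro F f
      have y0 : (Fin.snoc (α := fun _ => W × (Ω × Ω) → Ξ) (fun i w => y i w.1)
          (fun w => ξ w.2.2) : Fin (n + 1 + 1) → W × (Ω × Ω) → Ξ) 0 = fun w => y 0 w.1 := by
        rw [show (0 : Fin (n + 1 + 1)) = Fin.castSucc 0 from rfl, Fin.snoc_castSucc]
      set A : W → Fin n → F := fun w i => f (o i w) (o' i w) with hA
      set a : Ω × Ω → F := fun v => f v.1 v.2 with ha
      have e1 : CH Q (fun w => (a w.2, A w.1)) (fun w => y 0 w.1) ≤
          CH Q (fun w i => f
            ((Fin.snoc (α := fun _ => W × (Ω × Ω) → Ω) (fun i w => o i w.1)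
              (fun w => w.2.1) : Fin (n + 1) → _) i w)
            ((Fin.snoc (α := fun _ => W × (Ω × Ω) → Ω) (fun i w => o' i w.1)
              (fun w => w.2.2) : Fin (n + 1) → _) i w)) (fun w => y 0 w.1) := by
        refine CH_mono_left hQ0 ?_
        intro ω ω' _ _ h
        have h1 := (Prod.ext_iff.mp h).1
        refine Prod.ext ?_ ?_
        · have := congrFun h1 (Fin.last n)
          simpa only [Fin.snoc_last] using this
        · funext i
          have := congrFun h1 (Fin.castSucc i)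
          simpa only [Fin.snoc_castSucc] using this
      have e2 := CH_chain hQ0 (fun w => a w.2) (fun w => A w.1) (fun w => y 0 w.1)
      have e3 : CH Q (fun w => A w.1) (fun w => y 0 w.1) = CH q A (y 0) := m1.CH A (y 0)
      have e4 : CH Q (fun w => a w.2) (fun w => (ξ w.2.1, (A w.1, y 0 w.1))) =
          CH s a (fun v => ξ v.1) :=
        CH_glue_snd (Y := fun v : Ω × Ω => ξ v.1) hq0 hs0 hZ a (fun w => (A w, y 0 w))
          (fun _ _ _ _ h => h)
      have e5 : CH Q (fun w => a w.2) (fun w => (ξ w.2.1, (A w.1, y 0 w.1))) ≤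
          CH Q (fun w => a w.2) (fun w => (A w.1, y 0 w.1)) :=
        CH_mono_cond hQ0 (fun _ _ _ _ h => (Prod.ext_iff.mp h).2)
      have e6 := hw.ent F f
      rw [y0]
      push_cast
      have e7 : CH (dbl p lam) (fun w => f w.1 w.2) (fun w => ξ w.1) =
          CH s a (fun v => ξ v.1) := rfl
      rw [e7] at e6 ⊢
      linarith [e1, e2, e3, e4, e5, e6]
    · -- the Markov property
      intro i S ρ hS hρ
      induction i using Fin.lastCases with
      | last =>
        have hZ' : ∀ z, law q (y (Fin.last n)) z = law p ξ z := hw.cell (Fin.last n)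
        exact mk_last hp lam ξ hw.isLaw o (y (Fin.last n)) hZ' S ρ hS hρ
      | cast i =>
        have hZ' : ∀ z, law q (y (Fin.last n)) z = law p ξ z := hw.cell (Fin.last n)
        exact mk_cast hp lam ξ hw.isLaw o (y (Fin.last n)) hZ' hmk i S ρ hS hρ

end Pool.KSAT
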