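import Pool.Agent.H7.KSAT.WalkPtSat
import Pool.Agent.H7.KSAT.DistRk

/-!
# Saturation, exact point form

`pt` is any function of the incidence which determines the cell `g (pt ω)`. If the velocities
given the label and the point are, for every value, not concentrated near linear subspaces of
dimension `k`, the last `a` digits of the cell are saturated at rate `k + 1`.
-/

set_option autoImplicit false

namespace Pool.KSAT

open Finset Real
open Pool.Agent.H49.Ent Pool.Agent.H32.Dense Pool.STK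

open Classical in
/-- Saturation with nonconcentration given the point. -/
def WalkPtStmt : Prop :=
  ∀ m k : ℕ, ∃ C : ℝ, 0 ≤ C ∧ ∀ (Ω Λ β Pt : Type) [Fintype Ω] (p : Ω → ℝ)
    (lam : Ω → Λ) (b : Ω → β) (pt : Ω → Pt) (g : Pt → Fin m → ℤ) (T : Ω → ℤ)
    (V : Ω → Fin m → ℤ) (K a : ℕ) (r0 ρ : ℝ),
    IsLaw p → (∀ ω i, |(V ω i : ℝ)| ≤ 3 * 2 ^ K) →
    (∀ ω ω', 0 < p ω → 0 < p ω' → lam ω = lam ω' → |((T ω' : ℝ) - T ω)| ≤ 2 ^ K ∧
      ∀ i, |2 ^ K * ((g (pt ω') i : ℝ) - g (pt ω) i) - ((T ω' : ℝ) - T ω) * V ω i| ≤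
        4 * 2 ^ K) →
    (∀ ω ω', 0 < p ω → 0 < p ω' → lam ω = lam ω' → b ω = b ω') →
    0 < r0 → r0 ≤ 3 * 2 ^ K → 2 ^ a * (6 * 2 ^ K / r0) ^ k ≤ r0 →
    (∀ ω, 0 < p ω → ∀ B : Fin k → Fin m → ℝ,
      (∑ ω', if ∃ c : Fin k → ℝ, ∀ j, |(V ω' j : ℝ) - ∑ i, c i * B i j| ≤ r0
        then cond p (fun ω => (b ω, pt ω)) (b ω, pt ω) ω' else 0) ≤ ρ) →
    (k + 1) * (a * Real.log 2) * (1 - (k + 1) * ρ) -
      (k + 1) * (K * Real.log 2 - CH p T lam + CH p V b -
        CH p V (fun ω => (b ω, pt ω))) - C ≤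
      CH p (fun ω => g (pt ω)) (fun ω => ((fun j => g (pt ω) j / 2 ^ a), b ω))

open Classical in
/-- The failure event at one step. -/
def Fail {Ω : Type} {k m : ℕ} (V : Ω → Fin m → ℤ) (r0 : ℝ) (i : Fin (k + 1))
    (v : Fin (k + 1) → Ω) (ω : Ω) : Prop :=
  ∃ c : Fin (k + 1) → ℝ, (∀ l, i ≤ l → c l = 0) ∧
    ∀ j, |(V ω j : ℝ) - ∑ l, c l * V (v l) j| ≤ r0

lemma Fail.span {Ω : Type} {k m : ℕ} {V : Ω → Fin m → ℤ} {r0 : ℝ} {i : Fin (k + 1)}
    {v : Fin (k + 1) → Ω} {ω : Ω} (h : Fail V r0 i v ω) :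
    ∃ c : Fin k → ℝ, ∀ j, |(V ω j : ℝ) - ∑ l, c l * (V (v (Fin.castSucc l)) j : ℝ)| ≤ r0 := by
  obtain ⟨c, hc, hj⟩ := h
  refine ⟨fun l => c (Fin.castSucc l), fun j => ?_⟩
  have h1 := hj j
  rw [Fin.sum_univ_castSucc, hc (Fin.last k) (Fin.le_last i), zero_mul, add_zero] at h1
  exact h1

theorem walkPt_thm (hSat : WalkSatPtStmt) (hL : LinStmt) (hR : RkStmt) : WalkPtStmt := by
  classical
  intro m k
  obtain ⟨C, hC, hsat⟩ := hSat m (k + 1)
  refine ⟨C, hC, ?_⟩
  intro Ω Λ β Pt _ p lam b pt g T V K a r0 ρ hp hV hx hb hr0 hrM hcond hconc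
  obtain ⟨W, instW, q, o, o', y, hw, hmk⟩ := walkM_thm hp lam (fun ω => (b ω, pt ω)) (k + 1)
  have hq := hw.isLaw
  have h0 := hq.nonneg
  have key := hsat Ω Λ β Pt W p lam b pt g T V K a q o o' y hp hV hx hb hw
  -- each step
  have hstep : ∀ i : Fin (k + 1),
      (∑ w, if Fail V r0 i (fun j => o j w) (o i w) then q w else 0) ≤ ρ := by
    intro i
    refine hmk i (fun v ω => Fail V r0 i v ω) ρ ?_ ?_
    · rintro v v' hv ω ⟨c, hc, hj⟩
      refine ⟨c, hc, fun j => ?_⟩
      have h1 := hj j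
      have h2 : (∑ l, c l * (V (v' l) j : ℝ)) = ∑ l, c l * (V (v l) j : ℝ) := by
        refine Finset.sum_congr rfl fun l _ => ?_
        by_cases hl : l < i
        · rw [hv l hl]
        · rw [hc l (not_lt.mp hl), zero_mul, zero_mul]
      rw [h2]
      exact h1
    · intro ω₀ h1 v
      refine le_trans (Finset.sum_le_sum fun ω _ => ?_)
        (hconc ω₀ h1 (fun l j => (V (v (Fin.castSucc l)) j : ℝ)))
      have hn := cond_nonneg hp.nonneg (fun ω => (b ω, pt ω)) (b ω₀, pt ω₀) ω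
      by_cases hf : Fail V r0 i v ω
      · rw [if_pos hf, if_pos hf.span]
      · rw [if_neg hf]
        split_ifs
        · exact hn
        · exact le_rfl
  -- deterministic step
  have hdet : ∀ w, (∀ i : Fin (k + 1), ¬ Fail V r0 i (fun j => o j w) (o i w)) →
      k + 1 ≤ rk (2 ^ a) (fun i j => (V (o i w) j : ℝ)) := by
    intro w hw'
    refine dist_rk hL hR (fun i j => (V (o i w) j : ℝ)) (3 * 2 ^ K) (2 ^ a) r0 (by positivity)
      hr0 hrM (fun i j => hV _ _) ?_ ?_
    · have : (2 * (3 * 2 ^ K) / r0 : ℝ) = 6 * 2 ^ K / r0 := by ring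
      rw [this]
      exact hcond
    · intro i c hc
      by_contra hne
      push Not at hne
      exact hw' i ⟨c, hc, hne⟩
  set P : ℝ := ∑ w, if rk (2 ^ a) (fun i j => (V (o i w) j : ℝ)) ≤ k then q w else 0 with hP
  have hPle : P ≤ (k + 1) * ρ := by
    have h1 : P ≤ ∑ w, ∑ i : Fin (k + 1),
        if Fail V r0 i (fun j => o j w) (o i w) then q w else 0 := by
      refine Finset.sum_le_sum fun w _ => ?_
      have hnn : ∀ i : Fin (k + 1), 0 ≤
          (if Fail V r0 i (fun j => o j w) (o i w) then q w else 0) := by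
        intro i
        split_ifs
        · exact h0 w
        · exact le_rfl
      by_cases h : rk (2 ^ a) (fun i j => (V (o i w) j : ℝ)) ≤ k
      · rw [if_pos h]
        have h2 : ∃ i : Fin (k + 1), Fail V r0 i (fun j => o j w) (o i w) := by
          by_contra hne
          push Not at hne
          have := hdet w hne
          omega
        obtain ⟨i, hi⟩ := h2
        refine le_trans ?_ (Finset.single_le_sum (fun i _ => hnn i) (Finset.mem_univ i))
        rw [if_pos hi]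
      · rw [if_neg h]
        exact Finset.sum_nonneg fun i _ => hnn i
    rw [Finset.sum_comm] at h1
    refine h1.trans ((Finset.sum_le_sum fun i _ => hstep i).trans (le_of_eq ?_))
    rw [Finset.sum_const, Finset.card_univ, Fintype.card_fin, nsmul_eq_mul]
    push_cast
    ring
  -- the mean rank
  have hrk : (k + 1) * (1 - P) ≤
      Ex q (fun w => (rk (2 ^ a) (fun i j => (V (o i w) j : ℝ)) : ℝ)) := by
    have h1 : Ex q (fun w => (k + 1) * (1 - (if rk (2 ^ a)
        (fun i j => (V (o i w) j : ℝ)) ≤ k then 1 else 0))) ≤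
        Ex q (fun w => (rk (2 ^ a) (fun i j => (V (o i w) j : ℝ)) : ℝ)) := by
      refine Ex_mono h0 fun w _ => ?_
      by_cases h : rk (2 ^ a) (fun i j => (V (o i w) j : ℝ)) ≤ k
      · rw [if_pos h]
        simp
      · rw [if_neg h]
        have : k + 1 ≤ rk (2 ^ a) (fun i j => (V (o i w) j : ℝ)) := by omega
        have h2 : ((k + 1 : ℕ) : ℝ) ≤ (rk (2 ^ a) (fun i j => (V (o i w) j : ℝ)) : ℝ) := by
          exact_mod_cast this
        push_cast at h2
        linarith
    refine le_trans (le_of_eq ?_) h1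
    rw [Ex_smul, Ex_sub, Ex_const hq.sum_one]
    congr 2
    rw [hP]
    unfold Ex
    refine Finset.sum_congr rfl fun w _ => ?_
    beta_reduce
    by_cases h : rk (2 ^ a) (fun i j => (V (o i w) j : ℝ)) ≤ k
    · rw [if_pos h, if_pos h, mul_one]
    · rw [if_neg h, if_neg h, mul_zero]
  have ha0 : (0 : ℝ) ≤ a * Real.log 2 := by positivity
  have h5 : (k + 1) * (a * Real.log 2) * (1 - (k + 1) * ρ) ≤
      a * Real.log 2 * Ex q (fun w => (rk (2 ^ a) (fun i j => (V (o i w) j : ℝ)) : ℝ)) := by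
    have h6 := mul_le_mul_of_nonneg_left hrk ha0
    have h7 : (k + 1) * (a * Real.log 2) * (1 - (k + 1) * ρ) ≤
        (k + 1) * (a * Real.log 2) * (1 - P) :=
      mul_le_mul_of_nonneg_left (by linarith) (by positivity)
    calc (k + 1) * (a * Real.log 2) * (1 - (k + 1) * ρ)
        ≤ (k + 1) * (a * Real.log 2) * (1 - P) := h7
      _ = a * Real.log 2 * ((k + 1) * (1 - P)) := by ring
      _ ≤ _ := h6
  push_cast at key
  linarith

/-- Saturation with nonconcentration given the point, without hypotheses. -/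
theorem walkPt : WalkPtStmt :=
  walkPt_thm (walkSatPt_thm (cnt2_thm rk_thm lin_thm Pool.Agent.H33.KSAT.fib_thm img_thm'))
    lin_thm rk_thm

end Pool.KSAT
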