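import Pool.Agent.H7.KSAT.WalkPt

/-!
# Saturation along the random walk of exact points: rank of the velocities
-/

set_option autoImplicit false

namespace Pool.KSAT

open Finset Real
open Pool.Agent.H49.Ent Pool.Agent.H32.Dense Pool.STK

/-- Saturation for the walk: the rank of the velocities of the walk bounds the entropy of the
last `a` digits of the position. -/
def WalkSatPtStmt : Prop :=
  ∀ m n : ℕ, ∃ C : ℝ, 0 ≤ C ∧ ∀ (Ω Λ β Pt W : Type) [Fintype Ω] [Fintype W]
    (p : Ω → ℝ) (lam : Ω → Λ) (b : Ω → β) (pt : Ω → Pt) (g : Pt → Fin m → ℤ) (T : Ω → ℤ)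
    (V : Ω → Fin m → ℤ) (K a : ℕ) (q : W → ℝ)
    (o o' : Fin n → W → Ω) (y : Fin (n + 1) → W → β × Pt),
    IsLaw p → (∀ ω i, |(V ω i : ℝ)| ≤ 3 * 2 ^ K) →
    (∀ ω ω', 0 < p ω → 0 < p ω' → lam ω = lam ω' → |((T ω' : ℝ) - T ω)| ≤ 2 ^ K ∧
      ∀ i, |2 ^ K * ((g (pt ω') i : ℝ) - g (pt ω) i) - ((T ω' : ℝ) - T ω) * V ω i| ≤
        4 * 2 ^ K) →
    (∀ ω ω', 0 < p ω → 0 < p ω' → lam ω = lam ω' → b ω = b ω') →
    IsWalk p lam (fun ω => (b ω, pt ω)) q o o' y →
    a * Real.log 2 * Ex q (fun w => (rk (2 ^ a) (fun i j => (V (o i w) j : ℝ)) : ℝ)) -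
      n * (K * Real.log 2 - CH p T lam + CH p V b - CH p V (fun ω => (b ω, pt ω))) - C ≤
      CH p (fun ω => g (pt ω)) (fun ω => ((fun j => g (pt ω) j / 2 ^ a), b ω))

theorem walkSatPt_thm (hCnt : Cnt2Stmt) : WalkSatPtStmt := by
  intro m n
  obtain ⟨C, hC, hcnt⟩ := hCnt m n
  refine ⟨C, hC, ?_⟩
  intro Ω Λ β Pt W _ _ p lam b pt g T V K a q o o' y hp hV hx hb hw
  have hq := hw.isLaw
  have h0 := hq.nonneg
  have hpo : ∀ w, 0 < q w → ∀ i, 0 < p (o i w) := fun w hw' i => (hw.marg i).pos h0 hw'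
  have hpo' : ∀ w, 0 < q w → ∀ i, 0 < p (o' i w) := fun w hw' i => (hw.marg' i).pos h0 hw'
  -- the label is constant
  have hb1 : ∀ w, 0 < q w → ∀ i : Fin n, (y i.castSucc w).1 = (y i.succ w).1 := by
    intro w hw' i
    rw [← hw.start w hw' i, ← hw.stop w hw' i]
    exact hb _ _ (hpo w hw' i) (hpo' w hw' i) (hw.line w hw' i)
  have hb2 : ∀ w, 0 < q w → ∀ i : Fin (n + 1), (y i w).1 = (y 0 w).1 := by
    intro w hw' i
    induction i using Fin.induction with
    | zero => rfl
    | succ i ih => rw [← hb1 w hw' i]; exact ih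
  -- entropy of the increments
  have hent := hw.ent ((Fin m → ℤ) × ℤ) (fun ω ω' => (V ω, T ω' - T ω))
  have hstep := walk_step hp lam (fun ω => (b ω, pt ω)) V T
  have c1 := CH_chain h0 (fun w (i : Fin n) => T (o' i w) - T (o i w))
    (fun w (i : Fin n) => V (o i w)) (y 0)
  have c2 : CH q (fun w i => (V (o i w), T (o' i w) - T (o i w))) (y 0) ≤
      CH q (fun w => ((fun i : Fin n => T (o' i w) - T (o i w)), fun i : Fin n => V (o i w)))
        (y 0) := by
    refine CH_mono_left h0 ?_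
    intro w w' _ _ h
    simp only [Prod.mk.injEq] at h
    funext i
    exact Prod.ext (congrFun h.1.2 i) (congrFun h.1.1 i)
  have c3 : CH q (fun w (i : Fin n) => V (o i w)) (y 0) ≤
      CH q (fun w (i : Fin n) => V (o i w)) (fun w => (y 0 w).1) :=
    CH_mono_cond h0 (fun _ _ _ _ h => by simp only [h])
  have c4 := CH_fin_le h0 (fun w => (y 0 w).1) n (fun i w => V (o i w))
  have c5 : ∀ i : Fin n, CH q (fun w => V (o i w)) (fun w => (y 0 w).1) = CH p V b := by
    intro i
    rw [← (hw.marg i).CH V b]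
    refine CH_congr h0 (fun _ _ _ _ h => (Prod.ext_iff.mp h).1)
      (fun _ _ _ _ h => (Prod.ext_iff.mp h).1) ?_ ?_
    · intro w w' hw1 hw2 h
      have e1 := congrArg Prod.fst (hw.start w hw1 i)
      have e2 := congrArg Prod.fst (hw.start w' hw2 i)
      simp only at e1 e2 h ⊢
      rw [e1, e2, hb2 w hw1, hb2 w' hw2]
      exact h
    · intro w w' hw1 hw2 h
      have e1 := congrArg Prod.fst (hw.start w hw1 i)
      have e2 := congrArg Prod.fst (hw.start w' hw2 i)
      simp only at e1 e2 h ⊢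
      rw [← hb2 w hw1 i.castSucc, ← hb2 w' hw2 i.castSucc, ← e1, ← e2]
      exact h
  simp only [c5, Finset.sum_const, Finset.card_univ, Fintype.card_fin, nsmul_eq_mul] at c4
  have c6 : CH q (fun w (i : Fin n) => T (o' i w) - T (o i w))
      (fun w => ((fun i : Fin n => V (o i w)), y 0 w)) ≤
      CH q (fun w (i : Fin n) => T (o' i w) - T (o i w))
      (fun w => ((fun i : Fin n => V (o i w)), (y 0 w).1, g (y 0 w).2)) := by
    refine CH_mono_cond h0 (fun _ _ _ _ h => ?_)
    simp only [Prod.mk.injEq] at h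
    simp only [h.1, h.2]
  set δ : ℝ := n * (K * Real.log 2 - CH p T lam + CH p V b - CH p V (fun ω => (b ω, pt ω)))
    with hδ
  have hent2 : (n : ℝ) * (CH p V (fun ω => (b ω, pt ω)) + CH p T lam) ≤
      CH q (fun w i => (V (o i w), T (o' i w) - T (o i w))) (y 0) :=
    (mul_le_mul_of_nonneg_left hstep (by positivity)).trans hent
  have hkey := hcnt W β q (fun w i => V (o i w)) K a (fun w i => T (o' i w) - T (o i w))
    (fun w => g (y 0 w).2) (fun w => g (y (Fin.last n) w).2) (fun w => (y 0 w).1) δ hq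
    (fun w i j => hV _ _) (by
      intro w hw' i
      push_cast
      exact (hx _ _ (hpo w hw' i) (hpo' w hw' i) (hw.line w hw' i)).1) (by
      intro w hw' j
      have e1 := sum_tele n (fun i => (g (y i w).2 j : ℝ))
      rw [← e1]
      rw [Finset.mul_sum, ← Finset.sum_sub_distrib]
      refine (Finset.abs_sum_le_sum_abs _ _).trans ?_
      have e2 : ∀ i : Fin n, |2 ^ K * ((g (y i.succ w).2 j : ℝ) - g (y i.castSucc w).2 j) -
          ((T (o' i w) - T (o i w) : ℤ) : ℝ) * (V (o i w) j : ℝ)| ≤ 4 * 2 ^ K := by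
        intro i
        have f1 := congrArg Prod.snd (hw.start w hw' i)
        have f2 := congrArg Prod.snd (hw.stop w hw' i)
        simp only at f1 f2
        rw [← f1, ← f2]
        push_cast
        exact (hx _ _ (hpo w hw' i) (hpo' w hw' i) (hw.line w hw' i)).2 j
      refine (Finset.sum_le_sum fun i _ => e2 i).trans ?_
      rw [Finset.sum_const, Finset.card_univ, Fintype.card_fin, nsmul_eq_mul]
      exact le_of_eq (by ring)) (by
      refine le_trans ?_ c6
      linarith)
  have hfin : CH q (fun w => g (y (Fin.last n) w).2)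
      (fun w => ((fun j => g (y (Fin.last n) w).2 j / 2 ^ a), (y 0 w).1)) =
      CH p (fun ω => g (pt ω)) (fun ω => ((fun j => g (pt ω) j / 2 ^ a), b ω)) := by
    have g1 := CH_of_law h0 hp.nonneg (hw.cell (Fin.last n)) (fun z => g z.2)
      (fun z => ((fun j => g z.2 j / 2 ^ a), z.1))
    have g2 : CH q (fun w => g (y (Fin.last n) w).2)
        (fun w => ((fun j => g (y (Fin.last n) w).2 j / 2 ^ a), (y 0 w).1)) =
        CH q (fun w => g (y (Fin.last n) w).2)
          (fun w => ((fun j => g (y (Fin.last n) w).2 j / 2 ^ a), (y (Fin.last n) w).1)) := by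
      refine CH_congr h0 (fun _ _ _ _ h => (Prod.ext_iff.mp h).1)
        (fun _ _ _ _ h => (Prod.ext_iff.mp h).1) ?_ ?_
      · intro w w' hw1 hw2 h
        simp only [Prod.mk.injEq] at h ⊢
        rw [hb2 w hw1 (Fin.last n), hb2 w' hw2 (Fin.last n)]
        exact h
      · intro w w' hw1 hw2 h
        simp only [Prod.mk.injEq] at h ⊢
        rw [← hb2 w hw1 (Fin.last n), ← hb2 w' hw2 (Fin.last n)]
        exact h
    exact g2.trans g1
  rw [hfin] at hkey
  exact hkey

end Pool.KSAT
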