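import Pool.Agent.H7.KSAT.CNT2
import Pool.Agent.H7.KSAT.Walk

/-!
# Saturation along the random walk
-/

set_option autoImplicit false

namespace Pool.KSAT

open Finset Real
open Pool.Agent.H49.Ent Pool.Agent.H32.Dense Pool.STK

/-- Entropies depend on the law only. -/
lemma H_of_law {W Ω S T : Type} [Fintype W] [Fintype Ω] {q : W → ℝ} {p : Ω → ℝ}
    (hq : ∀ w, 0 ≤ q w) (hp : ∀ w, 0 ≤ p w) {Y : W → S} {Z : Ω → S}
    (h : ∀ z, law q Y z = law p Z z) (f : S → T) :
    H q (fun w => f (Y w)) = H p (fun w => f (Z w)) := by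
  have m1 : Marg (glue q p Y Z) q (fun w => w.1) := marg_fst hq h
  have m2 : Marg (glue q p Y Z) p (fun w => w.2) := marg_snd hp h
  rw [← m1.H (fun w => f (Y w)), ← m2.H (fun w => f (Z w))]
  have hpos := fun w hw => ((glue_pos_iff (Z₁ := Y) (Z₂ := Z) hq hp w).mp hw).2.2
  refine H_congr (glue_nonneg hq hp) ?_ ?_
  · intro w w' hw hw' e
    simp only at e ⊢
    rw [hpos w hw, hpos w' hw']
    exact e
  · intro w w' hw hw' e
    simp only at e ⊢
    rw [← hpos w hw, ← hpos w' hw']
    exact e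

lemma CH_of_law {W Ω S T U : Type} [Fintype W] [Fintype Ω] {q : W → ℝ} {p : Ω → ℝ}
    (hq : ∀ w, 0 ≤ q w) (hp : ∀ w, 0 ≤ p w) {Y : W → S} {Z : Ω → S}
    (h : ∀ z, law q Y z = law p Z z) (f : S → T) (g : S → U) :
    CH q (fun w => f (Y w)) (fun w => g (Y w)) = CH p (fun w => f (Z w)) (fun w => g (Z w)) := by
  unfold CH
  rw [H_of_law hq hp h g, H_of_law hq hp h (fun z => (f z, g z))]

/-- Subadditivity for families. -/
lemma CH_fin_le {W E S : Type} [Fintype W] {q : W → ℝ} (hq : ∀ w, 0 ≤ q w) (Z : W → S) :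
    ∀ (n : ℕ) (f : Fin n → W → E), CH q (fun w i => f i w) Z ≤ ∑ i, CH q (f i) Z := by
  intro n
  induction n with
  | zero =>
    intro f
    simp only [Finset.univ_eq_empty, Finset.sum_empty]
    refine (CH_eq_zero hq ?_).le
    intro w w' _ _ _
    funext i
    exact i.elim0
  | succ n ih =>
    intro f
    have h1 := CH_subadd hq (fun w (i : Fin n) => f i.castSucc w) (f (Fin.last n)) Z
    have h2 : CH q (fun w i => f i w) Z ≤
        CH q (fun w => ((fun i : Fin n => f i.castSucc w), f (Fin.last n) w)) Z := by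
      refine CH_mono_left hq ?_
      intro w w' _ _ h
      simp only [Prod.mk.injEq] at h
      funext i
      induction i using Fin.lastCases with
      | last => exact h.1.2
      | cast i => exact congrFun h.1.1 i
    rw [Fin.sum_univ_castSucc]
    exact h2.trans (h1.trans (by
      have := ih (fun i => f i.castSucc)
      linarith))

lemma sum_tele (n : ℕ) (y : Fin (n + 1) → ℝ) :
    ∑ i : Fin n, (y i.succ - y i.castSucc) = y (Fin.last n) - y 0 := by
  induction n with
  | zero => simp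
  | succ n ih =>
    rw [Fin.sum_univ_castSucc]
    have := ih (fun i => y i.castSucc)
    simp only [← Fin.castSucc_succ] at this ⊢
    rw [Fin.succ_last, this]
    simp

/-- Saturation for the walk: the rank of the velocities of the walk bounds the entropy of the
last `a` digits of the position. -/
def WalkSatStmt : Prop :=
  ∀ m n : ℕ, ∃ C : ℝ, 0 ≤ C ∧ ∀ (Ω Λ β W : Type) [Fintype Ω] [Fintype W] (p : Ω → ℝ)
    (lam : Ω → Λ) (b : Ω → β) (T : Ω → ℤ) (x V : Ω → Fin m → ℤ) (K a : ℕ) (q : W → ℝ)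
    (o o' : Fin n → W → Ω) (y : Fin (n + 1) → W → β × (Fin m → ℤ)),
    IsLaw p → (∀ ω i, |(V ω i : ℝ)| ≤ 3 * 2 ^ K) →
    (∀ ω ω', 0 < p ω → 0 < p ω' → lam ω = lam ω' → |((T ω' : ℝ) - T ω)| ≤ 2 ^ K ∧
      ∀ i, |2 ^ K * ((x ω' i : ℝ) - x ω i) - ((T ω' : ℝ) - T ω) * V ω i| ≤ 4 * 2 ^ K) →
    (∀ ω ω', 0 < p ω → 0 < p ω' → lam ω = lam ω' → b ω = b ω') →
    IsWalk p lam (fun ω => (b ω, x ω)) q o o' y →
    a * Real.log 2 * Ex q (fun w => (rk (2 ^ a) (fun i j => (V (o i w) j : ℝ)) : ℝ)) -
      n * (K * Real.log 2 - CH p T lam + CH p V b - CH p V (fun ω => (b ω, x ω))) - C ≤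
      CH p x (fun ω => ((fun j => x ω j / 2 ^ a), b ω))

theorem walkSat_thm (hCnt : Cnt2Stmt) : WalkSatStmt := by
  intro m n
  obtain ⟨C, hC, hcnt⟩ := hCnt m n
  refine ⟨C, hC, ?_⟩
  intro Ω Λ β W _ _ p lam b T x V K a q o o' y hp hV hx hb hw
  have hq := hw.isLaw
  have h0 := hq.nonneg
  have hpo : ∀ w, 0 < q w → ∀ i, 0 < p (o i w) := fun w hw' i => (hw.marg i).pos h0 hw'
  have hpo' : ∀ w, 0 < q w → ∀ i, 0 < p (o' i w) := fun w hw' i => (hw.marg' i).pos h0 hw'
  -- the label is constant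
  have hb1 : ∀ w, 0 < q w → ∀ i : Fin n, (y i.castSucc w).1 = (y i.succ w).1 := by
    intro w hw' i
    rw [← hw.start w hw' i, ← hw.stop w hw' i]
    exact hb _ _ (hpo w hw' i) (hpo' w hw' i) (hw.line w hw' i)
  have hb2 : ∀ w, 0 < q w → ∀ i : Fin (n + 1), (y i w).1 = (y 0 w).1 := by
    intro w hw' i
    induction i using Fin.induction with
    | zero => rfl
    | succ i ih => rw [← hb1 w hw' i]; exact ih
  -- entropy of the increments
  have hent := hw.ent ((Fin m → ℤ) × ℤ) (fun ω ω' => (V ω, T ω' - T ω))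
  have hstep := walk_step hp lam (fun ω => (b ω, x ω)) V T
  have c1 := CH_chain h0 (fun w (i : Fin n) => T (o' i w) - T (o i w))
    (fun w (i : Fin n) => V (o i w)) (y 0)
  have c2 : CH q (fun w i => (V (o i w), T (o' i w) - T (o i w))) (y 0) ≤
      CH q (fun w => ((fun i : Fin n => T (o' i w) - T (o i w)), fun i : Fin n => V (o i w)))
        (y 0) := by
    refine CH_mono_left h0 ?_
    intro w w' _ _ h
    simp only [Prod.mk.injEq] at h
    funext i
    exact Prod.ext (congrFun h.1.2 i) (congrFun h.1.1 i)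
  have c3 : CH q (fun w (i : Fin n) => V (o i w)) (y 0) ≤
      CH q (fun w (i : Fin n) => V (o i w)) (fun w => (y 0 w).1) :=
    CH_mono_cond h0 (fun _ _ _ _ h => by simp only [h])
  have c4 := CH_fin_le h0 (fun w => (y 0 w).1) n (fun i w => V (o i w))
  have c5 : ∀ i : Fin n, CH q (fun w => V (o i w)) (fun w => (y 0 w).1) = CH p V b := by
    intro i
    rw [← (hw.marg i).CH V b]
    refine CH_congr h0 (fun _ _ _ _ h => (Prod.ext_iff.mp h).1)
      (fun _ _ _ _ h => (Prod.ext_iff.mp h).1) ?_ ?_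
    · intro w w' hw1 hw2 h
      have e1 := congrArg Prod.fst (hw.start w hw1 i)
      have e2 := congrArg Prod.fst (hw.start w' hw2 i)
      simp only at e1 e2 h ⊢
      rw [e1, e2, hb2 w hw1, hb2 w' hw2]
      exact h
    · intro w w' hw1 hw2 h
      have e1 := congrArg Prod.fst (hw.start w hw1 i)
      have e2 := congrArg Prod.fst (hw.start w' hw2 i)
      simp only at e1 e2 h ⊢
      rw [← hb2 w hw1 i.castSucc, ← hb2 w' hw2 i.castSucc, ← e1, ← e2]
      exact h
  simp only [c5, Finset.sum_const, Finset.card_univ, Fintype.card_fin, nsmul_eq_mul] at c4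
  have c6 : CH q (fun w (i : Fin n) => T (o' i w) - T (o i w))
      (fun w => ((fun i : Fin n => V (o i w)), y 0 w)) =
      CH q (fun w (i : Fin n) => T (o' i w) - T (o i w))
      (fun w => ((fun i : Fin n => V (o i w)), (y 0 w).1, (y 0 w).2)) := rfl
  set δ : ℝ := n * (K * Real.log 2 - CH p T lam + CH p V b - CH p V (fun ω => (b ω, x ω)))
    with hδ
  have hent2 : (n : ℝ) * (CH p V (fun ω => (b ω, x ω)) + CH p T lam) ≤
      CH q (fun w i => (V (o i w), T (o' i w) - T (o i w))) (y 0) :=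
    (mul_le_mul_of_nonneg_left hstep (by positivity)).trans hent
  have hkey := hcnt W β q (fun w i => V (o i w)) K a (fun w i => T (o' i w) - T (o i w))
    (fun w => (y 0 w).2) (fun w => (y (Fin.last n) w).2) (fun w => (y 0 w).1) δ hq
    (fun w i j => hV _ _) (by
      intro w hw' i
      push_cast
      exact (hx _ _ (hpo w hw' i) (hpo' w hw' i) (hw.line w hw' i)).1) (by
      intro w hw' j
      have e1 := sum_tele n (fun i => ((y i w).2 j : ℝ))
      rw [← e1]
      rw [Finset.mul_sum, ← Finset.sum_sub_distrib]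
      refine (Finset.abs_sum_le_sum_abs _ _).trans ?_
      have e2 : ∀ i : Fin n, |2 ^ K * (((y i.succ w).2 j : ℝ) - (y i.castSucc w).2 j) -
          ((T (o' i w) - T (o i w) : ℤ) : ℝ) * (V (o i w) j : ℝ)| ≤ 4 * 2 ^ K := by
        intro i
        have f1 := congrArg Prod.snd (hw.start w hw' i)
        have f2 := congrArg Prod.snd (hw.stop w hw' i)
        simp only at f1 f2
        rw [← f1, ← f2]
        push_cast
        exact (hx _ _ (hpo w hw' i) (hpo' w hw' i) (hw.line w hw' i)).2 j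
      refine (Finset.sum_le_sum fun i _ => e2 i).trans ?_
      rw [Finset.sum_const, Finset.card_univ, Fintype.card_fin, nsmul_eq_mul]
      exact le_of_eq (by ring)) (by
      rw [← c6]
      linarith)
  have hfin : CH q (fun w => (y (Fin.last n) w).2)
      (fun w => ((fun j => (y (Fin.last n) w).2 j / 2 ^ a), (y 0 w).1)) =
      CH p x (fun ω => ((fun j => x ω j / 2 ^ a), b ω)) := by
    have g1 := CH_of_law h0 hp.nonneg (hw.cell (Fin.last n)) (fun z => z.2)
      (fun z => ((fun j => z.2 j / 2 ^ a), z.1))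
    have g2 : CH q (fun w => (y (Fin.last n) w).2)
        (fun w => ((fun j => (y (Fin.last n) w).2 j / 2 ^ a), (y 0 w).1)) =
        CH q (fun w => (y (Fin.last n) w).2)
          (fun w => ((fun j => (y (Fin.last n) w).2 j / 2 ^ a), (y (Fin.last n) w).1)) := by
      refine CH_congr h0 (fun _ _ _ _ h => (Prod.ext_iff.mp h).1)
        (fun _ _ _ _ h => (Prod.ext_iff.mp h).1) ?_ ?_
      · intro w w' hw1 hw2 h
        simp only [Prod.mk.injEq] at h ⊢
        rw [hb2 w hw1 (Fin.last n), hb2 w' hw2 (Fin.last n)]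
        exact h
      · intro w w' hw1 hw2 h
        simp only [Prod.mk.injEq] at h ⊢
        rw [← hb2 w hw1 (Fin.last n), ← hb2 w' hw2 (Fin.last n)]
        exact h
    exact g2.trans g1
  rw [hfin] at hkey
  exact hkey

end Pool.KSAT
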